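import Mathlib

open Finset

namespace Pool.Agent.Lib.MP_8ac08c_co

/-- The restricted signed `h`-fold sumset of `A`: all sums
`ε₁ a₁ + ⋯ + ε_h a_h` with `a₁, …, a_h ∈ A` pairwise distinct and all `ε_i ∈ {1, -1}`. -/
def signedSumset {G : Type*} [AddCommGroup G] (A : Finset G) (h : ℕ) : Set G :=
  {x | ∃ B : Finset G, B ⊆ A ∧ B.card = h ∧ ∃ ε : G → ℤ,
    (∀ b ∈ B, ε b = 1 ∨ ε b = -1) ∧ ∑ b ∈ B, ε b • b = x}

/-- `tau G h` is the largest size of a subset `A` of `G` with `0` not in the restricted signed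
`h`-fold sumset of `A`. -/
noncomputable def tau (G : Type*) [AddCommGroup G] (h : ℕ) : ℕ :=
  sSup {n | ∃ A : Finset G, (0 : G) ∉ signedSumset A h ∧ A.card = n}

/-- `eta K h` is the largest size of a subset `T` of the subgroup `K` such that no `h` distinct
elements of `T` have their (ordinary) sum in `2K = {k + k : k ∈ K}`. -/
noncomputable def eta {G : Type*} [AddCommGroup G] (K : AddSubgroup G) (h : ℕ) : ℕ :=
  sSup {n | ∃ T : Finset G, (∀ t ∈ T, t ∈ K) ∧
    (∀ B : Finset G, B ⊆ T → B.card = h → ¬ ∃ k ∈ K, ∑ b ∈ B, b = k + k) ∧ T.card = n}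

/-- `dis Q` is the largest size of a subset `D` of `Q` such that no nonempty signed sum of distinct
elements of `D` is `0`. -/
noncomputable def dis (Q : Type*) [AddCommGroup Q] : ℕ :=
  sSup {n | ∃ D : Finset Q, (∀ h : ℕ, 0 < h → (0 : Q) ∉ signedSumset D h) ∧ D.card = n}

end Pool.Agent.Lib.MP_8ac08c_co
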