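import Mathlib
import Pool.Agent.Lib.MP_8ac08c_co.Def

set_option linter.unusedSectionVars false
set_option linter.unusedVariables false

open Finset

namespace Pool.Agent.Lib.MP_8ac08c_co

variable {G : Type*} [AddCommGroup G]

/-- the subgroup `2K` -/
def dbl (K : AddSubgroup G) : AddSubgroup G := K.map (nsmulAddMonoidHom 2)

lemma mem_dbl {K : AddSubgroup G} {x : G} : x ∈ dbl K ↔ ∃ k ∈ K, x = k + k := by
  unfold dbl
  rw [AddSubgroup.mem_map]
  constructor
  · rintro ⟨k, hk, rfl⟩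
    exact ⟨k, hk, by simp [two_nsmul]⟩
  · rintro ⟨k, hk, rfl⟩
    exact ⟨k, hk, by simp [two_nsmul]⟩

lemma dbl_le (K : AddSubgroup G) : dbl K ≤ K := by
  intro x hx
  obtain ⟨k, hk, rfl⟩ := mem_dbl.1 hx
  exact add_mem hk hk

lemma dbl_mono {K L : AddSubgroup G} (h : K ≤ L) : dbl K ≤ dbl L := by
  intro x hx
  obtain ⟨k, hk, rfl⟩ := mem_dbl.1 hx
  exact mem_dbl.2 ⟨k, h hk, rfl⟩

lemma add_self_mem_dbl {K : AddSubgroup G} {k : G} (hk : k ∈ K) : k + k ∈ dbl K :=
  mem_dbl.2 ⟨k, hk, rfl⟩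

/-- `A` has `k` distinct elements with a signed sum in `L` -/
def SS (A : Finset G) (k : ℕ) (L : AddSubgroup G) : Prop :=
  ∃ P N : Finset G, P ⊆ A ∧ N ⊆ A ∧ Disjoint P N ∧ #P + #N = k ∧ ∑ x ∈ P, x - ∑ x ∈ N, x ∈ L

lemma mem_signedSumset_iff (A : Finset G) (h : ℕ) (x : G) :
    x ∈ signedSumset A h ↔ ∃ P N : Finset G, P ⊆ A ∧ N ⊆ A ∧ Disjoint P N ∧ #P + #N = h ∧
      ∑ x ∈ P, x - ∑ x ∈ N, x = x := by
  classical
  constructor
  · rintro ⟨B, hB, hc, ε, hε, hs⟩
    refine ⟨B.filter (fun b => ε b = 1), B.filter (fun b => ¬ ε b = 1),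
      (filter_subset _ _).trans hB, (filter_subset _ _).trans hB,
      disjoint_filter_filter_not _ _ _, ?_, ?_⟩
    · rw [card_filter_add_card_filter_not, hc]
    · rw [← hs, ← sum_filter_add_sum_filter_not B (fun b => ε b = 1), sub_eq_add_neg,
        ← sum_neg_distrib]
      congr 1
      · apply sum_congr rfl
        intro b hb
        rw [mem_filter] at hb
        rw [hb.2, one_smul]
      · apply sum_congr rfl
        intro b hb
        rw [mem_filter] at hb
        rcases hε b hb.1 with h | h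
        · exact absurd h hb.2
        · rw [h, neg_smul, one_smul]
  · rintro ⟨P, N, hP, hN, hd, hc, hs⟩
    refine ⟨P ∪ N, union_subset hP hN, ?_, fun b => if b ∈ P then 1 else -1, ?_, ?_⟩
    · rw [card_union_of_disjoint hd, hc]
    · intro b _
      by_cases hb : b ∈ P
      · left; simp [hb]
      · right; simp [hb]
    · rw [sum_union hd, ← hs, sub_eq_add_neg, ← sum_neg_distrib]
      congr 1
      · apply sum_congr rfl
        intro b hb
        simp [hb]
      · apply sum_congr rfl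
        intro b hb
        have : b ∉ P := fun h => (disjoint_left.1 hd h) hb
        simp [this]

lemma zero_mem_signedSumset_iff (A : Finset G) (h : ℕ) :
    (0 : G) ∈ signedSumset A h ↔ SS A h ⊥ := by
  rw [mem_signedSumset_iff]
  unfold SS
  simp [AddSubgroup.mem_bot]

section fin
variable [Fintype G]

lemma card_bdd (p : Finset G → Prop) : BddAbove {n | ∃ A : Finset G, p A ∧ A.card = n} := by
  refine ⟨Fintype.card G, ?_⟩
  rintro n ⟨A, _, rfl⟩
  exact card_le_univ A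

lemma le_tau {A : Finset G} {h : ℕ} (hA : ¬ SS A h ⊥) : #A ≤ tau G h := by
  apply le_csSup (card_bdd _)
  exact ⟨A, by rwa [zero_mem_signedSumset_iff], rfl⟩

lemma exists_tau {h : ℕ} (hh : 0 < h) : ∃ A : Finset G, ¬ SS A h ⊥ ∧ #A = tau G h := by
  have hne : {n | ∃ A : Finset G, (0 : G) ∉ signedSumset A h ∧ A.card = n}.Nonempty := by
    refine ⟨0, ∅, ?_, rfl⟩
    rw [zero_mem_signedSumset_iff]
    rintro ⟨P, N, hP, hN, _, hc, _⟩
    rw [subset_empty] at hP hN
    subst hP; subst hN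
    simp at hc
    omega
  obtain ⟨A, hA, hc⟩ := Nat.sSup_mem hne (card_bdd _)
  exact ⟨A, by rwa [zero_mem_signedSumset_iff] at hA, hc⟩

lemma eta_bdd (K : AddSubgroup G) (h : ℕ) : BddAbove {n | ∃ T : Finset G, (∀ t ∈ T, t ∈ K) ∧
    (∀ B : Finset G, B ⊆ T → B.card = h → ¬ ∃ k ∈ K, ∑ b ∈ B, b = k + k) ∧ T.card = n} := by
  refine ⟨Fintype.card G, ?_⟩
  rintro n ⟨A, _, _, rfl⟩
  exact card_le_univ A

lemma le_eta {K : AddSubgroup G} {T : Finset G} {h : ℕ} (hT : ∀ t ∈ T, t ∈ K)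
    (hB : ∀ B ⊆ T, #B = h → ∑ b ∈ B, b ∉ dbl K) : #T ≤ eta K h := by
  apply le_csSup (eta_bdd K h)
  refine ⟨T, hT, ?_, rfl⟩
  intro B hBT hc hcon
  exact hB B hBT hc (mem_dbl.2 hcon)

lemma exists_eta (K : AddSubgroup G) {h : ℕ} (hh : 0 < h) : ∃ T : Finset G, (∀ t ∈ T, t ∈ K) ∧
    (∀ B ⊆ T, #B = h → ∑ b ∈ B, b ∉ dbl K) ∧ #T = eta K h := by
  have hne : {n | ∃ T : Finset G, (∀ t ∈ T, t ∈ K) ∧
    (∀ B : Finset G, B ⊆ T → B.card = h → ¬ ∃ k ∈ K, ∑ b ∈ B, b = k + k) ∧
      T.card = n}.Nonempty := by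
    refine ⟨0, ∅, by simp, ?_, rfl⟩
    intro B hB hc
    rw [subset_empty] at hB
    subst hB
    simp at hc
    omega
  obtain ⟨T, hT, hB, hc⟩ := Nat.sSup_mem hne (eta_bdd K h)
  refine ⟨T, hT, ?_, hc⟩
  intro B hBT hBc hcon
  exact hB B hBT hBc (mem_dbl.1 hcon)

lemma le_dis {D : Finset G}
    (hD : ∀ P N, P ⊆ D → N ⊆ D → Disjoint P N → ∑ x ∈ P, x - ∑ x ∈ N, x = 0 → P = ∅ ∧ N = ∅) :
    #D ≤ dis G := by
  apply le_csSup (card_bdd _)
  refine ⟨D, ?_, rfl⟩
  intro h hh hmem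
  rw [mem_signedSumset_iff] at hmem
  obtain ⟨P, N, hP, hN, hd, hc, hs⟩ := hmem
  obtain ⟨h1, h2⟩ := hD P N hP hN hd hs
  subst h1; subst h2
  simp at hc
  omega

lemma exists_dis : ∃ D : Finset G,
    (∀ P N, P ⊆ D → N ⊆ D → Disjoint P N → ∑ x ∈ P, x - ∑ x ∈ N, x = 0 → P = ∅ ∧ N = ∅) ∧
    #D = dis G := by
  have hne : {n | ∃ D : Finset G, (∀ h : ℕ, 0 < h → (0 : G) ∉ signedSumset D h) ∧
      D.card = n}.Nonempty := by
    refine ⟨0, ∅, ?_, rfl⟩
    intro h hh
    rw [zero_mem_signedSumset_iff]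
    rintro ⟨P, N, hP, hN, _, hc, _⟩
    rw [subset_empty] at hP hN
    subst hP; subst hN
    simp at hc
    omega
  obtain ⟨D, hD, hc⟩ := Nat.sSup_mem hne (card_bdd _)
  refine ⟨D, ?_, hc⟩
  intro P N hP hN hd hs
  by_contra hcon
  have hpos : 0 < #P + #N := by
    rcases P.eq_empty_or_nonempty with h | h
    · rcases N.eq_empty_or_nonempty with h' | h'
      · exact absurd ⟨h, h'⟩ hcon
      · have := h'.card_pos; omega
    · have := h.card_pos; omega
  apply hD _ hpos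
  rw [mem_signedSumset_iff]
  exact ⟨P, N, hP, hN, hd, rfl, hs⟩

end fin

/-- lifting dissociated sets from a quotient -/
lemma le_dis_of_lift [Fintype G] {K : AddSubgroup G} {R : Finset G}
    (hR : ∀ P N, P ⊆ R → N ⊆ R → Disjoint P N → ∑ x ∈ P, x - ∑ x ∈ N, x ∈ K → P = ∅ ∧ N = ∅) :
    #R ≤ dis (G ⧸ K) := by
  classical
  let _ : Fintype (G ⧸ K) := Fintype.ofFinite _
  have hinj : Set.InjOn (QuotientAddGroup.mk' K) (R : Set G) := by
    intro a ha b hb hab
    by_contra hne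
    have h1 : a - b ∈ K := by
      have := (QuotientAddGroup.eq (s := K)).1 (show ((b : G) : G ⧸ K) = (a : G ⧸ K) from hab.symm)
      rwa [neg_add_eq_sub] at this
    have := hR {a} {b} (by simpa using ha) (by simpa using hb) (by simpa using hne)
      (by simpa using h1)
    simp at this
  have hcard : #(R.image (QuotientAddGroup.mk' K)) = #R := card_image_of_injOn hinj
  rw [← hcard]
  apply le_dis
  intro P N hP hN hd hs
  set P' := R.filter (fun r => QuotientAddGroup.mk' K r ∈ P) with hP'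
  set N' := R.filter (fun r => QuotientAddGroup.mk' K r ∈ N) with hN'
  have hPim : P'.image (QuotientAddGroup.mk' K) = P := by
    ext x
    simp only [hP', mem_image, mem_filter]
    constructor
    · rintro ⟨r, ⟨_, h⟩, rfl⟩; exact h
    · intro hx
      obtain ⟨r, hr, rfl⟩ := mem_image.1 (hP hx)
      exact ⟨r, ⟨hr, hx⟩, rfl⟩
  have hNim : N'.image (QuotientAddGroup.mk' K) = N := by
    ext x
    simp only [hN', mem_image, mem_filter]
    constructor
    · rintro ⟨r, ⟨_, h⟩, rfl⟩; exact h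
    · intro hx
      obtain ⟨r, hr, rfl⟩ := mem_image.1 (hN hx)
      exact ⟨r, ⟨hr, hx⟩, rfl⟩
  have hPR : P' ⊆ R := filter_subset _ _
  have hNR : N' ⊆ R := filter_subset _ _
  have hdisj : Disjoint P' N' := by
    rw [disjoint_left]
    intro r hr hr'
    rw [hP', mem_filter] at hr
    rw [hN', mem_filter] at hr'
    exact (disjoint_left.1 hd hr.2) hr'.2
  have hsum : ∑ x ∈ P', x - ∑ x ∈ N', x ∈ K := by
    have h1 : QuotientAddGroup.mk' K (∑ x ∈ P', x - ∑ x ∈ N', x) = 0 := by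
      rw [map_sub, map_sum, map_sum, ← hs]
      congr 1
      · conv_rhs => rw [← hPim]
        rw [sum_image (fun a ha b hb h => hinj (hPR ha) (hPR hb) h)]
      · conv_rhs => rw [← hNim]
        rw [sum_image (fun a ha b hb h => hinj (hNR ha) (hNR hb) h)]
    exact (QuotientAddGroup.eq_zero_iff _).1 h1
  obtain ⟨h1, h2⟩ := hR P' N' hPR hNR hdisj hsum
  constructor
  · rw [← hPim, h1]; simp
  · rw [← hNim, h2]; simp

/-- lower bound -/
theorem lower [Fintype G] (K : AddSubgroup G) {κ : ℕ} (hκ : 0 < κ) :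
    eta K κ + dis (G ⧸ K) ≤ tau G κ := by
  classical
  let _ : Fintype (G ⧸ K) := Fintype.ofFinite _
  obtain ⟨T, hTK, hTB, hTc⟩ := exists_eta K hκ
  obtain ⟨D, hD, hDc⟩ := exists_dis (G := G ⧸ K)
  have hD0 : (0 : G ⧸ K) ∉ D := by
    intro h0
    have := hD {0} ∅ (by simpa using h0) (by simp) (by simp) (by simp)
    simp at this
  set Dl := D.image (Quotient.out : G ⧸ K → G) with hDl
  have hmk : ∀ q : G ⧸ K, ((Quotient.out q : G) : G ⧸ K) = q := fun q => QuotientAddGroup.out_eq' q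
  have hDlc : #Dl = #D := by
    apply card_image_of_injective
    intro a b h
    rw [← hmk a, ← hmk b, h]
  have hDlmem : ∀ x ∈ Dl, ((x : G) : G ⧸ K) ∈ D := by
    intro x hx
    obtain ⟨q, hq, rfl⟩ := mem_image.1 hx
    rw [hmk]; exact hq
  have hinj : Set.InjOn (fun x : G => ((x : G) : G ⧸ K)) (Dl : Set G) := by
    intro a ha b hb hab
    obtain ⟨q, hq, rfl⟩ := mem_image.1 (mem_coe.1 ha)
    obtain ⟨q', hq', rfl⟩ := mem_image.1 (mem_coe.1 hb)
    simp only [hmk] at hab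
    rw [hab]
  have hdisj : Disjoint T Dl := by
    rw [disjoint_left]
    intro x hxT hxD
    have h1 := hDlmem x hxD
    have h2 : ((x : G) : G ⧸ K) = 0 := (QuotientAddGroup.eq_zero_iff _).2 (hTK x hxT)
    rw [h2] at h1
    exact hD0 h1
  have hcard : #(T ∪ Dl) = eta K κ + dis (G ⧸ K) := by
    rw [card_union_of_disjoint hdisj, hTc, hDlc, hDc]
  rw [← hcard]
  apply le_tau
  rintro ⟨P, N, hP, hN, hd, hc, hs⟩
  rw [AddSubgroup.mem_bot] at hs
  -- split
  have hsplit : ∀ X ⊆ T ∪ Dl, ((∑ x ∈ X, x : G) : G ⧸ K) =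
      ∑ y ∈ (X.filter (· ∈ Dl)).image (fun x : G => ((x : G) : G ⧸ K)), y := by
    intro X hX
    have himg := sum_image (f := fun y : G ⧸ K => y) (s := X.filter (· ∈ Dl))
      (g := fun x : G => ((x : G) : G ⧸ K))
      (fun a ha b hb h => hinj (mem_coe.2 (mem_filter.1 (mem_coe.1 ha)).2)
        (mem_coe.2 (mem_filter.1 (mem_coe.1 hb)).2) h)
    rw [himg]
    rw [← sum_filter_add_sum_filter_not X (· ∈ Dl)]
    have h1 : ∑ x ∈ X.filter (fun x => ¬ x ∈ Dl), x ∈ K := by
      apply sum_mem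
      intro x hx
      rw [mem_filter] at hx
      have := hX hx.1
      rw [mem_union] at this
      rcases this with h | h
      · exact hTK x h
      · exact absurd h hx.2
    have h2 : (((∑ x ∈ X.filter (fun x => ¬ x ∈ Dl), x : G)) : G ⧸ K) = 0 :=
      (QuotientAddGroup.eq_zero_iff _).2 h1
    rw [QuotientAddGroup.mk_add, h2, add_zero]
    exact map_sum (QuotientAddGroup.mk' K) _ _
  have himD : ∀ X : Finset G, (X.filter (· ∈ Dl)).image (fun x : G => ((x : G) : G ⧸ K)) ⊆ D := by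
    intro X y hy
    obtain ⟨x, hx, rfl⟩ := mem_image.1 hy
    exact hDlmem x (mem_filter.1 hx).2
  have hPN := hD _ _ (himD P) (himD N) (by
    rw [disjoint_left]
    intro y hy hy'
    obtain ⟨a, ha, rfl⟩ := mem_image.1 hy
    obtain ⟨b, hb, hab⟩ := mem_image.1 hy'
    rw [mem_filter] at ha hb
    have := hinj hb.2 ha.2 hab
    subst this
    exact disjoint_left.1 hd ha.1 hb.1) (by
    rw [← hsplit P hP, ← hsplit N hN, ← QuotientAddGroup.mk_sub, hs]
    rfl)
  rw [image_eq_empty, image_eq_empty] at hPN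
  have hPT : P ⊆ T := by
    intro x hx
    have := hP hx
    rw [mem_union] at this
    rcases this with h | h
    · exact h
    · have : x ∈ P.filter (· ∈ Dl) := mem_filter.2 ⟨hx, h⟩
      rw [hPN.1] at this
      simp at this
  have hNT : N ⊆ T := by
    intro x hx
    have := hN hx
    rw [mem_union] at this
    rcases this with h | h
    · exact h
    · have : x ∈ N.filter (· ∈ Dl) := mem_filter.2 ⟨hx, h⟩
      rw [hPN.2] at this
      simp at this
  apply hTB (P ∪ N) (union_subset hPT hNT)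
  · rw [card_union_of_disjoint hd, hc]
  · rw [sum_union hd, mem_dbl]
    refine ⟨∑ x ∈ N, x, sum_mem (fun x hx => hTK x (hNT hx)), ?_⟩
    rw [sub_eq_zero] at hs
    rw [hs]

end Pool.Agent.Lib.MP_8ac08c_co
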