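import Mathlib
import Pool.Agent.Lib.MP_8ac08c_co.Basic

set_option linter.unusedSectionVars false
set_option linter.unusedVariables false

open Finset Classical

namespace Pool.Agent.Lib.MP_8ac08c_co

variable {G : Type*} [AddCommGroup G] [Fintype G]

structure Setup (K : AddSubgroup G) (A : Finset G) (κ m q : ℕ) : Prop where
  cardK : κ ≤ Nat.card K
  noSS : ¬ SS A κ (dbl K)
  size : #A ≤ κ + m
  cls : ∀ S : Finset G, (∀ s ∈ S, s ∈ K) → #(S.image (QuotientAddGroup.mk' (dbl K))) ≤ q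
  big : m * q < #(A.filter (· ∈ K))
  aff : ∀ K₀ : AddSubgroup G, dbl K ≤ K₀ → K₀ < K → ∀ y ∈ K,
    m * q < #((A.filter (· ∈ K)).filter (fun a => a - y ∉ K₀))
  room : #(A.filter (· ∉ K)) + 1 + q + m ≤ Nat.card (dbl K)

/-- class of `x` is rich -/
def rich (K : AddSubgroup G) (T : Finset G) (m : ℕ) (x : G) : Prop :=
  m < #(T.filter (fun t => t - x ∈ dbl K))

lemma mk_eq_iff {K : AddSubgroup G} {x y : G} :
    QuotientAddGroup.mk' K x = QuotientAddGroup.mk' K y ↔ x - y ∈ K := by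
  constructor
  · intro h
    have := (QuotientAddGroup.eq (s := K)).1 (show ((y : G) : G ⧸ K) = (x : G ⧸ K) from h.symm)
    rwa [neg_add_eq_sub] at this
  · intro h
    refine ((QuotientAddGroup.eq (s := K)).2 ?_ : ((y : G) : G ⧸ K) = (x : G ⧸ K)).symm
    rwa [neg_add_eq_sub]

lemma rich_congr {K : AddSubgroup G} {T : Finset G} {m : ℕ} {x y : G} (h : x - y ∈ dbl K)
    (hx : rich K T m x) : rich K T m y := by
  unfold rich at *
  have : T.filter (fun t => t - x ∈ dbl K) ⊆ T.filter (fun t => t - y ∈ dbl K) := by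
    intro t ht
    rw [mem_filter] at ht ⊢
    refine ⟨ht.1, ?_⟩
    have := add_mem ht.2 h
    rwa [sub_add_sub_cancel] at this
  exact lt_of_lt_of_le hx (card_le_card this)

lemma ext1 {K : AddSubgroup G} {T X : Finset G} {m : ℕ} {c : G} (hc : rich K T m c)
    (hX : #X ≤ m) : ∃ t ∈ T, t ∉ X ∧ t - c ∈ dbl K := by
  by_contra hcon
  push Not at hcon
  have : T.filter (fun t => t - c ∈ dbl K) ⊆ X := by
    intro t ht
    rw [mem_filter] at ht
    by_contra htX
    exact hcon t ht.1 htX ht.2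
  have h1 := card_le_card this
  unfold rich at hc
  omega

lemma ext2 {K : AddSubgroup G} {T : Finset G} {m : ℕ} {c : G} (hcK : c ∈ K)
    (hc : rich K T m c) (l : ℕ) : ∀ X : Finset G, X ⊆ T → #X + 2 * l ≤ m + 1 →
      ∃ X' ⊆ T, #X' = #X + 2 * l ∧ ∑ x ∈ X', x - ∑ x ∈ X, x ∈ dbl K := by
  induction l with
  | zero =>
    intro X hX _
    exact ⟨X, hX, by simp, by simp [zero_mem]⟩
  | succ l ih =>
    intro X hX hm
    obtain ⟨X', hX'T, hX'c, hX's⟩ := ih X hX (by omega)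
    obtain ⟨t, htT, htX, htc⟩ := ext1 (X := X') hc (by omega)
    obtain ⟨s, hsT, hsX, hsc⟩ := ext1 (X := insert t X') hc (by
      rw [card_insert_of_notMem htX]; omega)
    refine ⟨insert s (insert t X'), ?_, ?_, ?_⟩
    · intro x hx
      simp only [mem_insert] at hx
      rcases hx with rfl | rfl | hx
      · exact hsT
      · exact htT
      · exact hX'T hx
    · rw [card_insert_of_notMem hsX, card_insert_of_notMem htX]; omega
    · rw [sum_insert hsX, sum_insert htX]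
      have h1 := add_mem (add_mem htc hsc) (add_self_mem_dbl hcK)
      have h2 := add_mem h1 hX's
      have e : t - c + (s - c) + (c + c) + (∑ x ∈ X', x - ∑ x ∈ X, x) =
        s + (t + ∑ x ∈ X', x) - ∑ x ∈ X, x := by abel
      rwa [e] at h2

lemma poor_card {K : AddSubgroup G} {T : Finset G} {m q : ℕ} (hTK : ∀ t ∈ T, t ∈ K)
    (cls : ∀ S : Finset G, (∀ s ∈ S, s ∈ K) → #(S.image (QuotientAddGroup.mk' (dbl K))) ≤ q) :
    #(T.filter (fun t => ¬ rich K T m t)) ≤ m * q := by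
  refine le_trans (card_le_mul_card_image (f := QuotientAddGroup.mk' (dbl K)) _ m ?_) ?_
  · intro a ha
    obtain ⟨t, ht, rfl⟩ := mem_image.1 ha
    rw [mem_filter] at ht
    have h1 : (T.filter (fun t => ¬ rich K T m t)).filter
        (fun x => QuotientAddGroup.mk' (dbl K) x = QuotientAddGroup.mk' (dbl K) t) ⊆
        T.filter (fun s => s - t ∈ dbl K) := by
      intro s hs
      rw [mem_filter, mem_filter] at hs
      rw [mem_filter]
      exact ⟨hs.1.1, mk_eq_iff.1 hs.2⟩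
    have h2 := card_le_card h1
    have h3 := ht.2
    unfold rich at h3
    omega
  · apply Nat.mul_le_mul_left
    apply cls
    intro s hs
    exact hTK s (mem_filter.1 hs).1

lemma symm_sum {K : AddSubgroup G} {X Y : Finset G} (hX : ∀ x ∈ X, x ∈ K) :
    ∑ x ∈ symmDiff X Y, x - ∑ x ∈ X, x - ∑ x ∈ Y, x ∈ dbl K ∧
      #(symmDiff X Y) + 2 * #(X ∩ Y) = #X + #Y := by
  have hsd : symmDiff X Y = (X \ Y) ∪ (Y \ X) := rfl
  have hdisj : Disjoint (X \ Y) (Y \ X) := by
    rw [disjoint_left]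
    intro x hx hx'
    rw [mem_sdiff] at hx hx'
    exact hx.2 hx'.1
  have h1 : ∑ x ∈ X \ Y, x + ∑ x ∈ X ∩ Y, x = ∑ x ∈ X, x := by
    rw [← sum_union (by
      rw [disjoint_left]; intro x hx hx'
      rw [mem_sdiff] at hx; rw [mem_inter] at hx'
      exact hx.2 hx'.2)]
    congr 1
    ext x; simp only [mem_union, mem_sdiff, mem_inter]; tauto
  have h2 : ∑ x ∈ Y \ X, x + ∑ x ∈ X ∩ Y, x = ∑ x ∈ Y, x := by
    rw [← sum_union (by
      rw [disjoint_left]; intro x hx hx'
      rw [mem_sdiff] at hx; rw [mem_inter] at hx'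
      exact hx.2 hx'.1)]
    congr 1
    ext x; simp only [mem_union, mem_sdiff, mem_inter]; tauto
  have c1 : #(X \ Y) + #(X ∩ Y) = #X := card_sdiff_add_card_inter X Y
  have c2 : #(Y \ X) + #(X ∩ Y) = #Y := by
    rw [inter_comm]; exact card_sdiff_add_card_inter Y X
  constructor
  · rw [hsd, sum_union hdisj, ← h1, ← h2]
    have hk : ∑ x ∈ X ∩ Y, x ∈ K := sum_mem (fun x hx => hX x (mem_inter.1 hx).1)
    have h3 := neg_mem (add_self_mem_dbl hk)
    have e : -(∑ x ∈ X ∩ Y, x + ∑ x ∈ X ∩ Y, x) =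
      ∑ x ∈ X \ Y, x + ∑ x ∈ Y \ X, x - (∑ x ∈ X \ Y, x + ∑ x ∈ X ∩ Y, x) -
        (∑ x ∈ Y \ X, x + ∑ x ∈ X ∩ Y, x) := by abel
    rwa [e] at h3
  · rw [hsd, card_union_of_disjoint hdisj]
    omega

lemma exists_X0 {K : AddSubgroup G} {T : Finset G} {m q : ℕ} (hTK : ∀ t ∈ T, t ∈ K)
    (cls : ∀ S : Finset G, (∀ s ∈ S, s ∈ K) → #(S.image (QuotientAddGroup.mk' (dbl K))) ≤ q)
    (big : m * q < #T)
    (aff : ∀ K₀ : AddSubgroup G, dbl K ≤ K₀ → K₀ < K → ∀ y ∈ K,
      m * q < #(T.filter (fun a => a - y ∉ K₀)))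
    (v : G) (hv : v ∈ K) (p : ℕ) :
    ∃ X ⊆ T, #X ≤ q ∧ #X % 2 = p % 2 ∧ ∑ x ∈ X, x - v ∈ dbl K := by
  set Tr := T.filter (fun t => rich K T m t) with hTr
  set Tp := T.filter (fun t => ¬ rich K T m t) with hTp
  have hpoor : #Tp ≤ m * q := poor_card hTK cls
  have hsplit : #Tr + #Tp = #T := card_filter_add_card_filter_not _
  have hTrne : Tr.Nonempty := by
    rw [← card_pos]; omega
  set π := QuotientAddGroup.mk' (dbl K) with hπ
  have hex : ∀ a ∈ Tr.image π, ∃ t ∈ Tr, π t = a := fun a ha => mem_image.1 ha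
  choose! ρ hρ hρ' using hex
  set Rep := (Tr.image π).image ρ with hRep
  have hRepT : Rep ⊆ Tr := by
    intro x hx
    obtain ⟨a, ha, rfl⟩ := mem_image.1 hx
    exact hρ a ha
  have hRepc : #Rep ≤ q := card_image_le.trans (cls _ (fun s hs => hTK s (mem_filter.1 hs).1))
  have hRepr : ∀ t ∈ Tr, ∃ r ∈ Rep, r - t ∈ dbl K := by
    intro t ht
    have h1 : π t ∈ Tr.image π := mem_image_of_mem _ ht
    refine ⟨ρ (π t), mem_image_of_mem _ h1, ?_⟩
    exact mk_eq_iff.1 (hρ' _ h1)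
  have hRepK : ∀ r ∈ Rep, r ∈ K := fun r hr => hTK r (mem_filter.1 (hRepT hr)).1
  let H₀ : AddSubgroup G :=
    { carrier := {v | v ∈ K ∧ ∃ X ⊆ Rep, #X % 2 = 0 ∧ ∑ x ∈ X, x - v ∈ dbl K}
      zero_mem' := ⟨zero_mem _, ∅, by simp, by simp, by simp [zero_mem]⟩
      add_mem' := by
        rintro a b ⟨ha, X, hX, hXc, hXs⟩ ⟨hb, Y, hY, hYc, hYs⟩
        refine ⟨add_mem ha hb, symmDiff X Y, ?_, ?_, ?_⟩
        · intro x hx
          rw [mem_symmDiff] at hx
          rcases hx with hx | hx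
          · exact hX hx.1
          · exact hY hx.1
        · have := (symm_sum (K := K) (X := X) (Y := Y) (fun x hx => hRepK x (hX hx))).2
          omega
        · have h1 := (symm_sum (K := K) (X := X) (Y := Y) (fun x hx => hRepK x (hX hx))).1
          have h2 := add_mem h1 (add_mem hXs hYs)
          have e : ∑ x ∈ symmDiff X Y, x - ∑ x ∈ X, x - ∑ x ∈ Y, x +
            (∑ x ∈ X, x - a + (∑ x ∈ Y, x - b)) = ∑ x ∈ symmDiff X Y, x - (a + b) := by abel
          rwa [e] at h2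
      neg_mem' := by
        rintro a ⟨ha, X, hX, hXc, hXs⟩
        refine ⟨neg_mem ha, X, hX, hXc, ?_⟩
        have h2 := add_mem hXs (add_self_mem_dbl ha)
        have e : ∑ x ∈ X, x - a + (a + a) = ∑ x ∈ X, x - -a := by abel
        rwa [e] at h2 }
  have hH₀mem : ∀ v, v ∈ H₀ ↔ v ∈ K ∧ ∃ X ⊆ Rep, #X % 2 = 0 ∧ ∑ x ∈ X, x - v ∈ dbl K :=
    fun v => Iff.rfl
  have hdblH : dbl K ≤ H₀ := by
    intro x hx
    rw [hH₀mem]
    refine ⟨dbl_le K hx, ∅, by simp, by simp, ?_⟩
    simpa using hx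
  have hHK : H₀ ≤ K := fun x hx => ((hH₀mem x).1 hx).1
  have hHeq : H₀ = K := by
    by_contra hne
    have hlt : H₀ < K := lt_of_le_of_ne hHK hne
    obtain ⟨t₁, ht₁⟩ := hTrne
    have ht₁K : t₁ ∈ K := hTK t₁ (mem_filter.1 ht₁).1
    have h1 := aff H₀ hdblH hlt t₁ ht₁K
    have hsub : T.filter (fun a => a - t₁ ∉ H₀) ⊆ Tp := by
      intro t ht
      rw [mem_filter] at ht
      rw [hTp, mem_filter]
      refine ⟨ht.1, ?_⟩
      intro hr
      apply ht.2
      have htr : t ∈ Tr := mem_filter.2 ⟨ht.1, hr⟩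
      obtain ⟨r, hr, hrt⟩ := hRepr t htr
      obtain ⟨r₁, hr₁, hr₁t⟩ := hRepr t₁ ht₁
      have htK : t ∈ K := hTK t ht.1
      rw [hH₀mem]
      refine ⟨sub_mem htK ht₁K, ?_⟩
      by_cases hrr : r = r₁
      · refine ⟨∅, by simp, by simp, ?_⟩
        subst hrr
        have := sub_mem hrt hr₁t
        simpa using this
      · refine ⟨{r, r₁}, ?_, ?_, ?_⟩
        · intro x hx
          simp only [mem_insert, mem_singleton] at hx
          rcases hx with rfl | rfl
          · exact hr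
          · exact hr₁
        · rw [card_pair hrr]
        · rw [sum_pair hrr]
          have h3 := add_mem (add_mem hrt hr₁t) (add_self_mem_dbl ht₁K)
          have e : r - t + (r₁ - t₁) + (t₁ + t₁) = r + r₁ - (t - t₁) := by abel
          rwa [e] at h3
    have h2 := card_le_card hsub
    omega
  have hRepsub : Rep ⊆ T := hRepT.trans (filter_subset _ _)
  rcases Nat.mod_two_eq_zero_or_one p with hp | hp
  · have : v ∈ H₀ := by rw [hHeq]; exact hv
    obtain ⟨_, X, hX, hXc, hXs⟩ := (hH₀mem v).1 this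
    exact ⟨X, hX.trans hRepsub, (card_le_card hX).trans hRepc, by rw [hXc, hp], hXs⟩
  · obtain ⟨t₁, ht₁⟩ := hTrne
    obtain ⟨r₁, hr₁, hr₁t⟩ := hRepr t₁ ht₁
    have : v - r₁ ∈ H₀ := by rw [hHeq]; exact sub_mem hv (hRepK _ hr₁)
    obtain ⟨_, X, hX, hXc, hXs⟩ := (hH₀mem _).1 this
    have hs := symm_sum (K := K) (X := X) (Y := {r₁}) (fun x hx => hRepK x (hX hx))
    have hsub : symmDiff X {r₁} ⊆ Rep := by
      intro x hx
      rw [mem_symmDiff, mem_singleton] at hx
      rcases hx with hx | hx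
      · exact hX hx.1
      · rw [hx.1]; exact hr₁
    refine ⟨symmDiff X {r₁}, hsub.trans hRepsub, (card_le_card hsub).trans hRepc, ?_, ?_⟩
    · have := hs.2
      rw [card_singleton] at this
      omega
    · have h2 := add_mem hs.1 hXs
      rw [sum_singleton] at h2
      have e : ∑ x ∈ symmDiff X {r₁}, x - ∑ x ∈ X, x - r₁ + (∑ x ∈ X, x - (v - r₁)) =
        ∑ x ∈ symmDiff X {r₁}, x - v := by abel
      rwa [e] at h2


lemma sum_sub_card_smul {L : AddSubgroup G} {Z : Finset G} {u : G} (h : ∀ y ∈ Z, y - u ∈ L) :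
    ∑ y ∈ Z, y - #Z • u ∈ L := by
  have h1 : ∑ y ∈ Z, (y - u) ∈ L := sum_mem h
  rwa [sum_sub_distrib, sum_const] at h1

lemma coset_card (L : AddSubgroup G) (u : G) :
    #(univ.filter (fun y => y - u ∈ L)) = Nat.card L := by
  rw [Nat.card_eq_fintype_card, Fintype.card_subtype]
  apply card_bij (fun y _ => y - u)
  · intro y hy
    simpa using hy
  · intro a _ b _ h
    exact sub_left_injective h
  · intro b hb
    exact ⟨b + u, by simpa using hb, by simp⟩

/-- maximal signed sum in `K` -/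
structure MaxSig (K : AddSubgroup G) (S P N : Finset G) : Prop where
  hP : P ⊆ S
  hN : N ⊆ S
  hd : Disjoint P N
  hs : ∑ x ∈ P, x - ∑ x ∈ N, x ∈ K
  hmax : ∀ P' N', P' ⊆ S → N' ⊆ S → Disjoint P' N' → ∑ x ∈ P', x - ∑ x ∈ N', x ∈ K →
    #P' + #N' ≤ #P + #N

lemma MaxSig.swap {K : AddSubgroup G} {S P N : Finset G} (h : MaxSig K S P N) :
    MaxSig K S N P where
  hP := h.hN
  hN := h.hP
  hd := h.hd.symm
  hs := by
    have := neg_mem h.hs
    rwa [neg_sub] at this
  hmax := by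
    intro P' N' hP' hN' hd' hs'
    have := h.hmax P' N' hP' hN' hd' hs'
    omega

lemma exists_maxSig (K : AddSubgroup G) (S : Finset G) : ∃ P N, MaxSig K S P N := by
  have hne : ((S.powerset ×ˢ S.powerset).filter
      (fun p => Disjoint p.1 p.2 ∧ ∑ x ∈ p.1, x - ∑ x ∈ p.2, x ∈ K)).Nonempty := by
    refine ⟨(∅, ∅), ?_⟩
    simp [zero_mem]
  obtain ⟨p, hp, hmax⟩ := exists_max_image _ (fun p : Finset G × Finset G => #p.1 + #p.2) hne
  rw [mem_filter, mem_product, mem_powerset, mem_powerset] at hp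
  refine ⟨p.1, p.2, hp.1.1, hp.1.2, hp.2.1, hp.2.2, ?_⟩
  intro P' N' h1 h2 h3 h4
  exact hmax (P', N') (by
    rw [mem_filter, mem_product, mem_powerset, mem_powerset]
    exact ⟨⟨h1, h2⟩, h3, h4⟩)

lemma MaxSig.rest {K : AddSubgroup G} {S P N : Finset G} (h : MaxSig K S P N)
    (P' N' : Finset G) (hP' : P' ⊆ S \ (P ∪ N)) (hN' : N' ⊆ S \ (P ∪ N)) (hd : Disjoint P' N')
    (hs : ∑ x ∈ P', x - ∑ x ∈ N', x ∈ K) : P' = ∅ ∧ N' = ∅ := by
  have hP1 : Disjoint P P' := by
    rw [disjoint_left]; intro x hx hx'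
    have := hP' hx'
    rw [mem_sdiff, mem_union] at this
    exact this.2 (Or.inl hx)
  have hP2 : Disjoint P N' := by
    rw [disjoint_left]; intro x hx hx'
    have := hN' hx'
    rw [mem_sdiff, mem_union] at this
    exact this.2 (Or.inl hx)
  have hN1 : Disjoint N P' := by
    rw [disjoint_left]; intro x hx hx'
    have := hP' hx'
    rw [mem_sdiff, mem_union] at this
    exact this.2 (Or.inr hx)
  have hN2 : Disjoint N N' := by
    rw [disjoint_left]; intro x hx hx'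
    have := hN' hx'
    rw [mem_sdiff, mem_union] at this
    exact this.2 (Or.inr hx)
  have key := h.hmax (P ∪ P') (N ∪ N') (union_subset h.hP (hP'.trans sdiff_subset))
    (union_subset h.hN (hN'.trans sdiff_subset))
    (by
      rw [disjoint_union_left, disjoint_union_right, disjoint_union_right]
      exact ⟨⟨h.hd, hP2⟩, hN1.symm, hd⟩)
    (by
      rw [sum_union hP1, sum_union hN2]
      have := add_mem h.hs hs
      have e : ∑ x ∈ P, x - ∑ x ∈ N, x + (∑ x ∈ P', x - ∑ x ∈ N', x) =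
        ∑ x ∈ P, x + ∑ x ∈ P', x - (∑ x ∈ N, x + ∑ x ∈ N', x) := by abel
      rwa [e] at this)
  rw [card_union_of_disjoint hP1, card_union_of_disjoint hN2] at key
  constructor
  · rw [← card_eq_zero]; omega
  · rw [← card_eq_zero]; omega

lemma MaxSig.card_rest {K : AddSubgroup G} {S P N : Finset G} (h : MaxSig K S P N) :
    #(S \ (P ∪ N)) + (#P + #N) = #S := by
  rw [card_sdiff_of_subset (union_subset h.hP h.hN), card_union_of_disjoint h.hd]
  have := card_le_card (union_subset h.hP h.hN)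
  rw [card_union_of_disjoint h.hd] at this
  omega

lemma star {K : AddSubgroup G} {A : Finset G} {κ : ℕ} (noSS : ¬ SS A κ (dbl K))
    {P N X : Finset G} (hP : P ⊆ A.filter (· ∉ K)) (hN : N ⊆ A.filter (· ∉ K))
    (hd : Disjoint P N) (hX : X ⊆ A.filter (· ∈ K))
    (hc : #X + κ = #(A.filter (· ∈ K)) + (#P + #N)) :
    ∑ x ∈ A.filter (· ∈ K), x - ∑ x ∈ X, x + (∑ x ∈ P, x - ∑ x ∈ N, x) ∉ dbl K := by
  intro hmem
  apply noSS
  have hXc := card_le_card hX
  have d1 : Disjoint (A.filter (· ∈ K) \ X) P := by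
    rw [disjoint_left]
    intro x hx hx'
    rw [mem_sdiff, mem_filter] at hx
    exact (mem_filter.1 (hP hx')).2 hx.1.2
  have d2 : Disjoint (A.filter (· ∈ K) \ X) N := by
    rw [disjoint_left]
    intro x hx hx'
    rw [mem_sdiff, mem_filter] at hx
    exact (mem_filter.1 (hN hx')).2 hx.1.2
  refine ⟨(A.filter (· ∈ K) \ X) ∪ P, N, ?_, hN.trans (filter_subset _ _), ?_, ?_, ?_⟩
  · exact union_subset (sdiff_subset.trans (filter_subset _ _)) (hP.trans (filter_subset _ _))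
  · rw [disjoint_union_left]; exact ⟨d2, hd⟩
  · rw [card_union_of_disjoint d1, card_sdiff_of_subset hX]; omega
  · rw [sum_union d1]
    have h1 : ∑ x ∈ A.filter (· ∈ K) \ X, x + ∑ x ∈ X, x = ∑ x ∈ A.filter (· ∈ K), x :=
      sum_sdiff hX
    rw [← h1] at hmem
    have e : ∑ x ∈ A.filter (· ∈ K) \ X, x + ∑ x ∈ X, x - ∑ x ∈ X, x +
      (∑ x ∈ P, x - ∑ x ∈ N, x) =
      ∑ x ∈ A.filter (· ∈ K) \ X, x + ∑ x ∈ P, x - ∑ x ∈ N, x := by abel
    rwa [e] at hmem

lemma flip_props {S P N : Finset G} (hP : P ⊆ S) (hN : N ⊆ S) (hd : Disjoint P N) {u : G}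
    (hu : u ∈ P) : P.erase u ⊆ S ∧ insert u N ⊆ S ∧ Disjoint (P.erase u) (insert u N) ∧
      #(P.erase u) + #(insert u N) = #P + #N ∧
      ∑ x ∈ P.erase u, x - ∑ x ∈ insert u N, x = ∑ x ∈ P, x - ∑ x ∈ N, x - (u + u) := by
  have huN : u ∉ N := disjoint_left.1 hd hu
  refine ⟨(erase_subset _ _).trans hP, ?_, ?_, ?_, ?_⟩
  · intro x hx
    rw [mem_insert] at hx
    rcases hx with rfl | hx
    · exact hP hu
    · exact hN hx
  · rw [disjoint_left]
    intro x hx hx'
    rw [mem_erase] at hx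
    rw [mem_insert] at hx'
    rcases hx' with h | h
    · exact hx.1 h
    · exact disjoint_left.1 hd hx.2 h
  · rw [card_erase_of_mem hu, card_insert_of_notMem huN]
    have : 0 < #P := card_pos.2 ⟨u, hu⟩
    omega
  · have h1 : ∑ x ∈ P.erase u, x + u = ∑ x ∈ P, x := sum_erase_add _ _ hu
    rw [sum_insert huN, ← h1]
    abel

lemma eta_ge {K : AddSubgroup G} {κ : ℕ} (hκ : 0 < κ) (h : κ ≤ Nat.card K + 1) :
    κ - 1 ≤ eta K κ := by
  have h0 : Nat.card K = #(univ.filter (fun x => x ∈ K)) := by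
    rw [Nat.card_eq_fintype_card, Fintype.card_subtype]
  obtain ⟨T, hT, hTc⟩ := exists_subset_card_eq (s := univ.filter (fun x => x ∈ K))
    (n := κ - 1) (by omega)
  rw [← hTc]
  apply le_eta
  · intro t ht
    exact (mem_filter.1 (hT ht)).2
  · intro B hB hBc
    have := card_le_card hB
    omega

lemma exists_rich {K : AddSubgroup G} {T : Finset G} {m q : ℕ} (hTK : ∀ t ∈ T, t ∈ K)
    (cls : ∀ S : Finset G, (∀ s ∈ S, s ∈ K) → #(S.image (QuotientAddGroup.mk' (dbl K))) ≤ q)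
    (big : m * q < #T) : ∃ c ∈ T, rich K T m c := by
  by_contra hcon
  push Not at hcon
  have h1 := poor_card (m := m) hTK cls
  have h2 : T.filter (fun t => ¬ rich K T m t) = T := by
    apply filter_true_of_mem
    exact hcon
  rw [h2] at h1
  omega

end Pool.Agent.Lib.MP_8ac08c_co
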