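import Mathlib
import Pool.Agent.Lib.MP_8ac08c_co.Final

set_option linter.unusedSectionVars false
set_option linter.unusedVariables false

open Finset Classical

namespace Pool.Agent.Lib.MP_8ac08c_co

variable {G : Type*} [AddCommGroup G] [Fintype G]

/-- `K ∪ (K + u)` when `2u ∈ K` -/
def ext (K : AddSubgroup G) (u : G) (hu : u + u ∈ K) : AddSubgroup G where
  carrier := {x | x ∈ K ∨ x - u ∈ K}
  zero_mem' := Or.inl (zero_mem _)
  add_mem' := by
    rintro a b (ha | ha) (hb | hb)
    · exact Or.inl (add_mem ha hb)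
    · right
      have := add_mem ha hb
      rwa [← add_sub_assoc] at this
    · right
      have := add_mem ha hb
      have e : a - u + b = a + b - u := by abel
      rwa [e] at this
    · left
      have := add_mem (add_mem ha hb) hu
      have e : a - u + (b - u) + (u + u) = a + b := by abel
      rwa [e] at this
  neg_mem' := by
    rintro a (ha | ha)
    · exact Or.inl (neg_mem ha)
    · right
      have := sub_mem (neg_mem ha) hu
      have e : -(a - u) - (u + u) = -a - u := by abel
      rwa [e] at this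

lemma mem_ext {K : AddSubgroup G} {u : G} {hu : u + u ∈ K} {x : G} :
    x ∈ ext K u hu ↔ x ∈ K ∨ x - u ∈ K := Iff.rfl

lemma le_ext {K : AddSubgroup G} {u : G} {hu : u + u ∈ K} : K ≤ ext K u hu :=
  fun x hx => Or.inl hx

lemma mem_dbl_ext {K : AddSubgroup G} {u : G} {hu : u + u ∈ K} {x : G}
    (hx : x ∈ dbl (ext K u hu)) : x ∈ dbl K ∨ x - (u + u) ∈ dbl K := by
  obtain ⟨k, hk, rfl⟩ := mem_dbl.1 hx
  rcases mem_ext.1 hk with h | h
  · left; exact add_self_mem_dbl h
  · right
    have := add_self_mem_dbl h
    have e : k - u + (k - u) = k + k - (u + u) := by abel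
    rwa [e] at this

lemma nsmul_even_mem {L : AddSubgroup G} {u : G} (hu : u + u ∈ L) {n : ℕ} (hn : n % 2 = 0) :
    n • u ∈ L := by
  obtain ⟨l, rfl⟩ : ∃ l, n = 2 * l := ⟨n / 2, by omega⟩
  have : (2 * l) • u = l • (u + u) := by
    rw [mul_comm, mul_smul, two_nsmul]
  rw [this]
  exact AddSubgroup.nsmul_mem _ hu _

theorem caseA {K : AddSubgroup G} {A : Finset G} {κ m q : ℕ} (hs : Setup K A κ m q)
    {P N : Finset G} (hM : MaxSig K (A.filter (· ∉ K)) P N) {u : G} (hu : u ∈ P)
    (hu2 : u + u ∈ K) {e : ℕ} (he : #(A.filter (· ∈ K)) + (#P + #N) = κ + e) :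
    ∃ K' : AddSubgroup G, κ ≤ Nat.card K' ∧ #A ≤ eta K' κ + dis (G ⧸ K') := by
  set T := A.filter (· ∈ K) with hT
  set S := A.filter (· ∉ K) with hS
  have hTS : #T + #S = #A := card_filter_add_card_filter_not _
  have huK : u ∉ K := (mem_filter.1 (hM.hP hu)).2
  have hTK : ∀ t ∈ T, t ∈ K := fun t ht => (mem_filter.1 ht).2
  have hSK : ∀ t ∈ S, t ∉ K := fun t ht => (mem_filter.1 ht).2
  have hrest := hM.card_rest
  have hem : e ≤ m := by
    have := hs.size
    omega
  set w := ∑ x ∈ P, x - ∑ x ∈ N, x with hw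
  have hwK : w ∈ K := hM.hs
  obtain ⟨c, hcT, hc⟩ := exists_rich hTK hs.cls hs.big
  obtain ⟨X₀, hX₀T, hX₀c, hX₀p, hX₀s⟩ := exists_X0 hTK hs.cls hs.big hs.aff w hwK (#P + #N)
  set K2 := ext K u hu2 with hK2
  have hKK2 : K ≤ K2 := le_ext
  have hcardK2 : κ ≤ Nat.card K2 :=
    hs.cardK.trans (Nat.card_le_card_of_injective _ (AddSubgroup.inclusion_injective hKK2))
  -- choose Y
  obtain ⟨Y, hY, hYc⟩ := exists_subset_card_eq (s := univ.filter (fun y => y - u ∈ dbl K))
    (n := #P + #N + 1 + #X₀) (by
      rw [coset_card]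
      have hroom : #S + 1 + q + m ≤ Nat.card (dbl K) := hs.room
      omega)
  have hYu : ∀ y ∈ Y, y - u ∈ dbl K := fun y hy => (mem_filter.1 (hY hy)).2
  have hYK : ∀ y ∈ Y, y ∉ K := by
    intro y hy hyK
    apply huK
    have := sub_mem hyK (dbl_le K (hYu y hy))
    rwa [sub_sub_cancel] at this
  have hTYd : Disjoint (T \ X₀) Y := by
    rw [disjoint_left]
    intro x hx hx'
    exact hYK x hx' (hTK x (mem_sdiff.1 hx).1)
  have hX₀le := card_le_card hX₀T
  have hT2c : #((T \ X₀) ∪ Y) = κ + e + 1 := by
    rw [card_union_of_disjoint hTYd, card_sdiff_of_subset hX₀T, hYc]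
    omega
  have heta : κ + e + 1 ≤ eta K2 κ := by
    rw [← hT2c]
    apply le_eta
    · intro t ht
      rw [mem_union] at ht
      rcases ht with h | h
      · exact hKK2 (hTK t (mem_sdiff.1 h).1)
      · exact Or.inr (dbl_le K (hYu t h))
    · intro B hB hBc hBs
      set BT := B.filter (· ∈ K) with hBT
      set BY := B.filter (· ∉ K) with hBY
      have hBsum : ∑ x ∈ BT, x + ∑ x ∈ BY, x = ∑ x ∈ B, x := sum_filter_add_sum_filter_not B _ _
      have hBcard : #BT + #BY = κ := by
        rw [← hBc]; exact card_filter_add_card_filter_not _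
      have hBTsub : BT ⊆ T \ X₀ := by
        intro x hx
        rw [hBT, mem_filter] at hx
        have := hB hx.1
        rw [mem_union] at this
        rcases this with h | h
        · exact h
        · exact absurd hx.2 (hYK x h)
      have hBYsub : BY ⊆ Y := by
        intro x hx
        rw [hBY, mem_filter] at hx
        have := hB hx.1
        rw [mem_union] at this
        rcases this with h | h
        · exact absurd (hTK x (mem_sdiff.1 h).1) hx.2
        · exact h
      have hBYle := card_le_card hBYsub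
      have hBYs : ∑ x ∈ BY, x - #BY • u ∈ dbl K :=
        sum_sub_card_smul (fun y hy => hYu y (hBYsub hy))
      have hBTK : ∑ x ∈ BT, x ∈ K := sum_mem (fun x hx => (mem_filter.1 hx).2)
      have hBK : ∑ x ∈ B, x ∈ K := by
        rcases mem_dbl_ext hBs with h | h
        · exact dbl_le K h
        · have := add_mem (dbl_le K h) hu2
          rwa [sub_add_cancel] at this
      have hsmul : #BY • u ∈ K := by
        have h1 := sub_mem (sub_mem hBK hBTK) (dbl_le K hBYs)
        have e1 : ∑ x ∈ B, x - ∑ x ∈ BT, x - (∑ x ∈ BY, x - #BY • u) = #BY • u := by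
          rw [← hBsum]; abel
        rwa [e1] at h1
      have heven : #BY % 2 = 0 := by
        by_contra hodd
        apply huK
        have h2 : (#BY - 1) • u ∈ K := nsmul_even_mem hu2 (by omega)
        have h3 := sub_mem hsmul h2
        have h4 : #BY • u = (#BY - 1) • u + u := by
          conv_lhs => rw [show #BY = (#BY - 1) + 1 by omega]
          rw [succ_nsmul]
        rw [h4, add_sub_cancel_left] at h3
        exact h3
      have huK2 : u ∈ K2 := Or.inr (by rw [sub_self]; exact zero_mem _)
      have hBTs : ∑ x ∈ BT, x ∈ dbl K2 := by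
        have h2 : #BY • u ∈ dbl K2 := nsmul_even_mem (add_self_mem_dbl huK2) heven
        have h1 := sub_mem (sub_mem hBs (dbl_mono hKK2 hBYs)) h2
        have e1 : ∑ x ∈ B, x - (∑ x ∈ BY, x - #BY • u) - #BY • u = ∑ x ∈ BT, x := by
          rw [← hBsum]; abel
        rwa [e1] at h1
      -- X_P
      set XP := (T \ X₀) \ BT with hXP
      have hXPT : XP ⊆ T := sdiff_subset.trans sdiff_subset
      have hXPc : #XP + #BT + #X₀ = #T := by
        rw [hXP, card_sdiff_of_subset hBTsub, card_sdiff_of_subset hX₀T]
        have := card_le_card hBTsub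
        rw [card_sdiff_of_subset hX₀T] at this
        omega
      have hXPs : ∑ x ∈ XP, x + ∑ x ∈ BT, x + ∑ x ∈ X₀, x = ∑ x ∈ T, x := by
        rw [hXP, sum_sdiff hBTsub, sum_sdiff hX₀T]
      obtain ⟨l, hl⟩ : ∃ l, #XP + 2 * l = e := ⟨(e - #XP) / 2, by omega⟩
      obtain ⟨X', hX'T, hX'c, hX's⟩ := ext2 (hTK c hcT) hc l XP hXPT (by omega)
      have st1 : ∑ x ∈ T, x - ∑ x ∈ X', x + (∑ x ∈ P, x - ∑ x ∈ N, x) ∉ dbl K :=
        star hs.noSS hM.hP hM.hN hM.hd hX'T (by
          show #X' + κ = #T + (#P + #N)
          omega)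
      obtain ⟨f1, f2, f3, f4, f5⟩ := flip_props hM.hP hM.hN hM.hd hu
      have st2 : ∑ x ∈ T, x - ∑ x ∈ X', x +
          (∑ x ∈ P.erase u, x - ∑ x ∈ insert u N, x) ∉ dbl K :=
        star hs.noSS f1 f2 f3 hX'T (by
          show #X' + κ = #T + (#(P.erase u) + #(insert u N))
          omega)
      rw [f5] at st2
      rcases mem_dbl_ext hBTs with h | h
      · apply st1
        have h1 := add_mem (add_mem (sub_mem h hX's) hX₀s) (add_self_mem_dbl hwK)
        have e1 : ∑ x ∈ BT, x - (∑ x ∈ X', x - ∑ x ∈ XP, x) + (∑ x ∈ X₀, x - w) + (w + w) =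
          (∑ x ∈ XP, x + ∑ x ∈ BT, x + ∑ x ∈ X₀, x) - ∑ x ∈ X', x + w := by abel
        rw [e1, hXPs] at h1
        exact h1
      · apply st2
        have h1 := add_mem (add_mem (sub_mem h hX's) hX₀s) (add_self_mem_dbl hwK)
        have e1 : ∑ x ∈ BT, x - (u + u) - (∑ x ∈ X', x - ∑ x ∈ XP, x) + (∑ x ∈ X₀, x - w) +
          (w + w) =
          (∑ x ∈ XP, x + ∑ x ∈ BT, x + ∑ x ∈ X₀, x) - ∑ x ∈ X', x + (w - (u + u)) := by abel
        rw [e1, hXPs] at h1
        exact h1
  -- the quotient part
  set R := S \ (P ∪ N) with hR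
  set R₁ := R.filter (fun r => r - u ∉ K) with hR₁
  have hRfew : #(R.filter (fun r => r - u ∈ K)) ≤ 1 := by
    rw [card_le_one]
    intro a ha b hb
    rw [mem_filter] at ha hb
    by_contra hne
    have h1 : a - b ∈ K := by
      have := sub_mem ha.2 hb.2
      rwa [sub_sub_sub_cancel_right] at this
    have := hM.rest {a} {b} (singleton_subset_iff.2 ha.1) (singleton_subset_iff.2 hb.1)
      (by simpa using hne)
      (by simpa using h1)
    simp at this
  have hRsplit : #(R.filter (fun r => r - u ∈ K)) + #R₁ = #R := card_filter_add_card_filter_not _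
  have hR₁le : #R₁ ≤ dis (G ⧸ K2) := by
    apply le_dis_of_lift
    intro P' N' hP' hN' hd' hs'
    have hP'R : P' ⊆ R := hP'.trans (filter_subset _ _)
    have hN'R : N' ⊆ R := hN'.trans (filter_subset _ _)
    rcases mem_ext.1 hs' with h | h
    · exact hM.rest P' N' hP'R hN'R hd' h
    · exfalso
      have hP1 : Disjoint (P.erase u) P' := by
        rw [disjoint_left]; intro x hx hx'
        have := hP'R hx'
        rw [hR, mem_sdiff, mem_union] at this
        exact this.2 (Or.inl (mem_erase.1 hx).2)
      have hP2 : Disjoint (P.erase u) N' := by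
        rw [disjoint_left]; intro x hx hx'
        have := hN'R hx'
        rw [hR, mem_sdiff, mem_union] at this
        exact this.2 (Or.inl (mem_erase.1 hx).2)
      have hN1 : Disjoint N P' := by
        rw [disjoint_left]; intro x hx hx'
        have := hP'R hx'
        rw [hR, mem_sdiff, mem_union] at this
        exact this.2 (Or.inr hx)
      have hN2 : Disjoint N N' := by
        rw [disjoint_left]; intro x hx hx'
        have := hN'R hx'
        rw [hR, mem_sdiff, mem_union] at this
        exact this.2 (Or.inr hx)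
      have hPu : ∑ x ∈ P.erase u, x + u = ∑ x ∈ P, x := sum_erase_add _ _ hu
      have key := hM.hmax (P.erase u ∪ P') (N ∪ N')
        (union_subset ((erase_subset _ _).trans hM.hP) (hP'R.trans sdiff_subset))
        (union_subset hM.hN (hN'R.trans sdiff_subset))
        (by
          rw [disjoint_union_left, disjoint_union_right, disjoint_union_right]
          exact ⟨⟨disjoint_of_subset_left (erase_subset _ _) hM.hd, hP2⟩, hN1.symm, hd'⟩)
        (by
          rw [sum_union hP1, sum_union hN2]
          have h1 := add_mem hwK h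
          have e1 : w + (∑ x ∈ P', x - ∑ x ∈ N', x - u) =
            ∑ x ∈ P.erase u, x + ∑ x ∈ P', x - (∑ x ∈ N, x + ∑ x ∈ N', x) := by
            rw [hw, ← hPu]; abel
          rwa [e1] at h1)
      rw [card_union_of_disjoint hP1, card_union_of_disjoint hN2, card_erase_of_mem hu] at key
      have hPpos : 0 < #P := card_pos.2 ⟨u, hu⟩
      have hle1 : #P' + #N' ≤ 1 := by omega
      rcases P'.eq_empty_or_nonempty with hP0 | hP0
      · rcases N'.eq_empty_or_nonempty with hN0 | hN0
        · rw [hP0, hN0] at h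
          simp only [sum_empty, sub_zero, zero_sub] at h
          exact huK (by simpa using neg_mem h)
        · have hN1' : #N' = 1 := by
            have := hN0.card_pos; omega
          obtain ⟨r, hr⟩ := card_eq_one.1 hN1'
          rw [hP0, hr] at h
          simp only [sum_empty, zero_sub, sum_singleton] at h
          have hrR : r ∈ R₁ := hN' (by rw [hr]; exact mem_singleton_self r)
          apply (mem_filter.1 hrR).2
          have h1 := sub_mem (neg_mem h) hu2
          have e1 : -(-r - u) - (u + u) = r - u := by abel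
          rwa [e1] at h1
      · have hP1' : #P' = 1 := by
          have := hP0.card_pos; omega
        have hN0 : N' = ∅ := by rw [← card_eq_zero]; omega
        obtain ⟨r, hr⟩ := card_eq_one.1 hP1'
        rw [hN0, hr] at h
        simp only [sum_empty, sub_zero, sum_singleton] at h
        have hrR : r ∈ R₁ := hP' (by rw [hr]; exact mem_singleton_self r)
        exact (mem_filter.1 hrR).2 h
  exact ⟨K2, hcardK2, by omega⟩

end Pool.Agent.Lib.MP_8ac08c_co
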