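import Mathlib
import Pool.Agent.Lib.MP_8ac08c_co.CaseA

set_option linter.unusedSectionVars false
set_option linter.unusedVariables false

open Finset Classical

namespace Pool.Agent.Lib.MP_8ac08c_co

variable {G : Type*} [AddCommGroup G] [Fintype G]

/-- if some element of the maximal signed sum has its double outside `K`, then the rest can be
enlarged to a bigger dissociated set -/
lemma rest_lt {K : AddSubgroup G} {S P N : Finset G} (hM : MaxSig K S P N)
    (hSK : ∀ t ∈ S, t ∉ K) {u : G} (hu : u ∈ P) (hu2 : u + u ∉ K) :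
    #(S \ (P ∪ N)) + 1 ≤ dis (G ⧸ K) := by
  set R := S \ (P ∪ N) with hR
  obtain ⟨f1, f2, f3, f4, f5⟩ := flip_props hM.hP hM.hN hM.hd hu
  -- key: adding disjoint subsets of R to the flipped signed sum
  have key : ∀ P' N', P' ⊆ R → N' ⊆ R → Disjoint P' N' →
      ∑ x ∈ P', x - ∑ x ∈ N', x - (u + u) ∈ K → P' = ∅ ∧ N' = ∅ := by
    intro P' N' hP' hN' hd' hs'
    have hin : ∀ x ∈ R, x ∉ P.erase u ∧ x ∉ insert u N := by
      intro x hx
      rw [hR, mem_sdiff, mem_union] at hx
      constructor
      · intro h; exact hx.2 (Or.inl (mem_erase.1 h).2)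
      · intro h
        rw [mem_insert] at h
        rcases h with rfl | h
        · exact hx.2 (Or.inl hu)
        · exact hx.2 (Or.inr h)
    have hP1 : Disjoint (P.erase u) P' := by
      rw [disjoint_left]; intro x hx hx'
      exact (hin x (hP' hx')).1 hx
    have hP2 : Disjoint (P.erase u) N' := by
      rw [disjoint_left]; intro x hx hx'
      exact (hin x (hN' hx')).1 hx
    have hN1 : Disjoint (insert u N) P' := by
      rw [disjoint_left]; intro x hx hx'
      exact (hin x (hP' hx')).2 hx
    have hN2 : Disjoint (insert u N) N' := by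
      rw [disjoint_left]; intro x hx hx'
      exact (hin x (hN' hx')).2 hx
    have key := hM.hmax (P.erase u ∪ P') (insert u N ∪ N')
      (union_subset f1 (hP'.trans sdiff_subset)) (union_subset f2 (hN'.trans sdiff_subset))
      (by
        rw [disjoint_union_left, disjoint_union_right, disjoint_union_right]
        exact ⟨⟨f3, hP2⟩, hN1.symm, hd'⟩)
      (by
        rw [sum_union hP1, sum_union hN2]
        have h1 := add_mem hM.hs hs'
        have e1 : ∑ x ∈ P, x - ∑ x ∈ N, x + (∑ x ∈ P', x - ∑ x ∈ N', x - (u + u)) =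
          (∑ x ∈ P, x - ∑ x ∈ N, x - (u + u)) + (∑ x ∈ P', x - ∑ x ∈ N', x) := by abel
        rw [e1, ← f5] at h1
        have e2 : ∑ x ∈ P.erase u, x - ∑ x ∈ insert u N, x + (∑ x ∈ P', x - ∑ x ∈ N', x) =
          ∑ x ∈ P.erase u, x + ∑ x ∈ P', x - (∑ x ∈ insert u N, x + ∑ x ∈ N', x) := by abel
        rwa [e2] at h1)
    rw [card_union_of_disjoint hP1, card_union_of_disjoint hN2] at key
    constructor
    · rw [← card_eq_zero]; omega
    · rw [← card_eq_zero]; omega
  have huR : u + u ∉ R := by
    intro h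
    have := key {u + u} ∅ (singleton_subset_iff.2 h) (by simp) (by simp)
      (by simp [zero_mem])
    simp at this
  rw [← card_insert_of_notMem huR]
  apply le_dis_of_lift
  intro P' N' hP' hN' hd' hs'
  by_cases h1 : u + u ∈ P'
  · exfalso
    have hN'n : u + u ∉ N' := disjoint_left.1 hd' h1
    have hN'R : N' ⊆ R := by
      intro x hx
      have := hN' hx
      rw [mem_insert] at this
      rcases this with rfl | h
      · exact absurd hx hN'n
      · exact h
    have hPe : P'.erase (u + u) ⊆ R := by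
      intro x hx
      rw [mem_erase] at hx
      have := hP' hx.2
      rw [mem_insert] at this
      rcases this with h | h
      · exact absurd h hx.1
      · exact h
    have hsum : ∑ x ∈ P'.erase (u + u), x + (u + u) = ∑ x ∈ P', x := sum_erase_add _ _ h1
    have hk := key N' (P'.erase (u + u)) hN'R hPe
      (disjoint_of_subset_right (erase_subset _ _) hd'.symm) (by
        have h2 := neg_mem hs'
        have e1 : -(∑ x ∈ P', x - ∑ x ∈ N', x) =
          ∑ x ∈ N', x - ∑ x ∈ P'.erase (u + u), x - (u + u) := by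
          rw [← hsum]; abel
        rwa [e1] at h2)
    apply hu2
    rw [hk.1, ← hsum, hk.2] at hs'
    simpa using hs'
  · by_cases h2 : u + u ∈ N'
    · exfalso
      have hP'R : P' ⊆ R := by
        intro x hx
        have := hP' hx
        rw [mem_insert] at this
        rcases this with rfl | h
        · exact absurd hx h1
        · exact h
      have hNe : N'.erase (u + u) ⊆ R := by
        intro x hx
        rw [mem_erase] at hx
        have := hN' hx.2
        rw [mem_insert] at this
        rcases this with h | h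
        · exact absurd h hx.1
        · exact h
      have hsum : ∑ x ∈ N'.erase (u + u), x + (u + u) = ∑ x ∈ N', x := sum_erase_add _ _ h2
      have hk := key P' (N'.erase (u + u)) hP'R hNe
        (disjoint_of_subset_right (erase_subset _ _) hd') (by
          have e1 : ∑ x ∈ P', x - ∑ x ∈ N', x =
            ∑ x ∈ P', x - ∑ x ∈ N'.erase (u + u), x - (u + u) := by
            rw [← hsum]; abel
          rwa [e1] at hs')
      apply hu2
      rw [hk.1, ← hsum, hk.2] at hs'
      simp only [sum_empty, zero_add, zero_sub] at hs'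
      exact neg_mem_iff.1 hs'
    · have hP'R : P' ⊆ R := by
        intro x hx
        have := hP' hx
        rw [mem_insert] at this
        rcases this with rfl | h
        · exact absurd hx h1
        · exact h
      have hN'R : N' ⊆ R := by
        intro x hx
        have := hN' hx
        rw [mem_insert] at this
        rcases this with rfl | h
        · exact absurd hx h2
        · exact h
      exact hM.rest P' N' hP'R hN'R hd' hs'

/-- existence of a poor class that is a sum of three rich classes -/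
lemma exists_poor {K : AddSubgroup G} {T : Finset G} {m q : ℕ} (hTK : ∀ t ∈ T, t ∈ K)
    (cls : ∀ S : Finset G, (∀ s ∈ S, s ∈ K) → #(S.image (QuotientAddGroup.mk' (dbl K))) ≤ q)
    (big : m * q < #T)
    (aff : ∀ K₀ : AddSubgroup G, dbl K ≤ K₀ → K₀ < K → ∀ y ∈ K,
      m * q < #(T.filter (fun a => a - y ∉ K₀)))
    (hnot : ¬ ∀ v ∈ K, rich K T m v) :
    ∃ c ∈ K, ∃ c₁ ∈ K, ∃ c₂ ∈ K, rich K T m c ∧ rich K T m c₁ ∧ rich K T m c₂ ∧
      ¬ rich K T m (c + c₁ + c₂) := by
  by_contra hcon
  push Not at hcon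
  obtain ⟨c, hcT, hc⟩ := exists_rich hTK cls big
  have hcK := hTK c hcT
  let H₀ : AddSubgroup G :=
    { carrier := {v | v ∈ K ∧ rich K T m (v + c)}
      zero_mem' := ⟨zero_mem _, by simpa using hc⟩
      add_mem' := by
        rintro a b ⟨ha, ha'⟩ ⟨hb, hb'⟩
        refine ⟨add_mem ha hb, ?_⟩
        have h1 := hcon (a + c) (add_mem ha hcK) (b + c) (add_mem hb hcK) c hcK ha' hb' hc
        refine rich_congr ?_ h1
        have := add_self_mem_dbl hcK
        have e : a + c + (b + c) + c - (a + b + c) = c + c := by abel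
        rwa [e]
      neg_mem' := by
        rintro a ⟨ha, ha'⟩
        refine ⟨neg_mem ha, rich_congr ?_ ha'⟩
        have := add_self_mem_dbl ha
        have e : a + c - (-a + c) = a + a := by abel
        rwa [e] }
  have hH₀mem : ∀ v, v ∈ H₀ ↔ v ∈ K ∧ rich K T m (v + c) := fun v => Iff.rfl
  have hHK : H₀ ≤ K := fun x hx => ((hH₀mem x).1 hx).1
  have hdblH : dbl K ≤ H₀ := by
    intro x hx
    rw [hH₀mem]
    refine ⟨dbl_le K hx, rich_congr ?_ hc⟩
    have := neg_mem hx
    have e : c - (x + c) = -x := by abel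
    rwa [e]
  have hHeq : H₀ = K := by
    by_contra hne
    have hlt : H₀ < K := lt_of_le_of_ne hHK hne
    have h1 := aff H₀ hdblH hlt c hcK
    have hsub : T.filter (fun a => a - c ∉ H₀) ⊆ T.filter (fun t => ¬ rich K T m t) := by
      intro t ht
      rw [mem_filter] at ht ⊢
      refine ⟨ht.1, ?_⟩
      intro hr
      apply ht.2
      rw [hH₀mem]
      refine ⟨sub_mem (hTK t ht.1) hcK, ?_⟩
      rwa [sub_add_cancel]
    have h2 := card_le_card hsub
    have h3 := poor_card (m := m) hTK cls
    omega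
  apply hnot
  intro v hv
  have : v - c ∈ H₀ := by rw [hHeq]; exact sub_mem hv hcK
  have := ((hH₀mem _).1 this).2
  rwa [sub_add_cancel] at this

theorem caseB {K : AddSubgroup G} {A : Finset G} {κ m q : ℕ} (hκ : 0 < κ)
    (hs : Setup K A κ m q)
    {P N : Finset G} (hM : MaxSig K (A.filter (· ∉ K)) P N) {u : G} (hu : u ∈ P)
    (hu2 : u + u ∉ K) {e : ℕ} (he : #(A.filter (· ∈ K)) + (#P + #N) = κ + e) :
    #A ≤ eta K κ + dis (G ⧸ K) := by
  set T := A.filter (· ∈ K) with hT
  set S := A.filter (· ∉ K) with hS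
  have hTS : #T + #S = #A := card_filter_add_card_filter_not _
  have hTK : ∀ t ∈ T, t ∈ K := fun t ht => (mem_filter.1 ht).2
  have hSK : ∀ t ∈ S, t ∉ K := fun t ht => (mem_filter.1 ht).2
  have hrest := hM.card_rest
  have hdis := rest_lt hM hSK hu hu2
  have heta0 : κ - 1 ≤ eta K κ := eta_ge hκ (by have := hs.cardK; omega)
  rcases Nat.eq_zero_or_pos e with he0 | he0
  · omega
  have hem : e ≤ m := by
    have := hs.size
    omega
  have hPpos : 0 < #P := card_pos.2 ⟨u, hu⟩
  set w := ∑ x ∈ P, x - ∑ x ∈ N, x with hw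
  have hwK : w ∈ K := hM.hs
  have hTsK : ∑ x ∈ T, x ∈ K := sum_mem hTK
  have st : ∀ X ⊆ T, #X = e → ∑ x ∈ T, x - ∑ x ∈ X, x + w ∉ dbl K := by
    intro X hX hXc
    exact star hs.noSS hM.hP hM.hN hM.hd hX (by
      show #X + κ = #T + (#P + #N)
      omega)
  obtain ⟨c₀, hc₀T, hc₀⟩ := exists_rich hTK hs.cls hs.big
  have hc₀K := hTK c₀ hc₀T
  -- not all classes are rich
  have hnot : ¬ ∀ v ∈ K, rich K T m v := by
    intro hall
    rcases Nat.even_or_odd' e with ⟨l', hl' | hl'⟩
    · obtain ⟨l, rfl⟩ : ∃ l, l' = l + 1 := ⟨l' - 1, by omega⟩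
      obtain ⟨t₁, ht₁T, _, ht₁c⟩ := ext1 (X := ∅) hc₀ (by simp)
      have hr2 : rich K T m (∑ x ∈ T, x + w + c₀) := hall _ (add_mem (add_mem hTsK hwK) hc₀K)
      obtain ⟨t₂, ht₂T, ht₂X, ht₂c⟩ := ext1 (X := {t₁}) hr2 (by simp; omega)
      rw [mem_singleton] at ht₂X
      obtain ⟨X', hX'T, hX'c, hX's⟩ := ext2 hc₀K hc₀ l {t₁, t₂} (by
        intro x hx
        simp only [mem_insert, mem_singleton] at hx
        rcases hx with rfl | rfl
        · exact ht₁T
        · exact ht₂T) (by rw [card_pair (Ne.symm ht₂X)]; omega)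
      rw [card_pair (Ne.symm ht₂X)] at hX'c
      rw [sum_pair (Ne.symm ht₂X)] at hX's
      apply st X' hX'T (by omega)
      have h1 := neg_mem (add_mem (add_mem (add_mem hX's ht₁c) ht₂c) (add_self_mem_dbl hc₀K))
      have e1 : -(∑ x ∈ X', x - (t₁ + t₂) + (t₁ - c₀) + (t₂ - (∑ x ∈ T, x + w + c₀)) + (c₀ + c₀)) =
        ∑ x ∈ T, x - ∑ x ∈ X', x + w := by abel
      rwa [e1] at h1
    · obtain ⟨t, htT, _, htc⟩ := ext1 (X := ∅) (hall _ (add_mem hTsK hwK)) (by simp)
      obtain ⟨X', hX'T, hX'c, hX's⟩ := ext2 hc₀K hc₀ l' {t} (by simpa using htT)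
        (by rw [card_singleton]; omega)
      rw [card_singleton] at hX'c
      rw [sum_singleton] at hX's
      apply st X' hX'T (by omega)
      have h1 := neg_mem (add_mem hX's htc)
      have e1 : -(∑ x ∈ X', x - t + (t - (∑ x ∈ T, x + w))) =
        ∑ x ∈ T, x - ∑ x ∈ X', x + w := by abel
      rwa [e1] at h1
  obtain ⟨c, hcK, c₁, hc₁K, c₂, hc₂K, hc, hc₁, hc₂, hz⟩ :=
    exists_poor hTK hs.cls hs.big hs.aff hnot
  set z := c + c₁ + c₂ with hzdef
  have hzK : z ∈ K := add_mem (add_mem hcK hc₁K) hc₂K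
  -- X₀
  obtain ⟨X₀, hX₀T, hX₀c, hX₀p, hX₀s⟩ := exists_X0 hTK hs.cls hs.big hs.aff
    (w + c + (#P + #N - 1) • z)
    (add_mem (add_mem hwK hcK) (AddSubgroup.nsmul_mem _ hzK _)) 0
  -- Y
  obtain ⟨Y, hY, hYc⟩ := exists_subset_card_eq
    (s := (univ.filter (fun y => y - z ∈ dbl K)) \ T)
    (n := #P + #N - 1 + #X₀) (by
      have h1 : #(univ.filter (fun y => y - z ∈ dbl K)) ≤
          #((univ.filter (fun y => y - z ∈ dbl K)) \ T) +
            #(T.filter (fun t => t - z ∈ dbl K)) := by
        rw [← card_union_of_disjoint]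
        · apply card_le_card
          intro y hy
          rw [mem_union, mem_sdiff]
          by_cases hyT : y ∈ T
          · right; exact mem_filter.2 ⟨hyT, (mem_filter.1 hy).2⟩
          · left; exact ⟨hy, hyT⟩
        · rw [disjoint_left]
          intro y hy hy'
          exact (mem_sdiff.1 hy).2 (mem_filter.1 hy').1
      rw [coset_card] at h1
      have hroom : #S + 1 + q + m ≤ Nat.card (dbl K) := hs.room
      unfold rich at hz
      omega)
  have hYz : ∀ y ∈ Y, y - z ∈ dbl K := fun y hy => (mem_filter.1 (mem_sdiff.1 (hY hy)).1).2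
  have hYT : ∀ y ∈ Y, y ∉ T := fun y hy => (mem_sdiff.1 (hY hy)).2
  have hTYd : Disjoint (T \ X₀) Y := by
    rw [disjoint_left]
    intro x hx hx'
    exact hYT x hx' (mem_sdiff.1 hx).1
  have hX₀le := card_le_card hX₀T
  have hT2c : #((T \ X₀) ∪ Y) = κ + e - 1 := by
    rw [card_union_of_disjoint hTYd, card_sdiff_of_subset hX₀T, hYc]
    omega
  have heta : κ + e - 1 ≤ eta K κ := by
    rw [← hT2c]
    apply le_eta
    · intro t ht
      rw [mem_union] at ht
      rcases ht with h | h
      · exact hTK t (mem_sdiff.1 h).1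
      · have := add_mem (dbl_le K (hYz t h)) hzK
        rwa [sub_add_cancel] at this
    · intro B hB hBc hBs
      set BT := B.filter (· ∈ T) with hBT
      set BY := B.filter (· ∉ T) with hBY
      have hBsum : ∑ x ∈ BT, x + ∑ x ∈ BY, x = ∑ x ∈ B, x := sum_filter_add_sum_filter_not B _ _
      have hBcard : #BT + #BY = κ := by
        rw [← hBc]; exact card_filter_add_card_filter_not _
      have hBTsub : BT ⊆ T \ X₀ := by
        intro x hx
        rw [hBT, mem_filter] at hx
        have := hB hx.1
        rw [mem_union] at this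
        rcases this with h | h
        · exact h
        · exact absurd hx.2 (hYT x h)
      have hBYsub : BY ⊆ Y := by
        intro x hx
        rw [hBY, mem_filter] at hx
        have := hB hx.1
        rw [mem_union] at this
        rcases this with h | h
        · exact absurd (mem_sdiff.1 h).1 hx.2
        · exact h
      have hBYle := card_le_card hBYsub
      have hBYs : ∑ x ∈ BY, x - #BY • z ∈ dbl K :=
        sum_sub_card_smul (fun y hy => hYz y (hBYsub hy))
      set XP := (T \ X₀) \ BT with hXP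
      have hXPT : XP ⊆ T := sdiff_subset.trans sdiff_subset
      have hXPc : #XP + #BT + #X₀ = #T := by
        rw [hXP, card_sdiff_of_subset hBTsub, card_sdiff_of_subset hX₀T]
        have := card_le_card hBTsub
        rw [card_sdiff_of_subset hX₀T] at this
        omega
      have hXPs : ∑ x ∈ XP, x + ∑ x ∈ BT, x + ∑ x ∈ X₀, x = ∑ x ∈ T, x := by
        rw [hXP, sum_sdiff hBTsub, sum_sdiff hX₀T]
      obtain ⟨y', hy'⟩ : ∃ y', #BY + y' = #Y := ⟨#Y - #BY, by omega⟩
      have hXPc' : #XP + 1 + y' = e := by omega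
      -- congruence of the sum of XP
      have hzz : z + z ∈ dbl K := add_self_mem_dbl hzK
      have hmod : (#P + #N - 1) • z + #BY • z + y' • z ∈ dbl K := by
        rw [← add_smul, ← add_smul]
        apply nsmul_even_mem hzz
        omega
      -- ∑ XP ≡ ∑ T + w + c + y' z
      have hXPmod : ∑ x ∈ XP, x - (∑ x ∈ T, x + w + c + y' • z) ∈ dbl K := by
        have ha := add_self_mem_dbl (AddSubgroup.nsmul_mem K hzK #BY)
        have h1 := add_mem (sub_mem (sub_mem (sub_mem (sub_mem (add_mem (neg_mem hBs) hBYs) hX₀s)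
          (add_self_mem_dbl hwK)) (add_self_mem_dbl hcK)) hmod) ha
        rw [← hBsum] at h1
        rw [← hXPs]
        generalize (#P + #N - 1) • z = a1 at *
        generalize #BY • z = a2 at *
        generalize y' • z = a3 at *
        have e1 : -(∑ x ∈ BT, x + ∑ x ∈ BY, x) + (∑ x ∈ BY, x - a2) -
          (∑ x ∈ X₀, x - (w + c + a1)) - (w + w) - (c + c) - (a1 + a2 + a3) + (a2 + a2) =
          ∑ x ∈ XP, x - (∑ x ∈ XP, x + ∑ x ∈ BT, x + ∑ x ∈ X₀, x + w + c + a3) := by abel
        rwa [e1] at h1
      rcases Nat.even_or_odd' y' with ⟨l, hl | hl⟩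
      · obtain ⟨t, htT, htX, htc⟩ := ext1 (X := XP) hc (by omega)
        obtain ⟨X', hX'T, hX'c, hX's⟩ := ext2 hc₀K hc₀ l (insert t XP) (by
          intro x hx
          rw [mem_insert] at hx
          rcases hx with rfl | hx
          · exact htT
          · exact hXPT hx) (by rw [card_insert_of_notMem htX]; omega)
        rw [card_insert_of_notMem htX] at hX'c
        rw [sum_insert htX] at hX's
        apply st X' hX'T (by omega)
        have hyz : y' • z ∈ dbl K := nsmul_even_mem hzz (by omega)
        have h1 := sub_mem (sub_mem (sub_mem (sub_mem (neg_mem hX's) htc) hXPmod)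
          (add_self_mem_dbl hcK)) hyz
        generalize y' • z = a3 at *
        have e1 : -(∑ x ∈ X', x - (t + ∑ x ∈ XP, x)) - (t - c) -
          (∑ x ∈ XP, x - (∑ x ∈ T, x + w + c + a3)) - (c + c) - a3 =
          ∑ x ∈ T, x - ∑ x ∈ X', x + w := by abel
        rwa [e1] at h1
      · obtain ⟨t₁, ht₁T, ht₁X, ht₁c⟩ := ext1 (X := XP) hc₁ (by omega)
        obtain ⟨t₂, ht₂T, ht₂X, ht₂c⟩ := ext1 (X := insert t₁ XP) hc₂ (by
          rw [card_insert_of_notMem ht₁X]; omega)
        obtain ⟨X', hX'T, hX'c, hX's⟩ := ext2 hc₀K hc₀ l (insert t₂ (insert t₁ XP)) (by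
          intro x hx
          simp only [mem_insert] at hx
          rcases hx with rfl | rfl | hx
          · exact ht₂T
          · exact ht₁T
          · exact hXPT hx) (by
            rw [card_insert_of_notMem ht₂X, card_insert_of_notMem ht₁X]; omega)
        rw [card_insert_of_notMem ht₂X, card_insert_of_notMem ht₁X] at hX'c
        rw [sum_insert ht₂X, sum_insert ht₁X] at hX's
        apply st X' hX'T (by omega)
        have hyz : (y' + 1) • z ∈ dbl K := nsmul_even_mem hzz (by omega)
        rw [succ_nsmul] at hyz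
        have h1 := sub_mem (sub_mem (sub_mem (sub_mem (neg_mem hX's) ht₁c) ht₂c) hXPmod) hyz
        generalize y' • z = a3 at *
        have e1 : -(∑ x ∈ X', x - (t₂ + (t₁ + ∑ x ∈ XP, x))) - (t₁ - c₁) - (t₂ - c₂) -
          (∑ x ∈ XP, x - (∑ x ∈ T, x + w + c + a3)) - (a3 + z) =
          ∑ x ∈ T, x - ∑ x ∈ X', x + w := by rw [hzdef]; abel
        rwa [e1] at h1
  omega

end Pool.Agent.Lib.MP_8ac08c_co
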