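import Mathlib
import Pool.Agent.Lib.MP_8ac08c_co.CaseB

set_option linter.unusedSectionVars false
set_option linter.unusedVariables false

open Finset Classical

namespace Pool.Agent.Lib.MP_8ac08c_co

variable {G : Type*} [AddCommGroup G] [Fintype G]

theorem final {K : AddSubgroup G} {A : Finset G} {κ m q : ℕ} (hκ : 0 < κ)
    (hs : Setup K A κ m q) :
    ∃ K' : AddSubgroup G, κ ≤ Nat.card K' ∧ #A ≤ eta K' κ + dis (G ⧸ K') := by
  obtain ⟨P, N, hM⟩ := exists_maxSig K (A.filter (· ∉ K))
  set T := A.filter (· ∈ K) with hT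
  set S := A.filter (· ∉ K) with hS
  have hTS : #T + #S = #A := card_filter_add_card_filter_not _
  have hTK : ∀ t ∈ T, t ∈ K := fun t ht => (mem_filter.1 ht).2
  have hrest := hM.card_rest
  have hR : #(S \ (P ∪ N)) ≤ dis (G ⧸ K) := le_dis_of_lift hM.rest
  by_cases hlt : #T + (#P + #N) < κ
  · refine ⟨K, hs.cardK, ?_⟩
    have := eta_ge (K := K) hκ (by have := hs.cardK; omega)
    omega
  obtain ⟨e, he⟩ : ∃ e, #T + (#P + #N) = κ + e := ⟨#T + (#P + #N) - κ, by omega⟩
  rcases P.eq_empty_or_nonempty with hP | ⟨u, hu⟩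
  · rcases N.eq_empty_or_nonempty with hN | ⟨u, hu⟩
    · refine ⟨K, hs.cardK, ?_⟩
      have hTe : #T ≤ eta K κ := by
        apply le_eta hTK
        intro B hB hBc hBs
        apply hs.noSS
        refine ⟨B, ∅, hB.trans (filter_subset _ _), by simp, by simp, by simpa using hBc, ?_⟩
        simpa using hBs
      rw [hP, hN] at hrest
      rw [hP, hN] at hR
      simp only [card_empty] at hrest
      omega
    · by_cases hu2 : u + u ∈ K
      · exact caseA hs hM.swap hu hu2 (e := e) (by show #T + (#N + #P) = κ + e; omega)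
      · exact ⟨K, hs.cardK, caseB hκ hs hM.swap hu hu2 (e := e)
          (by show #T + (#N + #P) = κ + e; omega)⟩
  · by_cases hu2 : u + u ∈ K
    · exact caseA hs hM hu hu2 he
    · exact ⟨K, hs.cardK, caseB hκ hs hM hu hu2 he⟩

/-! ### counting classes -/

lemma two_torsion_card {h : ℕ} (hG : Nat.card G = h * AddMonoid.exponent G) :
    #(univ.filter (fun x : G => x + x = 0)) ≤ 2 * h := by
  set κ := AddMonoid.exponent G with hκ
  have hκ0 : 0 < κ := AddMonoid.exponent_pos.2 AddMonoid.ExponentExists.of_finite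
  obtain ⟨g, hg⟩ := AddMonoid.exists_addOrderOf_eq_exponent
    (AddMonoid.ExponentExists.of_finite (G := G))
  set n := (κ + 1) / 2 with hn
  have hinj : Set.InjOn (fun p : G × ℕ => p.1 + p.2 • g)
      ((univ.filter (fun x : G => x + x = 0) ×ˢ range n : Finset (G × ℕ)) : Set (G × ℕ)) := by
    rintro ⟨t, i⟩ hti ⟨t', i'⟩ hti' heq
    simp only [coe_product, Set.mem_prod, mem_coe, mem_filter, mem_univ, true_and,
      mem_range] at hti hti' heq
    have h2 : (2 * i) • g = (2 * i') • g := by
      have h3 : (t + i • g) + (t + i • g) = (t' + i' • g) + (t' + i' • g) := by rw [heq]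
      have h4 : t + i • g + (t + i • g) = (t + t) + (2 * i) • g := by
        rw [two_mul, add_smul]; abel
      have h5 : t' + i' • g + (t' + i' • g) = (t' + t') + (2 * i') • g := by
        rw [two_mul, add_smul]; abel
      rw [h4, h5, hti.1, hti'.1, zero_add, zero_add] at h3
      exact h3
    have h6 : 2 * i = 2 * i' := by
      apply nsmul_injOn_Iio_addOrderOf (x := g) _ _ h2
      · rw [Set.mem_Iio, hg]; omega
      · rw [Set.mem_Iio, hg]; omega
    have h7 : i = i' := by omega
    subst h7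
    have h8 : t = t' := add_right_cancel heq
    rw [h8]
  have hcard := card_le_card_of_injOn (s := univ.filter (fun x : G => x + x = 0) ×ˢ range n)
    (t := (univ : Finset G)) (fun p : G × ℕ => p.1 + p.2 • g) (fun _ _ => by simp) hinj
  rw [card_product, card_range, card_univ, ← Nat.card_eq_fintype_card, hG] at hcard
  set a := #(univ.filter (fun x : G => x + x = 0)) with ha
  have h1 : a * κ ≤ (2 * h) * κ := by
    calc a * κ ≤ a * (2 * n) := Nat.mul_le_mul_left _ (by omega)
      _ = 2 * (a * n) := by ring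
      _ ≤ 2 * (h * κ) := Nat.mul_le_mul_left _ hcard
      _ = _ := by ring
  exact Nat.le_of_mul_le_mul_right h1 hκ0

lemma card_filter_sub (K : AddSubgroup G) : #(univ.filter (fun x : G => x ∈ K)) = Nat.card K := by
  rw [Nat.card_eq_fintype_card, Fintype.card_subtype]

lemma card_le_dbl {h : ℕ} (hG : Nat.card G = h * AddMonoid.exponent G) (K : AddSubgroup G) :
    Nat.card K ≤ 2 * h * Nat.card (dbl K) := by
  rw [← card_filter_sub K, ← card_filter_sub (dbl K)]
  refine le_trans (card_le_mul_card_image (f := fun x => x + x) _ (2 * h) ?_) ?_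
  · intro a ha
    obtain ⟨y, hy, rfl⟩ := mem_image.1 ha
    refine le_trans ?_ (two_torsion_card hG)
    apply card_le_card_of_injOn (fun x => x - y)
    · intro x hx
      simp only [coe_filter, mem_filter, mem_univ, true_and, Set.mem_ofPred_eq] at hx ⊢
      have : x - y + (x - y) = (x + x) - (y + y) := by abel
      rw [this, hx.2, sub_self]
    · intro a _ b _ hab
      exact sub_left_injective hab
  · apply Nat.mul_le_mul_left
    apply card_le_card
    intro x hx
    obtain ⟨y, hy, rfl⟩ := mem_image.1 hx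
    rw [mem_filter] at hy ⊢
    exact ⟨mem_univ _, add_self_mem_dbl hy.2⟩

lemma cls_bound {h : ℕ} (hG : Nat.card G = h * AddMonoid.exponent G) (K : AddSubgroup G)
    (S : Finset G) (hS : ∀ s ∈ S, s ∈ K) :
    #(S.image (QuotientAddGroup.mk' (dbl K))) ≤ 2 * h := by
  have h1 : #(S.image (QuotientAddGroup.mk' (dbl K))) * Nat.card (dbl K) ≤ Nat.card K := by
    rw [← card_filter_sub K]
    set Kf := univ.filter (fun x : G => x ∈ K) with hKf
    have h2 : #(Kf.filter (fun x => QuotientAddGroup.mk' (dbl K) x ∈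
        S.image (QuotientAddGroup.mk' (dbl K)))) =
        ∑ b ∈ S.image (QuotientAddGroup.mk' (dbl K)),
          #((Kf.filter (fun x => QuotientAddGroup.mk' (dbl K) x ∈
        S.image (QuotientAddGroup.mk' (dbl K)))).filter
          (fun x => QuotientAddGroup.mk' (dbl K) x = b)) := by
      apply card_eq_sum_card_fiberwise
      intro x hx
      exact (mem_filter.1 hx).2
    have h3 : ∀ b ∈ S.image (QuotientAddGroup.mk' (dbl K)),
        #((Kf.filter (fun x => QuotientAddGroup.mk' (dbl K) x ∈
        S.image (QuotientAddGroup.mk' (dbl K)))).filter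
          (fun x => QuotientAddGroup.mk' (dbl K) x = b)) = Nat.card (dbl K) := by
      intro b hb
      obtain ⟨s, hs, rfl⟩ := mem_image.1 hb
      rw [← coset_card (dbl K) s]
      congr 1
      ext x
      simp only [mem_filter, mem_univ, true_and, hKf]
      constructor
      · rintro ⟨_, h⟩
        exact mk_eq_iff.1 h
      · intro h
        refine ⟨⟨?_, ?_⟩, mk_eq_iff.2 h⟩
        · have := add_mem (dbl_le K h) (hS s hs)
          rwa [sub_add_cancel] at this
        · rw [mk_eq_iff.2 h]
          exact hb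
    rw [sum_congr rfl h3, sum_const, smul_eq_mul] at h2
    rw [← h2]
    exact card_filter_le _ _
  have h2 := card_le_dbl hG K
  have h3 : 0 < Nat.card (dbl K) := Nat.card_pos
  exact Nat.le_of_mul_le_mul_right (h1.trans h2) h3

lemma dbl_eq_of_odd {κ : ℕ} (hκ : AddMonoid.exponent G = κ) (hodd : κ % 2 = 1)
    (K : AddSubgroup G) : dbl K = K := by
  apply le_antisymm (dbl_le K)
  intro x hx
  rw [mem_dbl]
  refine ⟨((κ + 1) / 2) • x, AddSubgroup.nsmul_mem _ hx _, ?_⟩
  rw [← add_smul]
  have : (κ + 1) / 2 + (κ + 1) / 2 = κ + 1 := by omega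
  rw [this, add_smul, one_smul, ← hκ, AddMonoid.exponent_nsmul_eq_zero, zero_add]

lemma pairs {K : AddSubgroup G} {T : Finset G} {q : ℕ} (hTK : ∀ t ∈ T, t ∈ K)
    (cls : ∀ S : Finset G, (∀ s ∈ S, s ∈ K) → #(S.image (QuotientAddGroup.mk' (dbl K))) ≤ q)
    (l : ℕ) : 2 * l + q ≤ #T → ∃ B ⊆ T, #B = 2 * l ∧ ∑ x ∈ B, x ∈ dbl K := by
  induction l with
  | zero => intro _; exact ⟨∅, by simp, by simp, by simp [zero_mem]⟩
  | succ l ih =>
    intro hl
    obtain ⟨B, hB, hBc, hBs⟩ := ih (by omega)
    have h1 : #((T \ B).image (QuotientAddGroup.mk' (dbl K))) < #(T \ B) := by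
      have h2 := cls (T \ B) (fun s hs => hTK s (mem_sdiff.1 hs).1)
      rw [card_sdiff_of_subset hB]
      omega
    obtain ⟨x, hx, y, hy, hxy, hf⟩ := exists_ne_map_eq_of_card_lt_of_maps_to h1
      (f := QuotientAddGroup.mk' (dbl K)) (fun a ha => mem_image_of_mem _ ha)
    rw [mem_sdiff] at hx hy
    have hxB : x ∉ insert y B := by
      rw [mem_insert]
      rintro (h | h)
      · exact hxy h
      · exact hx.2 h
    refine ⟨insert x (insert y B), ?_, ?_, ?_⟩
    · intro z hz
      simp only [mem_insert] at hz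
      rcases hz with rfl | rfl | hz
      · exact hx.1
      · exact hy.1
      · exact hB hz
    · rw [card_insert_of_notMem hxB, card_insert_of_notMem hy.2]; omega
    · rw [sum_insert hxB, sum_insert hy.2]
      have h2 := mk_eq_iff.1 hf
      have h3 := add_mem (add_mem h2 (add_self_mem_dbl (hTK y hy.1))) hBs
      have e : x - y + (y + y) + ∑ x ∈ B, x = x + (y + ∑ x ∈ B, x) := by abel
      rwa [e] at h3

lemma eta_lt {h κ : ℕ} (hκ : AddMonoid.exponent G = κ) (hG : Nat.card G = h * κ) (hh : 0 < h)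
    (K : AddSubgroup G) : eta K κ < κ + 2 * h := by
  subst hκ
  set κ := AddMonoid.exponent G with hκdef
  have hκ0 : 0 < κ := AddMonoid.exponent_pos.2 AddMonoid.ExponentExists.of_finite
  obtain ⟨T, hTK, hTB, hTc⟩ := exists_eta K hκ0
  by_contra hcon
  rcases Nat.mod_two_eq_zero_or_one κ with hpar | hpar
  · obtain ⟨B, hB, hBc, hBs⟩ := pairs (q := 2 * h) hTK (cls_bound hG K) (κ / 2) (by omega)
    exact hTB B hB (by omega) hBs
  · obtain ⟨B, hB, hBc⟩ := exists_subset_card_eq (s := T) (n := κ) (by omega)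
    apply hTB B hB hBc
    rw [dbl_eq_of_odd hκdef.symm hpar]
    exact sum_mem (fun x hx => hTK x (hB hx))

lemma dis_le {h κ : ℕ} (hG : Nat.card G = h * κ) (hκ : 0 < κ) (K : AddSubgroup G)
    (hK : κ ≤ Nat.card K) : dis (G ⧸ K) ≤ h := by
  let _ : Fintype (G ⧸ K) := Fintype.ofFinite _
  obtain ⟨D, _, hDc⟩ := exists_dis (G := G ⧸ K)
  rw [← hDc]
  have h1 : #D ≤ Fintype.card (G ⧸ K) := card_le_univ _
  have h2 : Fintype.card (G ⧸ K) = K.index := by
    rw [AddSubgroup.index, Nat.card_eq_fintype_card]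
  have h3 := K.index_mul_card
  have h4 : K.index * κ ≤ h * κ := by
    rw [← hG, ← h3]
    exact Nat.mul_le_mul_left _ hK
  have h5 := Nat.le_of_mul_le_mul_right h4 hκ
  omega

end Pool.Agent.Lib.MP_8ac08c_co
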