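import Mathlib

set_option linter.unusedSectionVars false
set_option linter.unusedVariables false

open Finset
open scoped Pointwise

namespace Pool.Agent.Lib.MP_8ac08c_co

variable {Γ : Type*} [AddCommGroup Γ] [Fintype Γ] [DecidableEq Γ]

/-- number of `b` in `B` with `b + d` in `B` -/
def rep (B : Finset Γ) (d : Γ) : ℕ := #{b ∈ B | b + d ∈ B}

lemma sum_rep (B : Finset Γ) : ∑ d, rep B d = #B * #B := by
  unfold rep
  simp_rw [card_filter]
  rw [sum_comm]
  have : ∀ b ∈ B, (∑ d : Γ, if b + d ∈ B then 1 else 0) = #B := by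
    intro b _
    rw [← card_filter]
    apply card_bij (fun d _ => b + d)
    · intro d hd
      simpa using hd
    · intro d₁ _ d₂ _ h
      exact add_left_cancel h
    · intro c hc
      exact ⟨c - b, by simpa using hc, by simp⟩
  rw [sum_congr rfl this]
  simp

/-- popular differences -/
def pop (B : Finset Γ) (k : ℕ) : Finset Γ := {d | #B ≤ 2 * k * rep B d}

lemma mem_pop (B : Finset Γ) (k : ℕ) (d : Γ) : d ∈ pop B k ↔ #B ≤ 2 * k * rep B d := by
  simp [pop]

lemma rep_le (B : Finset Γ) (d : Γ) : rep B d ≤ #B := card_filter_le _ _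

lemma card_pop (B : Finset Γ) (k : ℕ) (h1 : Fintype.card Γ ≤ k * #B) :
    #B ≤ 2 * #(pop B k) := by
  classical
  by_cases hB : #B = 0
  · omega
  have hk : 0 < k := by
    rcases Nat.eq_zero_or_pos k with hk | hk
    · subst hk
      have := Fintype.card_pos (α := Γ)
      omega
    · exact hk
  have hs := sum_rep B
  rw [← sum_filter_add_sum_filter_not univ (fun d => d ∈ pop B k)] at hs
  have e1 : ∑ d ∈ univ.filter (fun d => d ∈ pop B k), rep B d ≤ #(pop B k) * #B := by
    have : univ.filter (fun d => d ∈ pop B k) = pop B k := by ext; simp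
    rw [this]
    calc ∑ d ∈ pop B k, rep B d ≤ ∑ _d ∈ pop B k, #B := sum_le_sum (fun d _ => rep_le B d)
      _ = #(pop B k) * #B := by simp
  have e2 : 2 * k * ∑ d ∈ univ.filter (fun d => ¬ d ∈ pop B k), rep B d ≤ k * #B * #B := by
    rw [mul_sum]
    calc ∑ d ∈ univ.filter (fun d => ¬ d ∈ pop B k), 2 * k * rep B d
        ≤ ∑ _d ∈ univ.filter (fun d => ¬ d ∈ pop B k), #B := by
          apply sum_le_sum
          intro d hd
          rw [mem_filter, mem_pop] at hd
          omega
      _ = #(univ.filter (fun d => ¬ d ∈ pop B k)) * #B := by simp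
      _ ≤ Fintype.card Γ * #B := Nat.mul_le_mul_right _ (card_le_univ _)
      _ ≤ k * #B * #B := Nat.mul_le_mul_right _ h1
  have e3 : k * #B * #B ≤ k * #B * (2 * #(pop B k)) := by
    have : 2 * k * (#B * #B) = 2 * k * (∑ d ∈ univ.filter (fun d => d ∈ pop B k), rep B d)
        + 2 * k * ∑ d ∈ univ.filter (fun d => ¬ d ∈ pop B k), rep B d := by
      rw [← hs]; ring
    have h4 : 2 * k * (∑ d ∈ univ.filter (fun d => d ∈ pop B k), rep B d)
        ≤ 2 * k * (#(pop B k) * #B) := Nat.mul_le_mul_left _ e1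
    nlinarith
  exact Nat.le_of_mul_le_mul_left e3 (Nat.mul_pos hk (Nat.pos_of_ne_zero hB))

lemma rep_neg (B : Finset Γ) (d : Γ) : rep B (-d) = rep B d := by
  unfold rep
  apply card_bij (fun b _ => b + -d)
  · intro b hb
    rw [mem_filter] at hb ⊢
    exact ⟨hb.2, by simpa using hb.1⟩
  · intro a _ b _ h
    exact add_right_cancel h
  · intro b hb
    rw [mem_filter] at hb
    refine ⟨b + d, ?_, by simp⟩
    rw [mem_filter]
    exact ⟨hb.2, by simpa using hb.1⟩

lemma neg_mem_pop {B : Finset Γ} {k : ℕ} {d : Γ} (h : d ∈ pop B k) : -d ∈ pop B k := by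
  rw [mem_pop] at h ⊢
  rwa [rep_neg]

lemma zero_mem_pop {B : Finset Γ} {k : ℕ} (hk : 0 < k) : (0 : Γ) ∈ pop B k := by
  rw [mem_pop]
  have : rep B 0 = #B := by simp [rep]
  rw [this]
  nlinarith [Nat.zero_le (#B)]

/-- balls in the Cayley graph -/
def ball (D : Finset Γ) : ℕ → Finset Γ
  | 0 => {0}
  | n + 1 => ball D n + D

lemma ball_succ (D : Finset Γ) (n : ℕ) : ball D (n + 1) = ball D n + D := rfl

lemma ball_mono_succ {D : Finset Γ} (h0 : (0 : Γ) ∈ D) (n : ℕ) : ball D n ⊆ ball D (n + 1) := by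
  intro x hx
  rw [ball_succ, mem_add]
  exact ⟨x, hx, 0, h0, by simp⟩

lemma ball_mono {D : Finset Γ} (h0 : (0 : Γ) ∈ D) {m n : ℕ} (h : m ≤ n) : ball D m ⊆ ball D n := by
  induction h with
  | refl => exact Subset.refl _
  | step _ ih => exact ih.trans (ball_mono_succ h0 _)

lemma zero_mem_ball {D : Finset Γ} (h0 : (0 : Γ) ∈ D) (n : ℕ) : (0 : Γ) ∈ ball D n :=
  ball_mono h0 (Nat.zero_le n) (by simp [ball])

lemma ball_sub_closure (D : Finset Γ) (n : ℕ) :
    ∀ x ∈ ball D n, x ∈ AddSubgroup.closure (D : Set Γ) := by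
  induction n with
  | zero =>
    intro x hx
    simp only [ball, mem_singleton] at hx
    rw [hx]; exact zero_mem _
  | succ n ih =>
    intro x hx
    rw [ball_succ, mem_add] at hx
    obtain ⟨y, hy, d, hd, rfl⟩ := hx
    exact add_mem (ih y hy) (AddSubgroup.subset_closure hd)

lemma closure_sub_of_stable {D S : Finset Γ} (hneg : ∀ d ∈ D, -d ∈ D) (h0 : (0 : Γ) ∈ S)
    (hS : ∀ s ∈ S, ∀ d ∈ D, s + d ∈ S) : ∀ x ∈ AddSubgroup.closure (D : Set Γ), x ∈ S := by
  intro x hx
  have key : ∀ s ∈ S, s + x ∈ S := by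
    induction hx using AddSubgroup.closure_induction with
    | mem d hd => exact fun s hs => hS s hs d hd
    | zero => intro s hs; simpa using hs
    | add a b _ _ ha hb =>
      intro s hs
      rw [← add_assoc]
      exact hb _ (ha s hs)
    | neg a _ ha =>
      -- translation by a is injective from S to S hence surjective
      intro s hs
      have hinj : Set.MapsTo (fun t => t + a) (S : Set Γ) (S : Set Γ) := fun t ht => ha t ht
      have hsurj : Set.SurjOn (fun t => t + a) (S : Set Γ) (S : Set Γ) := by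
        apply Finset.surjOn_of_injOn_of_card_le (fun t => t + a) hinj
        · intro p _ q _ h
          exact add_right_cancel h
        · exact le_rfl
      obtain ⟨t, ht, hta⟩ := hsurj hs
      have : s + -a = t := by rw [← hta]; simp
      rw [this]; exact ht
  simpa using key 0 h0

lemma ball_card {D : Finset Γ} (hneg : ∀ d ∈ D, -d ∈ D) (h0 : (0 : Γ) ∈ D) (n : ℕ) :
    (∀ x ∈ AddSubgroup.closure (D : Set Γ), x ∈ ball D (3 * n + 1)) ∨
      (n + 1) * #D ≤ #(ball D (3 * n + 1)) := by
  induction n with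
  | zero =>
    right
    simp [ball]
  | succ n ih =>
    by_cases hall : ∀ x ∈ AddSubgroup.closure (D : Set Γ), x ∈ ball D (3 * (n + 1) + 1)
    · exact Or.inl hall
    right
    rcases ih with ih | ih
    · exact absurd (fun x hx => ball_mono h0 (by omega) (ih x hx)) hall
    have hex : ∃ y ∈ ball D (3 * n + 3), y ∉ ball D (3 * n + 2) := by
      by_contra hcon
      push Not at hcon
      apply hall
      intro x hx
      apply ball_mono h0 (show 3 * n + 2 ≤ 3 * (n + 1) + 1 by omega)
      apply closure_sub_of_stable hneg (zero_mem_ball h0 _) _ x hx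
      intro s hs d hd
      apply hcon
      rw [show 3 * n + 3 = (3 * n + 2) + 1 by omega, ball_succ, mem_add]
      exact ⟨s, hs, d, hd, rfl⟩
    obtain ⟨y, hy, hy'⟩ := hex
    have hsub : ball D (3 * n + 1) ∪ (D.image (fun d => y + d)) ⊆ ball D (3 * (n + 1) + 1) := by
      apply union_subset
      · exact ball_mono h0 (by omega)
      · intro z hz
        rw [mem_image] at hz
        obtain ⟨d, hd, rfl⟩ := hz
        rw [show 3 * (n + 1) + 1 = (3 * n + 3) + 1 by omega, ball_succ, mem_add]
        exact ⟨y, hy, d, hd, rfl⟩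
    have hdisj : Disjoint (ball D (3 * n + 1)) (D.image (fun d => y + d)) := by
      rw [disjoint_left]
      intro z hz hz'
      rw [mem_image] at hz'
      obtain ⟨d, hd, rfl⟩ := hz'
      apply hy'
      rw [show 3 * n + 2 = (3 * n + 1) + 1 by omega, ball_succ, mem_add]
      exact ⟨y + d, hz, -d, hneg d hd, by simp⟩
    have hcard := card_le_card hsub
    rw [card_union_of_disjoint hdisj, card_image_of_injective _ (add_right_injective y)] at hcard
    calc (n + 1 + 1) * #D = (n + 1) * #D + #D := by ring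
      _ ≤ #(ball D (3 * n + 1)) + #D := by omega
      _ ≤ _ := hcard

/-- `bd S z` = number of `s ∈ S` with `s + z ∉ S`. -/
def bd (S : Finset Γ) (z : Γ) : ℕ := #{s ∈ S | s + z ∉ S}

lemma bd_add (S : Finset Γ) (z d : Γ) : bd S (z + d) ≤ bd S z + bd S d := by
  unfold bd
  have h1 : #{s ∈ S | s + z ∈ S ∧ s + z + d ∉ S} ≤ #{s ∈ S | s + d ∉ S} := by
    apply card_le_card_of_injOn (fun s => s + z)
    · intro s hs
      simp only [coe_filter, Set.mem_ofPred_eq] at hs ⊢
      exact hs.2
    · intro a _ b _ h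
      exact add_right_cancel h
  have h2 : ({s ∈ S | s + (z + d) ∉ S} : Finset Γ) ⊆
      {s ∈ S | s + z ∉ S} ∪ {s ∈ S | s + z ∈ S ∧ s + z + d ∉ S} := by
    intro s hs
    simp only [mem_filter, mem_union] at hs ⊢
    by_cases h : s + z ∈ S
    · right; exact ⟨hs.1, h, by rw [add_assoc]; exact hs.2⟩
    · left; exact ⟨hs.1, h⟩
  calc _ ≤ _ := card_le_card h2
    _ ≤ _ := card_union_le _ _
    _ ≤ _ := by omega

lemma bd_ball {D S : Finset Γ} {c : ℕ} {k : ℕ} (h : ∀ d ∈ D, k * bd S d ≤ c) (n : ℕ) :
    ∀ z ∈ ball D n, k * bd S z ≤ n * c := by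
  induction n with
  | zero =>
    intro z hz
    simp only [ball, mem_singleton] at hz
    subst hz
    simp [bd]
  | succ n ih =>
    intro z hz
    rw [ball_succ, mem_add] at hz
    obtain ⟨y, hy, d, hd, rfl⟩ := hz
    calc k * bd S (y + d) ≤ k * (bd S y + bd S d) := Nat.mul_le_mul_left _ (bd_add S y d)
      _ = k * bd S y + k * bd S d := by ring
      _ ≤ n * c + c := by
        have := ih y hy
        have := h d hd
        omega
      _ = (n + 1) * c := by ring


lemma growth {D S : Finset Γ} {J : ℕ} (hJ : ∀ x ∈ AddSubgroup.closure (D : Set Γ), x ∈ ball D J)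
    (hJ0 : 0 < J) (hne : S.Nonempty)
    (hS : 2 * #S ≤ Nat.card (AddSubgroup.closure (D : Set Γ))) :
    ∃ d ∈ D, #S ≤ 2 * J * bd S d := by
  classical
  by_contra hcon
  push Not at hcon
  have hS0 : 0 < #S := hne.card_pos
  set Lf : Finset Γ := univ.filter (fun x => x ∈ AddSubgroup.closure (D : Set Γ)) with hLf
  have hLcard : Nat.card (AddSubgroup.closure (D : Set Γ)) = #Lf := by
    rw [hLf, Nat.card_eq_fintype_card, Fintype.card_subtype]
  rw [hLcard] at hS
  have h1 : ∀ z ∈ Lf, 2 * bd S z ≤ #S - 1 := by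
    intro z hz
    have hz' := hJ z (by simpa [hLf] using hz)
    have h := bd_ball (D := D) (S := S) (c := #S - 1) (k := 2 * J)
      (fun d hd => by have := hcon d hd; omega) J z hz'
    have h' : J * (2 * bd S z) ≤ J * (#S - 1) := by
      calc J * (2 * bd S z) = 2 * J * bd S z := by ring
        _ ≤ _ := h
    exact Nat.le_of_mul_le_mul_left h' hJ0
  have h2 : ∑ z ∈ Lf, bd S z + ∑ z ∈ Lf, #{s ∈ S | s + z ∈ S} = #Lf * #S := by
    rw [← sum_add_distrib]
    have : ∀ z ∈ Lf, bd S z + #{s ∈ S | s + z ∈ S} = #S := by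
      intro z _
      unfold bd
      rw [add_comm]
      exact card_filter_add_card_filter_not (fun s => s + z ∈ S)
    rw [sum_congr rfl this]; simp
  have h3 : ∑ z ∈ Lf, #{s ∈ S | s + z ∈ S} ≤ #S * #S := by
    simp_rw [card_filter]
    rw [sum_comm]
    calc ∑ s ∈ S, ∑ z ∈ Lf, (if s + z ∈ S then 1 else 0) ≤ ∑ _s ∈ S, #S := by
          apply sum_le_sum
          intro s _
          rw [← card_filter]
          apply card_le_card_of_injOn (fun z => s + z)
          · intro z hz
            simp only [coe_filter, Set.mem_ofPred_eq] at hz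
            exact hz.2
          · intro a _ b _ h
            exact add_left_cancel h
      _ = #S * #S := by simp
  have h4 : 2 * ∑ z ∈ Lf, bd S z ≤ #Lf * (#S - 1) := by
    rw [mul_sum]
    calc ∑ z ∈ Lf, 2 * bd S z ≤ ∑ _z ∈ Lf, (#S - 1) := sum_le_sum h1
      _ = _ := by simp
  obtain ⟨m, hm⟩ : ∃ m, #S = m + 1 := ⟨#S - 1, by omega⟩
  rw [hm] at h2 h3 h4 hS
  simp only [Nat.add_sub_cancel] at h4
  nlinarith

lemma build {B : Finset Γ} {k J : ℕ}
    (hJ : ∀ x ∈ AddSubgroup.closure (pop B k : Set Γ), x ∈ ball (pop B k) J)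
    (hJ0 : 0 < J) (F : Finset Γ) (n : ℕ)
    (hrep : ∀ d ∈ pop B k, 2 * (#F + 2 * n) < rep B d) :
    ∃ (P : Finset Γ) (c : Γ) (S : Finset Γ), P ⊆ B ∧ Disjoint P F ∧ #P ≤ 2 * n ∧
      (∀ s ∈ S, s ∈ AddSubgroup.closure (pop B k : Set Γ)) ∧ S.Nonempty ∧
      (∀ s ∈ S, ∃ N ⊆ P, ∑ x ∈ N, x = c + s) ∧
      ((2 * J + 1) ^ n ≤ #S * (2 * J) ^ n ∨
        Nat.card (AddSubgroup.closure (pop B k : Set Γ)) < 2 * #S) := by
  induction n with
  | zero =>
    refine ⟨∅, 0, {0}, by simp, by simp, by simp, ?_, by simp, ?_, ?_⟩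
    · intro s hs
      simp only [mem_singleton] at hs
      rw [hs]; exact zero_mem _
    · intro s hs
      rw [mem_singleton] at hs
      exact ⟨∅, by simp, by simp [hs]⟩
    · left; simp
  | succ n ih =>
    obtain ⟨P, c, S, hPB, hPF, hPc, hSL, hSne, hrepS, hcase⟩ :=
      ih (fun d hd => by have := hrep d hd; omega)
    by_cases hbig : Nat.card (AddSubgroup.closure (pop B k : Set Γ)) < 2 * #S
    · exact ⟨P, c, S, hPB, hPF, by omega, hSL, hSne, hrepS, Or.inr hbig⟩
    have hcase' : (2 * J + 1) ^ n ≤ #S * (2 * J) ^ n := by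
      rcases hcase with h | h
      · exact h
      · exact absurd h hbig
    obtain ⟨d, hd, hgr⟩ := growth hJ hJ0 hSne (by omega)
    -- find a fresh pair
    have hfresh : ∃ b ∈ B, b + d ∈ B ∧ b ∉ F ∪ P ∧ b + d ∉ F ∪ P := by
      by_contra hcon
      push Not at hcon
      have hsub : ({b ∈ B | b + d ∈ B} : Finset Γ) ⊆
          (F ∪ P) ∪ (F ∪ P).image (fun x => x - d) := by
        intro b hb
        rw [mem_filter] at hb
        by_cases hbF : b ∈ F ∪ P
        · exact mem_union_left _ hbF
        · apply mem_union_right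
          rw [mem_image]
          exact ⟨b + d, hcon b hb.1 hb.2 hbF, by simp⟩
      have h1 := card_le_card hsub
      have h2 : #((F ∪ P) ∪ (F ∪ P).image (fun x => x - d)) ≤ #(F ∪ P) + #(F ∪ P) :=
        (card_union_le _ _).trans (Nat.add_le_add_left card_image_le _)
      have h3 : #(F ∪ P) ≤ #F + #P := card_union_le _ _
      have h4 := hrep d hd
      unfold rep at h4
      omega
    obtain ⟨b, hbB, hbdB, hb1, hb2⟩ := hfresh
    have hd0 : d ≠ 0 := by
      rintro rfl
      have : bd S 0 = 0 := by simp [bd]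
      rw [this] at hgr
      have := hSne.card_pos
      omega
    have hbne : b ≠ b + d := by
      intro h
      apply hd0
      simpa using h.symm
    rw [notMem_union] at hb1 hb2
    refine ⟨insert b (insert (b + d) P), c + b, S ∪ S.image (fun s => s + d), ?_, ?_, ?_, ?_, ?_,
      ?_, ?_⟩
    · intro x hx
      simp only [mem_insert] at hx
      rcases hx with rfl | rfl | hx
      · exact hbB
      · exact hbdB
      · exact hPB hx
    · rw [disjoint_left] at hPF ⊢
      intro x hx
      simp only [mem_insert] at hx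
      rcases hx with rfl | rfl | hx
      · exact hb1.1
      · exact hb2.1
      · exact hPF hx
    · calc _ ≤ #P + 1 + 1 := (card_insert_le _ _).trans (Nat.add_le_add_right (card_insert_le _ _) 1)
        _ ≤ _ := by omega
    · intro s hs
      simp only [mem_union, mem_image] at hs
      rcases hs with hs | ⟨t, ht, rfl⟩
      · exact hSL s hs
      · exact add_mem (hSL t ht) (AddSubgroup.subset_closure hd)
    · exact hSne.mono subset_union_left
    · intro s hs
      simp only [mem_union, mem_image] at hs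
      rcases hs with hs | ⟨t, ht, rfl⟩
      · obtain ⟨N, hN, hNs⟩ := hrepS s hs
        refine ⟨insert b N, ?_, ?_⟩
        · intro x hx
          simp only [mem_insert] at hx ⊢
          rcases hx with rfl | hx
          · left; rfl
          · right; right; exact hN hx
        · rw [sum_insert (fun h => hb1.2 (hN h)), hNs]; abel
      · obtain ⟨N, hN, hNs⟩ := hrepS t ht
        refine ⟨insert (b + d) N, ?_, ?_⟩
        · intro x hx
          simp only [mem_insert] at hx ⊢
          rcases hx with rfl | hx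
          · right; left; rfl
          · right; right; exact hN hx
        · rw [sum_insert (fun h => hb2.2 (hN h)), hNs]; abel
    · left
      have hcard : #(S ∪ S.image (fun s => s + d)) = #S + bd S d := by
        have : S ∪ S.image (fun s => s + d) =
            S ∪ ({s ∈ S | s + d ∉ S} : Finset Γ).image (fun s => s + d) := by
          ext x
          simp only [mem_union, mem_image, mem_filter]
          constructor
          · rintro (h | ⟨t, ht, rfl⟩)
            · left; exact h
            · by_cases h : t + d ∈ S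
              · left; exact h
              · right; exact ⟨t, ⟨ht, h⟩, rfl⟩
          · rintro (h | ⟨t, ⟨ht, h⟩, rfl⟩)
            · left; exact h
            · right; exact ⟨t, ht, rfl⟩
        rw [this, card_union_of_disjoint]
        · rw [card_image_of_injective _ (add_left_injective d)]
          rfl
        · rw [disjoint_left]
          intro x hx hx'
          simp only [mem_image, mem_filter] at hx'
          obtain ⟨t, ⟨_, h⟩, rfl⟩ := hx'
          exact h hx
      rw [hcard]
      calc (2 * J + 1) ^ (n + 1) = (2 * J + 1) ^ n * (2 * J + 1) := pow_succ _ _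
        _ ≤ #S * (2 * J) ^ n * (2 * J + 1) := Nat.mul_le_mul_right _ hcase'
        _ = (2 * J * #S + #S) * (2 * J) ^ n := by ring
        _ ≤ (2 * J * #S + 2 * J * bd S d) * (2 * J) ^ n :=
            Nat.mul_le_mul_right _ (Nat.add_le_add_left hgr _)
        _ = (#S + bd S d) * (2 * J) ^ (n + 1) := by ring

lemma bern (a m : ℕ) : a ^ m * (a + m) ≤ a * (a + 1) ^ m := by
  induction m with
  | zero => simp
  | succ m ih =>
    calc a ^ (m + 1) * (a + (m + 1)) = a ^ m * (a * (a + (m + 1))) := by ring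
      _ ≤ a ^ m * ((a + 1) * (a + m)) := by
          apply Nat.mul_le_mul_left
          nlinarith
      _ = (a + 1) * (a ^ m * (a + m)) := by ring
      _ ≤ (a + 1) * (a * (a + 1) ^ m) := Nat.mul_le_mul_left _ ih
      _ = a * (a + 1) ^ (m + 1) := by ring

lemma bern2 (a : ℕ) (ha : 0 < a) : 2 * a ^ a ≤ (a + 1) ^ a := by
  have h := bern a a
  have h' : a * (2 * a ^ a) ≤ a * (a + 1) ^ a := by
    calc a * (2 * a ^ a) = a ^ a * (a + a) := by ring
      _ ≤ _ := h
  exact Nat.le_of_mul_le_mul_left h' ha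

lemma bern3 (a l : ℕ) (ha : 0 < a) : 2 ^ l * a ^ (a * l) ≤ (a + 1) ^ (a * l) := by
  rw [pow_mul, pow_mul, ← mul_pow]
  exact Nat.pow_le_pow_left (bern2 a ha) l

lemma half {B : Finset Γ} {k J l : ℕ}
    (hJ : ∀ x ∈ AddSubgroup.closure (pop B k : Set Γ), x ∈ ball (pop B k) J)
    (hJ0 : 0 < J) (F : Finset Γ) (hl : Fintype.card Γ ≤ 2 ^ l)
    (hrep : ∀ d ∈ pop B k, 2 * (#F + 2 * (2 * J * l)) < rep B d) :
    ∃ (P : Finset Γ) (c : Γ) (S : Finset Γ), P ⊆ B ∧ Disjoint P F ∧ #P ≤ 2 * (2 * J * l) ∧
      (∀ s ∈ S, s ∈ AddSubgroup.closure (pop B k : Set Γ)) ∧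
      (∀ s ∈ S, ∃ N ⊆ P, ∑ x ∈ N, x = c + s) ∧
        Nat.card (AddSubgroup.closure (pop B k : Set Γ)) < 2 * #S := by
  obtain ⟨P, c, S, h1, h2, h3, h4, h5, h6, h7⟩ := build hJ hJ0 F (2 * J * l) hrep
  refine ⟨P, c, S, h1, h2, h3, h4, h6, ?_⟩
  rcases h7 with h7 | h7
  · have h8 := bern3 (2 * J) l (by omega)
    have h9 : (2 : ℕ) ^ l ≤ #S := by
      have : 2 ^ l * (2 * J) ^ (2 * J * l) ≤ #S * (2 * J) ^ (2 * J * l) := h8.trans h7
      exact Nat.le_of_mul_le_mul_right this (Nat.pow_pos (by omega))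
    have h10 : Nat.card (AddSubgroup.closure (pop B k : Set Γ)) ≤ Fintype.card Γ := by
      rw [← Nat.card_eq_fintype_card]
      exact Nat.card_le_card_of_injective _ Subtype.val_injective
    have := h5.card_pos
    omega
  · exact h7

open Classical in
lemma reps (L : AddSubgroup Γ) (B : Finset Γ) (q : ℕ) (hq0 : 0 < q) (hq : L.index ≤ q)
    (hB : ∀ H : AddSubgroup Γ, H ≠ ⊤ → q ≤ #(B.filter (fun x => x ∉ H))) :
    ∃ R ⊆ B, #R ≤ q ∧ ∀ w, ∃ N ⊆ R, w - ∑ x ∈ N, x ∈ L := by
  classical
  let img : Finset Γ → Finset (Γ ⧸ L) := fun R =>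
    R.powerset.image (fun N => ((∑ x ∈ N, x : Γ) : Γ ⧸ L))
  have hmono : ∀ R, img R ⊆ univ := fun R => subset_univ _
  have key : ∀ n, n < q → ∃ R ⊆ B, #R ≤ n ∧ (img R = univ ∨ n + 1 ≤ #(img R)) := by
    intro n
    induction n with
    | zero =>
      intro _
      refine ⟨∅, by simp, by simp, Or.inr ?_⟩
      simp [img]
    | succ n ih =>
      intro hn
      obtain ⟨R, hRB, hRc, hR⟩ := ih (by omega)
      by_cases hall : img R = univ
      · exact ⟨R, hRB, by omega, Or.inl hall⟩
      have hR' : n + 1 ≤ #(img R) := by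
        rcases hR with h | h
        · exact absurd h hall
        · exact h
      let H : AddSubgroup Γ := (AddAction.stabilizer (Γ ⧸ L) (img R)).comap (QuotientAddGroup.mk' L)
      have hH : H ≠ ⊤ := by
        intro htop
        apply hall
        have hne : (img R).Nonempty := by
          rw [← card_pos]; omega
        obtain ⟨q₀, hq₀⟩ := hne
        rw [eq_univ_iff_forall]
        intro q₁
        obtain ⟨g, hg⟩ := QuotientAddGroup.mk'_surjective L (q₁ - q₀)
        have hgH : g ∈ H := by rw [htop]; exact AddSubgroup.mem_top _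
        have h1 : (QuotientAddGroup.mk' L g) +ᵥ (img R) = img R := by
          have := AddSubgroup.mem_comap.1 hgH
          exact AddAction.mem_stabilizer_iff.1 this
        rw [← h1, mem_vadd_finset]
        refine ⟨q₀, hq₀, ?_⟩
        rw [hg, vadd_eq_add]
        abel
      have hcnt := hB H hH
      have hex : ∃ b ∈ B, b ∉ H ∧ b ∉ R := by
        by_contra hcon
        push Not at hcon
        have : B.filter (fun x => x ∉ H) ⊆ R := by
          intro x hx
          rw [mem_filter] at hx
          exact hcon x hx.1 hx.2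
        have := card_le_card this
        omega
      obtain ⟨b, hbB, hbH, hbR⟩ := hex
      refine ⟨insert b R, ?_, ?_, Or.inr ?_⟩
      · intro x hx
        rw [mem_insert] at hx
        rcases hx with rfl | hx
        · exact hbB
        · exact hRB hx
      · rw [card_insert_of_notMem hbR]; omega
      · have h1 : img R ⊆ img (insert b R) := by
          apply image_subset_image
          exact powerset_mono.2 (subset_insert _ _)
        have h2 : (((b : Γ) : Γ ⧸ L)) +ᵥ (img R) ⊆ img (insert b R) := by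
          intro x hx
          rw [mem_vadd_finset] at hx
          obtain ⟨y, hy, rfl⟩ := hx
          rw [mem_image] at hy
          obtain ⟨N, hN, rfl⟩ := hy
          rw [mem_powerset] at hN
          rw [mem_image]
          refine ⟨insert b N, ?_, ?_⟩
          · rw [mem_powerset]
            exact insert_subset_insert _ hN
          · rw [sum_insert (fun h => hbR (hN h))]
            rfl
        have h3 : ¬ ((((b : Γ) : Γ ⧸ L)) +ᵥ (img R) ⊆ img R) := by
          intro hsub
          apply hbH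
          show b ∈ AddSubgroup.comap _ _
          rw [AddSubgroup.mem_comap, AddAction.mem_stabilizer_iff]
          apply eq_of_subset_of_card_le hsub
          rw [card_vadd_finset]
        rw [not_subset] at h3
        obtain ⟨x, hx, hx'⟩ := h3
        have h4 : insert x (img R) ⊆ img (insert b R) := by
          intro y hy
          rw [mem_insert] at hy
          rcases hy with rfl | hy
          · exact h2 hx
          · exact h1 hy
        have h5 := card_le_card h4
        rw [card_insert_of_notMem hx'] at h5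
        omega
  obtain ⟨R, hRB, hRc, hR⟩ := key (q - 1) (by omega)
  have hfull : img R = univ := by
    rcases hR with h | h
    · exact h
    · apply eq_univ_of_card
      have hidx : Fintype.card (Γ ⧸ L) = L.index := by
        rw [AddSubgroup.index, Nat.card_eq_fintype_card]
      have := card_le_univ (img R)
      omega
  refine ⟨R, hRB, by omega, ?_⟩
  intro w
  have hw : ((w : Γ) : Γ ⧸ L) ∈ img R := by rw [hfull]; exact mem_univ _
  rw [mem_image] at hw
  obtain ⟨N, hN, hNw⟩ := hw
  rw [mem_powerset] at hN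
  refine ⟨N, hN, ?_⟩
  have := QuotientAddGroup.eq.1 hNw
  rwa [neg_add_eq_sub] at this

open Classical in
/-- The covering lemma. -/
theorem cover (B : Finset Γ) (k l : ℕ) (hk : 0 < k) (h1 : Fintype.card Γ ≤ k * #B)
    (hl : Fintype.card Γ ≤ 2 ^ l)
    (hM : ∀ H : AddSubgroup Γ, H ≠ ⊤ → 2 * k ≤ #(B.filter (fun x => x ∉ H)))
    (hbig : 8 * k * (k + 4 * (6 * k + 1) * l) < #B) :
    ∀ w : Γ, ∃ N ⊆ B, ∑ x ∈ N, x = w := by
  classical
  set D := pop B k with hD
  set J := 6 * k + 1 with hJdef
  have hcard := card_pop B k h1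
  have h0 : (0 : Γ) ∈ D := zero_mem_pop hk
  have hneg : ∀ d ∈ D, -d ∈ D := fun d hd => neg_mem_pop hd
  have hJ : ∀ x ∈ AddSubgroup.closure (D : Set Γ), x ∈ ball D J := by
    rcases ball_card hneg h0 (2 * k) with h | h
    · rw [hJdef, show 6 * k + 1 = 3 * (2 * k) + 1 by ring]; exact h
    · exfalso
      have h2 : #(ball D (3 * (2 * k) + 1)) ≤ Fintype.card Γ := card_le_univ _
      have h3 : (2 * k + 1) * #D ≤ k * #B := h.trans (h2.trans h1)
      have h4 : k * #B ≤ k * (2 * #D) := Nat.mul_le_mul_left _ hcard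
      have h5 : 0 < #D := card_pos.2 ⟨0, h0⟩
      nlinarith
  have hrep : ∀ d ∈ D, 4 * (k + 4 * (6 * k + 1) * l) < rep B d := by
    intro d hd
    rw [hD, mem_pop] at hd
    have : 2 * k * (4 * (k + 4 * (6 * k + 1) * l)) < 2 * k * rep B d := by
      calc 2 * k * (4 * (k + 4 * (6 * k + 1) * l)) = 8 * k * (k + 4 * (6 * k + 1) * l) := by ring
        _ < #B := hbig
        _ ≤ _ := hd
    exact lt_of_mul_lt_mul_left this (Nat.zero_le _)
  have hidx : (AddSubgroup.closure (D : Set Γ)).index ≤ 2 * k := by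
    have h2 := (AddSubgroup.closure (D : Set Γ)).index_mul_card
    have h3 : #D ≤ Nat.card (AddSubgroup.closure (D : Set Γ)) := by
      have : Nat.card (D : Set Γ) ≤ Nat.card (AddSubgroup.closure (D : Set Γ)) :=
        Nat.card_le_card_of_injective (Set.inclusion AddSubgroup.subset_closure)
          (Set.inclusion_injective _)
      simpa using this
    rw [Nat.card_eq_fintype_card (α := Γ)] at h2
    have h5 : 0 < #D := card_pos.2 ⟨0, h0⟩
    have h6 : (AddSubgroup.closure (D : Set Γ)).index * #D ≤ 2 * k * #D := by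
      calc _ ≤ (AddSubgroup.closure (D : Set Γ)).index *
            Nat.card (AddSubgroup.closure (D : Set Γ)) := Nat.mul_le_mul_left _ h3
        _ = Fintype.card Γ := h2
        _ ≤ k * #B := h1
        _ ≤ k * (2 * #D) := Nat.mul_le_mul_left _ hcard
        _ = _ := by ring
    exact Nat.le_of_mul_le_mul_right h6 h5
  obtain ⟨R, hRB, hRc, hR⟩ := reps (AddSubgroup.closure (D : Set Γ)) B (2 * k) (by omega) hidx hM
  obtain ⟨P₁, c₁, S₁, hP₁B, hP₁R, hP₁c, hS₁L, hS₁, hS₁h⟩ := half (l := l) hJ (by omega) R hl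
    (fun d hd => by
      have := hrep d hd
      have e : 2 * (2 * J * l) = 4 * (6 * k + 1) * l := by rw [hJdef]; ring
      omega)
  obtain ⟨P₂, c₂, S₂, hP₂B, hP₂R, hP₂c, hS₂L, hS₂, hS₂h⟩ := half (l := l) hJ (by omega) (R ∪ P₁) hl
    (fun d hd => by
      have := hrep d hd
      have e : 2 * (2 * J * l) = 4 * (6 * k + 1) * l := by rw [hJdef]; ring
      have := card_union_le R P₁
      omega)
  intro w
  obtain ⟨N₀, hN₀, hw⟩ := hR (w - c₁ - c₂)
  set z := w - c₁ - c₂ - ∑ x ∈ N₀, x with hz
  -- pigeonhole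
  have hint : ∃ s₁ ∈ S₁, ∃ s₂ ∈ S₂, s₁ + s₂ = z := by
    by_contra hcon
    push Not at hcon
    have hdisj : Disjoint S₁ (S₂.image (fun s => z - s)) := by
      rw [disjoint_left]
      intro x hx hx'
      rw [mem_image] at hx'
      obtain ⟨s, hs, rfl⟩ := hx'
      exact hcon _ hx s hs (by abel)
    have hsub : S₁ ∪ S₂.image (fun s => z - s) ⊆
        univ.filter (fun x => x ∈ AddSubgroup.closure (D : Set Γ)) := by
      intro x hx
      rw [mem_filter]
      refine ⟨mem_univ _, ?_⟩
      rw [mem_union, mem_image] at hx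
      rcases hx with hx | ⟨s, hs, rfl⟩
      · exact hS₁L x hx
      · exact sub_mem hw (hS₂L s hs)
    have hc := card_le_card hsub
    rw [card_union_of_disjoint hdisj, card_image_of_injective _ sub_right_injective] at hc
    have hLcard : Nat.card (AddSubgroup.closure (D : Set Γ)) =
        #(univ.filter (fun x => x ∈ AddSubgroup.closure (D : Set Γ))) := by
      rw [Nat.card_eq_fintype_card, Fintype.card_subtype]
    rw [← hD] at hS₁h hS₂h
    omega
  obtain ⟨s₁, hs₁, s₂, hs₂, hs⟩ := hint
  obtain ⟨N₁, hN₁, hN₁s⟩ := hS₁ s₁ hs₁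
  obtain ⟨N₂, hN₂, hN₂s⟩ := hS₂ s₂ hs₂
  have hd1 : Disjoint N₀ N₁ := by
    rw [disjoint_left] at hP₁R ⊢
    intro x hx hx'
    exact hP₁R (hN₁ hx') (hN₀ hx)
  have hd2 : Disjoint (N₀ ∪ N₁) N₂ := by
    rw [disjoint_left] at hP₂R ⊢
    intro x hx hx'
    apply hP₂R (hN₂ hx')
    rw [mem_union] at hx ⊢
    rcases hx with hx | hx
    · left; exact hN₀ hx
    · right; exact hN₁ hx
  refine ⟨N₀ ∪ N₁ ∪ N₂, ?_, ?_⟩
  · apply union_subset (union_subset (hN₀.trans hRB) (hN₁.trans hP₁B)) (hN₂.trans hP₂B)
  · rw [sum_union hd2, sum_union hd1, hN₁s, hN₂s]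
    have : s₂ = z - s₁ := by rw [← hs]; abel
    rw [this, hz]
    abel

end Pool.Agent.Lib.MP_8ac08c_co
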