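import Mathlib
import Pool.Agent.Lib.MP_8ac08c_co.Classes
import Pool.Agent.Lib.MP_8ac08c_co.Cover

set_option linter.unusedSectionVars false
set_option linter.unusedVariables false

open Finset Classical

namespace Pool.Agent.Lib.MP_8ac08c_co

variable {G : Type*} [AddCommGroup G] [Fintype G]

/-! ### numeric facts -/

lemma pow_bound (L : ℕ) (hL : 11 ≤ L) : 12 * (L + 1) ^ 2 < 2 ^ L := by
  induction L, hL using Nat.le_induction with
  | base => norm_num
  | succ n hn ih =>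
    have : (2 : ℕ) ^ (n + 1) = 2 * 2 ^ n := by ring
    nlinarith

lemma num1 {h κ : ℕ} (hh : 0 < h) (hb : 10 ^ 6 * h ^ 4 ≤ κ) :
    64 * h ^ 2 + 256 * h * (12 * h + 1) * (Nat.log 2 κ + 1) < κ := by
  set L := Nat.log 2 κ with hL
  have hκ : 10 ^ 6 ≤ κ := by
    have : 1 ≤ h ^ 4 := Nat.one_le_pow _ _ hh
    nlinarith
  have h1 : 2 ^ L ≤ κ := Nat.pow_log_le_self 2 (by omega)
  have hL11 : 11 ≤ L := by
    rw [hL]
    apply Nat.le_log_of_pow_le (by norm_num)
    norm_num
    omega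
  have h2 := pow_bound L hL11
  set a := 3392 * h ^ 2 * (L + 1) with ha
  have h3 : 64 * h ^ 2 + 256 * h * (12 * h + 1) * (L + 1) ≤ a := by
    have h4 : 256 * h * (12 * h + 1) ≤ 3328 * h ^ 2 := by nlinarith
    have h5 : 256 * h * (12 * h + 1) * (L + 1) ≤ 3328 * h ^ 2 * (L + 1) :=
      Nat.mul_le_mul_right _ h4
    have h6 : 64 * h ^ 2 ≤ 64 * h ^ 2 * (L + 1) := Nat.le_mul_of_pos_right _ (by omega)
    calc _ ≤ 64 * h ^ 2 * (L + 1) + 3328 * h ^ 2 * (L + 1) := by omega
      _ = a := by rw [ha]; ring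
  have h7 : a * a < κ * κ := by
    have h8 : a * a = 3392 ^ 2 * (h ^ 4 * (L + 1) ^ 2) := by rw [ha]; ring
    have h9 : 10 ^ 6 * (a * a) < 10 ^ 6 * (κ * κ) := by
      calc 10 ^ 6 * (a * a) = 3392 ^ 2 * (L + 1) ^ 2 * (10 ^ 6 * h ^ 4) := by rw [h8]; ring
        _ ≤ 3392 ^ 2 * (L + 1) ^ 2 * κ := Nat.mul_le_mul_left _ hb
        _ ≤ 10 ^ 6 * (12 * (L + 1) ^ 2) * κ := by
            apply Nat.mul_le_mul_right
            have : 0 ≤ (L + 1) ^ 2 := Nat.zero_le _
            nlinarith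
        _ < 10 ^ 6 * κ * κ := by
            apply Nat.mul_lt_mul_of_pos_right _ (by omega)
            apply Nat.mul_lt_mul_of_pos_left _ (by norm_num)
            omega
        _ = _ := by ring
    exact lt_of_mul_lt_mul_left h9 (Nat.zero_le _)
  have h10 : a < κ := by
    by_contra hcon
    push Not at hcon
    have := Nat.mul_le_mul hcon hcon
    omega
  omega

lemma num2 {h κ : ℕ} (hh : 0 < h) (hb : 10 ^ 6 * h ^ 4 ≤ κ) :
    100 * h ^ 4 + 100 * h ^ 3 + 100 * h ^ 2 + 100 * h + 100 ≤ κ := by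
  have h1 : h ≤ h ^ 4 := Nat.le_self_pow (by norm_num) h
  have h2 : h ^ 2 ≤ h ^ 4 := Nat.pow_le_pow_right hh (by norm_num)
  have h3 : h ^ 3 ≤ h ^ 4 := Nat.pow_le_pow_right hh (by norm_num)
  have h4 : 1 ≤ h ^ 4 := Nat.one_le_pow _ _ hh
  omega

lemma index_two_mul {K L : AddSubgroup G} (h : L < K) : 2 * K.index ≤ L.index := by
  have h1 := AddSubgroup.relIndex_mul_index h.le
  have h2 : L.relIndex K ≠ 1 := by
    intro h3
    rw [AddSubgroup.relIndex_eq_one] at h3
    exact absurd (le_antisymm h.le h3) h.ne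
  have h3 : L.relIndex K ≠ 0 := by
    intro h4
    rw [h4, zero_mul] at h1
    exact AddSubgroup.index_ne_zero_of_finite h1.symm
  rw [← h1]
  apply Nat.mul_le_mul_right
  omega

lemma card_lt_of_lt {K L : AddSubgroup G} (h : L < K) : Nat.card L < Nat.card K := by
  rw [← card_filter_sub, ← card_filter_sub]
  apply card_lt_card
  rw [ssubset_iff_of_subset]
  · obtain ⟨x, hx, hx'⟩ := SetLike.exists_of_lt h
    exact ⟨x, by simpa using hx, by simpa using hx'⟩
  · intro x hx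
    rw [mem_filter] at hx ⊢
    exact ⟨hx.1, h.le hx.2⟩


lemma cover_sub (K : AddSubgroup G) (B : Finset G) (hB : ∀ b ∈ B, b ∈ K) (k l : ℕ) (hk : 0 < k)
    (h1 : Nat.card K ≤ k * #B) (hl : Nat.card K ≤ 2 ^ l)
    (hM : ∀ L : AddSubgroup G, L < K → 2 * k ≤ #(B.filter (· ∉ L)))
    (hbig : 8 * k * (k + 4 * (6 * k + 1) * l) < #B) :
    ∀ w ∈ K, ∃ N ⊆ B, ∑ x ∈ N, x = w := by
  intro w hw
  have hcB : #(B.subtype (· ∈ K)) = #B := by
    rw [card_subtype, filter_true_of_mem hB]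
  have key := cover (Γ := K) (B.subtype (· ∈ K)) k l hk (by
      rw [hcB, ← Nat.card_eq_fintype_card]; exact h1) (by
      rw [← Nat.card_eq_fintype_card]; exact hl) (by
      intro H hH
      have hlt : H.map K.subtype < K := by
        apply lt_of_le_of_ne
        · intro x hx
          obtain ⟨y, _, rfl⟩ := AddSubgroup.mem_map.1 hx
          exact y.2
        · intro heq
          apply hH
          rw [eq_top_iff]
          intro x _
          have : (x : G) ∈ H.map K.subtype := by rw [heq]; exact x.2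
          obtain ⟨y, hy, hyx⟩ := AddSubgroup.mem_map.1 this
          have : y = x := Subtype.ext hyx
          rwa [← this]
      refine (hM _ hlt).trans ?_
      have hsub : B.filter (· ∉ H.map K.subtype) ⊆
          ((B.subtype (· ∈ K)).filter (fun x => x ∉ H)).image (fun x : K => (x : G)) := by
        intro b hb
        rw [mem_filter] at hb
        rw [mem_image]
        refine ⟨⟨b, hB b hb.1⟩, ?_, rfl⟩
        rw [mem_filter, mem_subtype]
        refine ⟨hb.1, ?_⟩
        intro hbH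
        apply hb.2
        exact AddSubgroup.mem_map.2 ⟨_, hbH, rfl⟩
      exact (card_le_card hsub).trans card_image_le) (by rw [hcB]; exact hbig) ⟨w, hw⟩
  obtain ⟨N, hN, hNs⟩ := key
  refine ⟨N.image (fun x : K => (x : G)), ?_, ?_⟩
  · intro x hx
    obtain ⟨y, hy, rfl⟩ := mem_image.1 hx
    have := hN hy
    rwa [mem_subtype] at this
  · rw [sum_image (fun a _ b _ h => Subtype.ext h)]
    have h2 := congrArg K.subtype hNs
    rw [map_sum] at h2
    exact h2

lemma noSS_step {A : Finset G} {κ h : ℕ} (hh : 0 < h) (hb : 10 ^ 6 * h ^ 4 ≤ κ)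
    (hG : Nat.card G = h * κ) (hA : ¬ SS A κ ⊥) (hA2 : #A ≤ κ + 3 * h) {K : AddSubgroup G}
    (hrob : ∀ L : AddSubgroup G, L < K → 7 * h ^ 2 ≤ #((A.filter (· ∈ K)).filter (· ∉ L)))
    (hbig : κ ≤ #(A.filter (· ∈ K)) + 14 * h ^ 3) : ¬ SS A κ (dbl K) := by
  rintro ⟨P, N, hP, hN, hd, hc, hs⟩
  apply hA
  have n2 := num2 hh hb
  have n1 := num1 hh hb
  set B := (P ∪ N).filter (· ∈ K) with hB
  have hBA : B ⊆ A.filter (· ∈ K) := by
    intro x hx
    rw [hB, mem_filter] at hx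
    rw [mem_filter]
    exact ⟨union_subset hP hN hx.1, hx.2⟩
  have hmiss : #(A.filter (· ∈ K) \ B) ≤ 3 * h := by
    have h1 : A.filter (· ∈ K) \ B ⊆ A \ (P ∪ N) := by
      intro x hx
      rw [mem_sdiff, mem_filter, hB, mem_filter] at hx
      rw [mem_sdiff]
      exact ⟨hx.1.1, fun h => hx.2 ⟨h, hx.1.2⟩⟩
    have h2 := card_le_card h1
    rw [card_sdiff_of_subset (union_subset hP hN), card_union_of_disjoint hd, hc] at h2
    omega
  have hBc : #(A.filter (· ∈ K)) ≤ #B + 3 * h := by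
    have := card_sdiff_add_card_inter (A.filter (· ∈ K)) B
    have h3 : #(A.filter (· ∈ K) ∩ B) ≤ #B := card_le_card inter_subset_right
    omega
  have hBK : ∀ b ∈ B, b ∈ K := fun b hb => (mem_filter.1 hb).2
  have hB2 : κ ≤ 2 * #B := by
    have : 28 * h ^ 3 + 6 * h ≤ κ := by omega
    omega
  have hcardK : Nat.card K ≤ h * κ := by
    rw [← hG]; exact Nat.card_le_card_of_injective _ Subtype.val_injective
  set L := Nat.log 2 κ with hL
  have hκL : κ < 2 ^ (L + 1) := Nat.lt_pow_succ_log_self (by norm_num) κ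
  have hhκ : h ≤ κ := by omega
  have hcov := cover_sub K B hBK (2 * h) (2 * (L + 1)) (by omega)
    (by
      calc Nat.card K ≤ h * κ := hcardK
        _ ≤ h * (2 * #B) := Nat.mul_le_mul_left _ hB2
        _ = 2 * h * #B := by ring)
    (by
      calc Nat.card K ≤ h * κ := hcardK
        _ ≤ κ * κ := Nat.mul_le_mul_right _ hhκ
        _ ≤ 2 ^ (L + 1) * 2 ^ (L + 1) := Nat.mul_le_mul hκL.le hκL.le
        _ = 2 ^ (2 * (L + 1)) := by rw [← pow_add]; congr 1; ring)
    (by
      intro L' hL'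
      have h1 := hrob L' hL'
      have h2 : (A.filter (· ∈ K)).filter (· ∉ L') ⊆ B.filter (· ∉ L') ∪ (A.filter (· ∈ K) \ B) := by
        intro x hx
        rw [mem_filter] at hx
        rw [mem_union, mem_filter, mem_sdiff]
        by_cases hxB : x ∈ B
        · left; exact ⟨hxB, hx.2⟩
        · right; exact ⟨hx.1, hxB⟩
      have h3 := (card_le_card h2).trans (card_union_le _ _)
      have h4 : h ≤ h ^ 2 := Nat.le_self_pow (by norm_num) h
      omega)
    (by
      have h1 : 2 * (8 * (2 * h) * (2 * h + 4 * (6 * (2 * h) + 1) * (2 * (L + 1)))) =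
        64 * h ^ 2 + 256 * h * (12 * h + 1) * (L + 1) := by ring
      omega)
  obtain ⟨k₀, hk₀, hk₀s⟩ := mem_dbl.1 hs
  set P₁ := P.filter (· ∈ K) with hP₁
  set N₁ := N.filter (· ∈ K) with hN₁
  set P₂ := P.filter (· ∉ K) with hP₂
  set N₂ := N.filter (· ∉ K) with hN₂
  have hPs : ∑ x ∈ P₁, x + ∑ x ∈ P₂, x = ∑ x ∈ P, x := sum_filter_add_sum_filter_not P _ _
  have hNs : ∑ x ∈ N₁, x + ∑ x ∈ N₂, x = ∑ x ∈ N, x := sum_filter_add_sum_filter_not N _ _
  have hPc : #P₁ + #P₂ = #P := card_filter_add_card_filter_not _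
  have hNc : #N₁ + #N₂ = #N := card_filter_add_card_filter_not _
  have hBeq : B = P₁ ∪ N₁ := by rw [hB, filter_union]
  have hd₁ : Disjoint P₁ N₁ := disjoint_filter_filter hd
  have hd₂ : Disjoint P₂ N₂ := disjoint_filter_filter hd
  have hBs : ∑ x ∈ B, x = ∑ x ∈ P₁, x + ∑ x ∈ N₁, x := by rw [hBeq, sum_union hd₁]
  have hBc' : #B = #P₁ + #N₁ := by rw [hBeq, card_union_of_disjoint hd₁]
  obtain ⟨N', hN'B, hN's⟩ := hcov (∑ x ∈ N₁, x + k₀)
    (add_mem (sum_mem (fun x hx => (mem_filter.1 hx).2)) hk₀)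
  have hP₂K : ∀ x ∈ P₂, x ∉ K := fun x hx => (mem_filter.1 hx).2
  have hN₂K : ∀ x ∈ N₂, x ∉ K := fun x hx => (mem_filter.1 hx).2
  have e1 : Disjoint P₂ (B \ N') := by
    rw [disjoint_left]; intro x hx hx'
    exact hP₂K x hx (hBK x (mem_sdiff.1 hx').1)
  have e2 : Disjoint N₂ N' := by
    rw [disjoint_left]; intro x hx hx'
    exact hN₂K x hx (hBK x (hN'B hx'))
  have e3 : Disjoint P₂ N' := by
    rw [disjoint_left]; intro x hx hx'
    exact hP₂K x hx (hBK x (hN'B hx'))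
  have e4 : Disjoint (B \ N') N₂ := by
    rw [disjoint_left]; intro x hx hx'
    exact hN₂K x hx' (hBK x (mem_sdiff.1 hx).1)
  have hBAA : B ⊆ A := hBA.trans (filter_subset _ _)
  refine ⟨P₂ ∪ (B \ N'), N₂ ∪ N', ?_, ?_, ?_, ?_, ?_⟩
  · exact union_subset ((filter_subset _ _).trans hP) (sdiff_subset.trans hBAA)
  · exact union_subset ((filter_subset _ _).trans hN) (hN'B.trans hBAA)
  · rw [disjoint_union_left, disjoint_union_right, disjoint_union_right]
    exact ⟨⟨hd₂, e3⟩, e4, sdiff_disjoint⟩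
  · rw [card_union_of_disjoint e1, card_union_of_disjoint e2, card_sdiff_of_subset hN'B]
    have := card_le_card hN'B
    omega
  · rw [AddSubgroup.mem_bot, sum_union e1, sum_union e2]
    have h5 : ∑ x ∈ B \ N', x + ∑ x ∈ N', x = ∑ x ∈ B, x := sum_sdiff hN'B
    have h6 : ∑ x ∈ B \ N', x = ∑ x ∈ P₁, x + ∑ x ∈ N₁, x - (∑ x ∈ N₁, x + k₀) := by
      rw [← hN's, ← hBs, ← h5]; abel
    rw [h6, hN's]
    have h7 : ∑ x ∈ P₁, x + ∑ x ∈ P₂, x - (∑ x ∈ N₁, x + ∑ x ∈ N₂, x) = k₀ + k₀ := by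
      rw [hPs, hNs]; exact hk₀s
    have h8 : ∑ x ∈ P₂, x + (∑ x ∈ P₁, x + ∑ x ∈ N₁, x - (∑ x ∈ N₁, x + k₀)) -
      (∑ x ∈ N₂, x + (∑ x ∈ N₁, x + k₀)) =
      ∑ x ∈ P₁, x + ∑ x ∈ P₂, x - (∑ x ∈ N₁, x + ∑ x ∈ N₂, x) - (k₀ + k₀) := by abel
    rw [h8, h7, sub_self]


lemma exists_step1 {A : Finset G} {κ h : ℕ} (hh : 0 < h) (hb : 10 ^ 6 * h ^ 4 ≤ κ)
    (hG : Nat.card G = h * κ) (hA : ¬ SS A κ ⊥) (hA1 : κ ≤ #A) (hA2 : #A ≤ κ + 3 * h) :
    ∃ K : AddSubgroup G, K.index ≤ 2 * h ∧ #(A.filter (· ∉ K)) ≤ 7 * h ^ 2 * K.index ∧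
      ¬ SS A κ (dbl K) := by
  have n2 := num2 hh hb
  have hκ0 : 0 < κ := by omega
  let F : Set (AddSubgroup G) := {K | K.index ≤ 2 * h ∧ #(A.filter (· ∉ K)) ≤ 7 * h ^ 2 * K.index}
  have hne : F.Nonempty := by
    refine ⟨⊤, ?_, ?_⟩
    · rw [AddSubgroup.index_top]; omega
    · have : A.filter (· ∉ (⊤ : AddSubgroup G)) = ∅ := by
        apply filter_false_of_mem
        intro x _ hx
        exact hx (AddSubgroup.mem_top x)
      rw [this, card_empty]; exact Nat.zero_le _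
  obtain ⟨K, hKF, hmin⟩ := Set.exists_min_image F (fun K => Nat.card K) (Set.toFinite F) hne
  have hKF1 : K.index ≤ 2 * h := hKF.1
  have hKF2 : #(A.filter (· ∉ K)) ≤ 7 * h ^ 2 * K.index := hKF.2
  have hsplit : #(A.filter (· ∈ K)) + #(A.filter (· ∉ K)) = #A := card_filter_add_card_filter_not _
  have hout : #(A.filter (· ∉ K)) ≤ 14 * h ^ 3 := by
    calc _ ≤ 7 * h ^ 2 * K.index := hKF2
      _ ≤ 7 * h ^ 2 * (2 * h) := Nat.mul_le_mul_left _ hKF1
      _ = 14 * h ^ 3 := by ring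
  have hidx0 : 0 < K.index := Nat.pos_of_ne_zero AddSubgroup.index_ne_zero_of_finite
  refine ⟨K, hKF1, hKF2, noSS_step hh hb hG hA hA2 ?_ (by omega)⟩
  intro L hL
  by_cases hLi : L.index ≤ 2 * h
  · have hLF : ¬ (#(A.filter (· ∉ L)) ≤ 7 * h ^ 2 * L.index) := by
      intro hcon
      have h1 := hmin L ⟨hLi, hcon⟩
      have h2 := card_lt_of_lt hL
      omega
    have h3 := index_two_mul hL
    have h4 : 7 * h ^ 2 * (2 * K.index) ≤ 7 * h ^ 2 * L.index := Nat.mul_le_mul_left _ h3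
    have h5 : A.filter (· ∉ L) ⊆ A.filter (· ∉ K) ∪ (A.filter (· ∈ K)).filter (· ∉ L) := by
      intro x hx
      rw [mem_filter] at hx
      rw [mem_union, mem_filter, mem_filter, mem_filter]
      by_cases hxK : x ∈ K
      · right; exact ⟨⟨hx.1, hxK⟩, hx.2⟩
      · left; exact ⟨hx.1, hxK⟩
    have h6 := (card_le_card h5).trans (card_union_le _ _)
    have h7 : 7 * h ^ 2 * (2 * K.index) = 7 * h ^ 2 * K.index + 7 * h ^ 2 * K.index := by ring
    have h8 : 7 * h ^ 2 ≤ 7 * h ^ 2 * K.index := Nat.le_mul_of_pos_right _ hidx0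
    omega
  · have h1 := L.index_mul_card
    rw [hG] at h1
    have h2 : 2 * Nat.card L ≤ κ := by
      have h3 : (2 * h) * Nat.card L ≤ h * κ := by
        rw [← h1]
        exact Nat.mul_le_mul_right _ (by omega)
      have h4 : h * (2 * Nat.card L) ≤ h * κ := by
        calc _ = (2 * h) * Nat.card L := by ring
          _ ≤ _ := h3
      exact Nat.le_of_mul_le_mul_left h4 hh
    have h5 : #((A.filter (· ∈ K)).filter (· ∈ L)) ≤ Nat.card L := by
      rw [← card_filter_sub L]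
      apply card_le_card
      intro x hx
      rw [mem_filter] at hx ⊢
      exact ⟨mem_univ _, hx.2⟩
    have h6 : #((A.filter (· ∈ K)).filter (· ∈ L)) + #((A.filter (· ∈ K)).filter (· ∉ L)) =
      #(A.filter (· ∈ K)) := card_filter_add_card_filter_not _
    omega

/-- translate of a finset -/
lemma card_translate (A : Finset G) (x : G) : #(A.image (fun a => a - x)) = #A :=
  card_image_of_injective _ sub_left_injective

lemma filter_translate (A : Finset G) (x : G) (p : G → Prop) [DecidablePred p] :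
    #((A.image (fun a => a - x)).filter p) = #(A.filter (fun a => p (a - x))) := by
  rw [filter_image, card_image_of_injective _ sub_left_injective]

lemma SS_translate {A : Finset G} {κ : ℕ} {L : AddSubgroup G} {y : G}
    (hy : y + y ∈ L) (hκ : κ % 2 = 0) (h : SS (A.image (fun a => a - y)) κ L) : SS A κ L := by
  obtain ⟨P, N, hP, hN, hd, hc, hs⟩ := h
  have hinj : Function.Injective (fun a : G => a + y) := add_left_injective y
  refine ⟨P.image (fun a => a + y), N.image (fun a => a + y), ?_, ?_, ?_, ?_, ?_⟩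
  · intro x hx
    obtain ⟨p, hp, rfl⟩ := mem_image.1 hx
    obtain ⟨a, ha, rfl⟩ := mem_image.1 (hP hp)
    simpa using ha
  · intro x hx
    obtain ⟨p, hp, rfl⟩ := mem_image.1 hx
    obtain ⟨a, ha, rfl⟩ := mem_image.1 (hN hp)
    simpa using ha
  · exact (disjoint_image hinj).2 hd
  · rw [card_image_of_injective _ hinj, card_image_of_injective _ hinj, hc]
  · rw [sum_image (fun a _ b _ h => hinj h), sum_image (fun a _ b _ h => hinj h),
      sum_add_distrib, sum_add_distrib, sum_const, sum_const]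
    have h1 : #P • y - #N • y ∈ L := by
      have h2 : (#P + #N) • y ∈ L := nsmul_even_mem hy (by omega)
      have h3 : (2 * #N) • y ∈ L := nsmul_even_mem hy (by omega)
      have h4 := sub_mem h2 h3
      rw [add_smul, two_mul, add_smul] at h4
      have e : #P • y + #N • y - (#N • y + #N • y) = #P • y - #N • y := by abel
      rwa [e] at h4
    have h5 := add_mem hs h1
    have e : ∑ x ∈ P, x - ∑ x ∈ N, x + (#P • y - #N • y) =
      ∑ x ∈ P, x + #P • y - (∑ x ∈ N, x + #N • y) := by abel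
    rwa [e] at h5

theorem exists_setup {A : Finset G} {κ h : ℕ} (hκ : AddMonoid.exponent G = κ) (hh : 0 < h)
    (hb : 10 ^ 6 * h ^ 4 ≤ κ)
    (hG : Nat.card G = h * κ) (hA : ¬ SS A κ ⊥) (hA1 : κ ≤ #A) (hA2 : #A ≤ κ + 3 * h) :
    ∃ (K : AddSubgroup G) (x : G), Setup K (A.image (fun a => a - x)) κ (3 * h) (2 * h) := by
  have n2 := num2 hh hb
  have hκ0 : 0 < κ := by omega
  have hG' : Nat.card G = h * AddMonoid.exponent G := by rw [hκ, hG]
  let F : Set (AddSubgroup G) := {K | K.index ≤ 2 * h ∧ ∃ x : G,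
    #((A.image (fun a => a - x)).filter (· ∉ K)) ≤ 7 * h ^ 2 * K.index ∧
      ¬ SS (A.image (fun a => a - x)) κ (dbl K)}
  have hne : F.Nonempty := by
    obtain ⟨K, h1, h2, h3⟩ := exists_step1 hh hb hG hA hA1 hA2
    refine ⟨K, h1, 0, ?_⟩
    have : A.image (fun a => a - (0 : G)) = A := by simp
    rw [this]
    exact ⟨h2, h3⟩
  obtain ⟨K, hKF, hmin⟩ := Set.exists_min_image F (fun K => Nat.card K) (Set.toFinite F) hne
  obtain ⟨hKi, x, hKo, hKS⟩ := hKF
  set A₁ := A.image (fun a => a - x) with hA₁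
  have hA₁c : #A₁ = #A := card_translate A x
  have hsplit : #(A₁.filter (· ∈ K)) + #(A₁.filter (· ∉ K)) = #A₁ :=
    card_filter_add_card_filter_not _
  have hout : #(A₁.filter (· ∉ K)) ≤ 14 * h ^ 3 := by
    calc _ ≤ 7 * h ^ 2 * K.index := hKo
      _ ≤ 7 * h ^ 2 * (2 * h) := Nat.mul_le_mul_left _ hKi
      _ = 14 * h ^ 3 := by ring
  have hidx0 : 0 < K.index := Nat.pos_of_ne_zero AddSubgroup.index_ne_zero_of_finite
  have hicard := K.index_mul_card
  rw [hG] at hicard
  have hKc : #(A₁.filter (· ∈ K)) ≤ Nat.card K := by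
    rw [← card_filter_sub K]
    apply card_le_card
    intro y hy
    rw [mem_filter] at hy ⊢
    exact ⟨mem_univ _, hy.2⟩
  have hcardK : κ ≤ Nat.card K := by
    by_contra hcon
    push Not at hcon
    have h1 : h + 1 ≤ K.index := by
      by_contra h2
      have h3 : K.index * Nat.card K < h * κ := by
        calc K.index * Nat.card K ≤ h * Nat.card K := Nat.mul_le_mul_right _ (by omega)
          _ < h * κ := Nat.mul_lt_mul_of_pos_left hcon hh
      omega
    have h4 : (h + 1) * Nat.card K ≤ h * κ := by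
      rw [← hicard]; exact Nat.mul_le_mul_right _ h1
    have h5 : (h + 1) * κ ≤ (h + 1) * (Nat.card K + 14 * h ^ 3) :=
      Nat.mul_le_mul_left _ (by omega)
    have h6 : (h + 1) * (Nat.card K + 14 * h ^ 3) =
      (h + 1) * Nat.card K + (14 * h ^ 4 + 14 * h ^ 3) := by ring
    have h7 : (h + 1) * κ = h * κ + κ := by ring
    omega
  have hcls := cls_bound hG' K
  refine ⟨K, x, hcardK, hKS, by rw [hA₁c]; exact hA2, hcls, ?_, ?_, ?_⟩
  · show 3 * h * (2 * h) < #(A₁.filter (· ∈ K))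
    have : 3 * h * (2 * h) = 6 * h ^ 2 := by ring
    omega
  · intro K₀ hK₀ hlt y hy
    by_contra hcon
    push Not at hcon
    have e6 : 3 * h * (2 * h) = 6 * h ^ 2 := by ring
    rw [e6] at hcon
    change #((A₁.filter (· ∈ K)).filter (fun a => a - y ∉ K₀)) ≤ 6 * h ^ 2 at hcon
    -- κ is even
    have hκeven : κ % 2 = 0 := by
      by_contra hodd
      have h1 := dbl_eq_of_odd hκ (by omega) K
      rw [h1] at hK₀
      exact absurd (lt_of_lt_of_le hlt hK₀) (lt_irrefl _)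
    have hA₂ : A.image (fun a => a - (x + y)) = A₁.image (fun a => a - y) := by
      rw [hA₁, image_image]
      congr 1
      funext a
      simp only [Function.comp]
      abel
    have h2i := index_two_mul hlt
    -- counting outside K₀
    have hcnt : #((A₁.image (fun a => a - y)).filter (· ∉ K₀)) ≤ 7 * h ^ 2 * K₀.index := by
      rw [filter_translate]
      have h1 : A₁.filter (fun a => a - y ∉ K₀) ⊆ A₁.filter (· ∉ K) ∪
          (A₁.filter (· ∈ K)).filter (fun a => a - y ∉ K₀) := by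
        intro a ha
        rw [mem_filter] at ha
        rw [mem_union, mem_filter, mem_filter, mem_filter]
        by_cases haK : a ∈ K
        · right; exact ⟨⟨ha.1, haK⟩, ha.2⟩
        · left; exact ⟨ha.1, haK⟩
      have h2 := (card_le_card h1).trans (card_union_le _ _)
      have h3 : 7 * h ^ 2 * (2 * K.index) ≤ 7 * h ^ 2 * K₀.index := Nat.mul_le_mul_left _ h2i
      have h7 : 7 * h ^ 2 * (2 * K.index) = 7 * h ^ 2 * K.index + 7 * h ^ 2 * K.index := by ring
      have h8 : 7 * h ^ 2 ≤ 7 * h ^ 2 * K.index := Nat.le_mul_of_pos_right _ hidx0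
      omega
    -- index of K₀
    have hK₀c : κ ≤ 2 * Nat.card K₀ := by
      have h1 : #((A₁.filter (· ∈ K)).filter (fun a => a - y ∈ K₀)) ≤ Nat.card K₀ := by
        rw [← coset_card K₀ y]
        apply card_le_card
        intro a ha
        rw [mem_filter] at ha ⊢
        exact ⟨mem_univ _, ha.2⟩
      have h2 : #((A₁.filter (· ∈ K)).filter (fun a => a - y ∈ K₀)) +
        #((A₁.filter (· ∈ K)).filter (fun a => a - y ∉ K₀)) = #(A₁.filter (· ∈ K)) :=
        card_filter_add_card_filter_not _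
      omega
    have hK₀i : K₀.index ≤ 2 * h := by
      have h1 := K₀.index_mul_card
      rw [hG] at h1
      have h2 : K₀.index * κ ≤ (2 * h) * κ := by
        calc K₀.index * κ ≤ K₀.index * (2 * Nat.card K₀) := Nat.mul_le_mul_left _ hK₀c
          _ = 2 * (K₀.index * Nat.card K₀) := by ring
          _ = 2 * (h * κ) := by rw [h1]
          _ = _ := by ring
      exact Nat.le_of_mul_le_mul_right h2 hκ0
    have hnoSS : ¬ SS (A₁.image (fun a => a - y)) κ (dbl K₀) := by
      rintro ⟨P, N, hP, hN, hd, hc, hs⟩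
      apply hKS
      apply SS_translate (y := y) (add_self_mem_dbl hy) hκeven
      exact ⟨P, N, hP, hN, hd, hc, dbl_mono hlt.le hs⟩
    have h9 := hmin K₀ ⟨hK₀i, x + y, by rw [hA₂]; exact ⟨hcnt, hnoSS⟩⟩
    have h10 := card_lt_of_lt hlt
    omega
  · have h1 := card_le_dbl hG' K
    show #(A₁.filter (· ∉ K)) + 1 + 2 * h + 3 * h ≤ Nat.card (dbl K)
    have h2 : 2 * h * (#(A₁.filter (· ∉ K)) + 1 + 2 * h + 3 * h) ≤ 2 * h * Nat.card (dbl K) := by
      refine le_trans ?_ (hcardK.trans h1)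
      calc 2 * h * (#(A₁.filter (· ∉ K)) + 1 + 2 * h + 3 * h)
          ≤ 2 * h * (14 * h ^ 3 + 1 + 2 * h + 3 * h) := Nat.mul_le_mul_left _ (by omega)
        _ = 28 * h ^ 4 + 2 * h + 10 * h ^ 2 := by ring
        _ ≤ κ := by omega
    exact Nat.le_of_mul_le_mul_left h2 (by omega)

theorem upper {κ h : ℕ} (hκ : AddMonoid.exponent G = κ) (hh : 0 < h)
    (hb : 10 ^ 6 * h ^ 4 ≤ κ) (hG : Nat.card G = h * κ) :
    ∃ K : AddSubgroup G, κ ≤ Nat.card K ∧ tau G κ ≤ eta K κ + dis (G ⧸ K) := by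
  have n2 := num2 hh hb
  have hκ0 : 0 < κ := by omega
  -- main case
  have main : ∀ A : Finset G, ¬ SS A κ ⊥ → κ ≤ #A → #A ≤ κ + 3 * h →
      ∃ K : AddSubgroup G, κ ≤ Nat.card K ∧ #A ≤ eta K κ + dis (G ⧸ K) := by
    intro A hA h1 h2
    obtain ⟨K, x, hs⟩ := exists_setup hκ hh hb hG hA h1 h2
    obtain ⟨K', h3, h4⟩ := final hκ0 hs
    rw [card_translate] at h4
    exact ⟨K', h3, h4⟩
  obtain ⟨A, hA, hAc⟩ := exists_tau (G := G) hκ0
  rw [← hAc]
  by_cases h1 : κ ≤ #A
  · by_cases h2 : #A ≤ κ + 3 * h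
    · exact main A hA h1 h2
    · exfalso
      obtain ⟨A', hA', hA'c⟩ := exists_subset_card_eq (s := A) (n := κ + 3 * h) (by omega)
      obtain ⟨K, hK1, hK2⟩ := main A' (by
        rintro ⟨P, N, hP, hN, hd, hc, hs⟩
        exact hA ⟨P, N, hP.trans hA', hN.trans hA', hd, hc, hs⟩) (by omega) (by omega)
      have h3 := eta_lt hκ hG hh K
      have h4 := dis_le hG hκ0 K hK1
      omega
  · have hcT : Nat.card (⊤ : AddSubgroup G) = h * κ := by
      rw [← hG]; exact Nat.card_congr AddSubgroup.topEquiv.toEquiv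
    have hκle : κ ≤ Nat.card (⊤ : AddSubgroup G) := by
      rw [hcT]; exact Nat.le_mul_of_pos_left _ hh
    refine ⟨⊤, hκle, ?_⟩
    have := eta_ge (K := (⊤ : AddSubgroup G)) hκ0 (by omega)
    omega

theorem main_thm {κ h : ℕ} (hκ : AddMonoid.exponent G = κ)
    (hb : 10 ^ 6 * h ^ 4 ≤ κ) (hG : Nat.card G = h * κ) :
    IsGreatest {n | ∃ K : AddSubgroup G, κ ≤ Nat.card K ∧ n = eta K κ + dis (G ⧸ K)}
      (tau G κ) := by
  have hh : 0 < h := by
    rcases Nat.eq_zero_or_pos h with h0 | h0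
    · subst h0
      have := Nat.card_pos (α := G)
      omega
    · exact h0
  have hκ0 : 0 < κ := by
    rw [← hκ]; exact AddMonoid.exponent_pos.2 AddMonoid.ExponentExists.of_finite
  constructor
  · obtain ⟨K, hK, hle⟩ := upper hκ hh hb hG
    exact ⟨K, hK, le_antisymm hle (lower K hκ0)⟩
  · rintro n ⟨K, _, rfl⟩
    exact lower K hκ0

end Pool.Agent.Lib.MP_8ac08c_co
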