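import Mathlib
import Pool.Agent.Lib.MP_8ac08c_co.Struct

set_option linter.unusedSectionVars false
set_option linter.unusedVariables false

open Finset Classical

namespace Pool.Agent.Lib.MP_8ac08c_co

variable {G : Type*} [AddCommGroup G] [Fintype G]

lemma two_pow_dis_le : 2 ^ dis G ≤ Nat.card G := by
  obtain ⟨D, hD, hDc⟩ := exists_dis (G := G)
  rw [← hDc, ← card_powerset, Nat.card_eq_fintype_card, ← card_univ]
  apply card_le_card_of_injOn (fun X => ∑ x ∈ X, x) (fun _ _ => by simp)
  intro X hX Y hY hXY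
  simp only [coe_powerset, Set.mem_preimage, Set.mem_powerset_iff, coe_subset] at hX hY
  have h1 : ∑ x ∈ X \ Y, x + ∑ x ∈ X ∩ Y, x = ∑ x ∈ X, x := by
    rw [← sum_union (by
      rw [disjoint_left]; intro x hx hx'
      rw [mem_sdiff] at hx; rw [mem_inter] at hx'
      exact hx.2 hx'.2)]
    congr 1
    ext x; simp only [mem_union, mem_sdiff, mem_inter]; tauto
  have h2 : ∑ x ∈ Y \ X, x + ∑ x ∈ X ∩ Y, x = ∑ x ∈ Y, x := by
    rw [← sum_union (by
      rw [disjoint_left]; intro x hx hx'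
      rw [mem_sdiff] at hx; rw [mem_inter] at hx'
      exact hx.2 hx'.1)]
    congr 1
    ext x; simp only [mem_union, mem_sdiff, mem_inter]; tauto
  have h3 : ∑ x ∈ X \ Y, x - ∑ x ∈ Y \ X, x = 0 := by
    have h4 : ∑ x ∈ X, x = ∑ x ∈ Y, x := hXY
    rw [← h1, ← h2] at h4
    rw [add_right_cancel h4, sub_self]
  obtain ⟨h4, h5⟩ := hD (X \ Y) (Y \ X) (sdiff_subset.trans hX) (sdiff_subset.trans hY)
    (by rw [disjoint_left]; intro x hx hx'
        rw [mem_sdiff] at hx hx'
        exact hx.2 hx'.1) h3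
  rw [sdiff_eq_empty_iff_subset] at h4 h5
  exact Subset.antisymm h4 h5

lemma dis_le_log (K : AddSubgroup G) : dis (G ⧸ K) ≤ Nat.log 2 K.index := by
  let _ : Fintype (G ⧸ K) := Fintype.ofFinite _
  apply Nat.le_log_of_pow_le (by norm_num)
  exact two_pow_dis_le

lemma log_le_dis {K : AddSubgroup G} {d : ℕ} (hd : 0 < d) (g : G)
    (hg : ∀ k : ℤ, k • g ∈ K → (d : ℤ) ∣ k) : Nat.log 2 d ≤ dis (G ⧸ K) := by
  set a := Nat.log 2 d with ha
  have had : 2 ^ a ≤ d := Nat.pow_log_le_self 2 (by omega)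
  let f : ℕ → G := fun i => (2 ^ i : ℤ) • g
  -- sums over index sets
  have key : ∀ I J : Finset ℕ, I ⊆ range a → J ⊆ range a →
      ∑ i ∈ I, f i - ∑ i ∈ J, f i ∈ K → I = J := by
    intro I J hI hJ h
    have h1 : ∑ i ∈ I, f i - ∑ i ∈ J, f i = (∑ i ∈ I, (2 ^ i : ℤ) - ∑ i ∈ J, (2 ^ i : ℤ)) • g := by
      rw [sub_smul, sum_smul, sum_smul]
    rw [h1] at h
    have h2 := hg _ h
    have hbI : ∑ i ∈ I, 2 ^ i < 2 ^ a := Nat.geomSum_lt le_rfl (fun k hk => mem_range.1 (hI hk))
    have hbJ : ∑ i ∈ J, 2 ^ i < 2 ^ a := Nat.geomSum_lt le_rfl (fun k hk => mem_range.1 (hJ hk))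
    have h3 : ∑ i ∈ I, (2 ^ i : ℤ) - ∑ i ∈ J, (2 ^ i : ℤ) = 0 := by
      apply Int.eq_zero_of_abs_lt_dvd h2
      have e1 : ∑ i ∈ I, (2 ^ i : ℤ) = ((∑ i ∈ I, 2 ^ i : ℕ) : ℤ) := by push_cast; rfl
      have e2 : ∑ i ∈ J, (2 ^ i : ℤ) = ((∑ i ∈ J, 2 ^ i : ℕ) : ℤ) := by push_cast; rfl
      rw [e1, e2, abs_lt]
      constructor <;> omega
    have h4 : ∑ i ∈ I, 2 ^ i = ∑ i ∈ J, 2 ^ i := by
      have e1 : ∑ i ∈ I, (2 ^ i : ℤ) = ((∑ i ∈ I, 2 ^ i : ℕ) : ℤ) := by push_cast; rfl
      have e2 : ∑ i ∈ J, (2 ^ i : ℤ) = ((∑ i ∈ J, 2 ^ i : ℕ) : ℤ) := by push_cast; rfl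
      rw [e1, e2] at h3
      omega
    exact Finset.geomSum_injective (n := 2) le_rfl h4
  have hinj : Set.InjOn f (range a : Set ℕ) := by
    intro i hi j hj hij
    have := key {i} {j} (singleton_subset_iff.2 hi) (singleton_subset_iff.2 hj)
      (by simp [hij, zero_mem])
    simpa using this
  have hcard : #((range a).image f) = a := by rw [card_image_of_injOn hinj, card_range]
  rw [← hcard]
  apply le_dis_of_lift
  intro P N hP hN hd' hs
  set I := (range a).filter (fun i => f i ∈ P) with hI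
  set J := (range a).filter (fun i => f i ∈ N) with hJ
  have hPI : I.image f = P := by
    ext x
    simp only [hI, mem_image, mem_filter]
    constructor
    · rintro ⟨i, ⟨_, h⟩, rfl⟩; exact h
    · intro hx
      obtain ⟨i, hi, rfl⟩ := mem_image.1 (hP hx)
      exact ⟨i, ⟨hi, hx⟩, rfl⟩
  have hNJ : J.image f = N := by
    ext x
    simp only [hJ, mem_image, mem_filter]
    constructor
    · rintro ⟨i, ⟨_, h⟩, rfl⟩; exact h
    · intro hx
      obtain ⟨i, hi, rfl⟩ := mem_image.1 (hN hx)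
      exact ⟨i, ⟨hi, hx⟩, rfl⟩
  have hIr : I ⊆ range a := filter_subset _ _
  have hJr : J ⊆ range a := filter_subset _ _
  have hIJ : I = J := by
    apply key I J hIr hJr
    rw [← sum_image (f := fun x => x) (s := I) (g := f) (fun i hi j hj h => hinj (hIr hi) (hIr hj) h),
      ← sum_image (f := fun x => x) (s := J) (g := f) (fun i hi j hj h => hinj (hJr hi) (hJr hj) h),
      hPI, hNJ]
    exact hs
  have hPN : P = N := by rw [← hPI, ← hNJ, hIJ]
  rw [hPN, disjoint_self_iff_empty] at hd'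
  rw [hPN, hd']
  exact ⟨rfl, rfl⟩

/-! ### classes -/

lemma card_le_dbl' (K : AddSubgroup G) :
    Nat.card K ≤ #(univ.filter (fun x : G => x + x = 0)) * Nat.card (dbl K) := by
  rw [← card_filter_sub K, ← card_filter_sub (dbl K)]
  refine le_trans (card_le_mul_card_image (f := fun x => x + x) _
    (#(univ.filter (fun x : G => x + x = 0))) ?_) ?_
  · intro a ha
    obtain ⟨y, hy, rfl⟩ := mem_image.1 ha
    apply card_le_card_of_injOn (fun x => x - y)
    · intro x hx
      simp only [coe_filter, mem_filter, mem_univ, true_and, Set.mem_ofPred_eq] at hx ⊢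
      have : x - y + (x - y) = (x + x) - (y + y) := by abel
      rw [this, hx.2, sub_self]
    · intro a _ b _ hab
      exact sub_left_injective hab
  · apply Nat.mul_le_mul_left
    apply card_le_card
    intro x hx
    obtain ⟨y, hy, rfl⟩ := mem_image.1 hx
    rw [mem_filter] at hy ⊢
    exact ⟨mem_univ _, add_self_mem_dbl hy.2⟩

/-- when there are at most two solutions of `2x = 0`, among three elements of `K` two are
congruent modulo `2K` -/
lemma two_classes (h2 : #(univ.filter (fun x : G => x + x = 0)) ≤ 2) {K : AddSubgroup G}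
    {a b c : G} (ha : a ∈ K) (hb : b ∈ K) (hc : c ∈ K) (hac : a - c ∉ dbl K)
    (hbc : b - c ∉ dbl K) : a - b ∈ dbl K := by
  by_contra hab
  have h3 : #(univ.filter (fun y => y - a ∈ dbl K) ∪ univ.filter (fun y => y - b ∈ dbl K) ∪
      univ.filter (fun y => y - c ∈ dbl K)) ≤ Nat.card K := by
    rw [← card_filter_sub K]
    apply card_le_card
    intro y hy
    rw [mem_union, mem_union, mem_filter, mem_filter, mem_filter] at hy
    rw [mem_filter]
    refine ⟨mem_univ _, ?_⟩
    rcases hy with (⟨_, h⟩ | ⟨_, h⟩) | ⟨_, h⟩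
    · have := add_mem (dbl_le K h) ha
      rwa [sub_add_cancel] at this
    · have := add_mem (dbl_le K h) hb
      rwa [sub_add_cancel] at this
    · have := add_mem (dbl_le K h) hc
      rwa [sub_add_cancel] at this
  have disj : ∀ u v : G, u - v ∉ dbl K →
      Disjoint (univ.filter (fun y => y - u ∈ dbl K)) (univ.filter (fun y => y - v ∈ dbl K)) := by
    intro u v huv
    rw [disjoint_left]
    intro y hy hy'
    rw [mem_filter] at hy hy'
    apply huv
    have := sub_mem hy'.2 hy.2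
    have e : y - v - (y - u) = u - v := by abel
    rwa [e] at this
  rw [card_union_of_disjoint (by
    rw [disjoint_union_left]
    exact ⟨disj a c hac, disj b c hbc⟩), card_union_of_disjoint (disj a b hab), coset_card,
    coset_card, coset_card] at h3
  have h4 := card_le_dbl' K
  have h5 : Nat.card K ≤ 2 * Nat.card (dbl K) := h4.trans (Nat.mul_le_mul_right _ h2)
  have h6 : 0 < Nat.card (dbl K) := Nat.card_pos
  omega

lemma eta_le_even {κ : ℕ} (hκ : κ % 2 = 0) (hκ0 : 0 < κ)
    (h2 : #(univ.filter (fun x : G => x + x = 0)) ≤ 2) (K : AddSubgroup G) : eta K κ ≤ κ := by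
  obtain ⟨T, hTK, hTB, hTc⟩ := exists_eta K hκ0
  by_contra hcon
  obtain ⟨T', hT', hT'c⟩ := exists_subset_card_eq (s := T) (n := κ + 1) (by omega)
  have hsK : ∑ x ∈ T', x ∈ K := sum_mem (fun x hx => hTK x (hT' hx))
  have hne : ∀ t ∈ T', t - ∑ x ∈ T', x ∉ dbl K := by
    intro t ht hmem
    apply hTB (T'.erase t) ((erase_subset _ _).trans hT')
    · rw [card_erase_of_mem ht]; omega
    · have h1 : ∑ x ∈ T'.erase t, x + t = ∑ x ∈ T', x := sum_erase_add _ _ ht
      have h3 := neg_mem hmem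
      rw [← h1] at h3
      have e : -(t - (∑ x ∈ T'.erase t, x + t)) = ∑ x ∈ T'.erase t, x := by abel
      rwa [e] at h3
  have hT'ne : T'.Nonempty := by rw [← card_pos]; omega
  obtain ⟨t₀, ht₀⟩ := hT'ne
  apply hTB (T'.erase t₀) ((erase_subset _ _).trans hT')
  · rw [card_erase_of_mem ht₀]; omega
  · have h1 : ∑ y ∈ T'.erase t₀, y - #(T'.erase t₀) • t₀ ∈ dbl K := by
      apply sum_sub_card_smul
      intro y hy
      rw [mem_erase] at hy
      exact two_classes h2 (hTK _ (hT' hy.2)) (hTK _ (hT' ht₀)) hsK (hne y hy.2) (hne t₀ ht₀)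
    have h3 : #(T'.erase t₀) • t₀ ∈ dbl K :=
      nsmul_even_mem (add_self_mem_dbl (hTK _ (hT' ht₀))) (by rw [card_erase_of_mem ht₀]; omega)
    have := add_mem h1 h3
    rwa [sub_add_cancel] at this

lemma eta_le_odd {κ : ℕ} (hκ : AddMonoid.exponent G = κ) (hodd : κ % 2 = 1)
    (K : AddSubgroup G) : eta K κ ≤ κ - 1 := by
  obtain ⟨T, hTK, hTB, hTc⟩ := exists_eta K (h := κ) (by omega)
  by_contra hcon
  obtain ⟨B, hB, hBc⟩ := exists_subset_card_eq (s := T) (n := κ) (by omega)
  apply hTB B hB hBc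
  rw [dbl_eq_of_odd hκ hodd]
  exact sum_mem (fun x hx => hTK x (hB hx))

/-- lower bound for `eta` when there is room -/
lemma eta_ge_room {K : AddSubgroup G} {κ : ℕ} (hκ : 0 < κ) (h : κ < Nat.card K)
    (hne : dbl K ≠ K) : κ ≤ eta K κ := by
  set Kf := univ.filter (fun x => x ∈ K) with hKf
  have h0 : #Kf = Nat.card K := card_filter_sub K
  have hex : ∃ T ⊆ Kf, #T = κ ∧ ∑ x ∈ T, x ∉ dbl K := by
    by_contra hcon
    push Not at hcon
    obtain ⟨T, hT, hTc⟩ := exists_subset_card_eq (s := Kf) (n := κ) (by omega)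
    have hTs := hcon T hT hTc
    have swap : ∀ x ∈ T, ∀ y ∈ Kf \ T, y - x ∈ dbl K := by
      intro x hx y hy
      rw [mem_sdiff] at hy
      have hyn : y ∉ T.erase x := fun h => hy.2 (mem_erase.1 h).2
      have h1 := hcon (insert y (T.erase x)) (by
        intro z hz
        rw [mem_insert] at hz
        rcases hz with rfl | hz
        · exact hy.1
        · exact hT (mem_erase.1 hz).2) (by
        rw [card_insert_of_notMem hyn, card_erase_of_mem hx]; omega)
      rw [sum_insert hyn] at h1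
      have h2 : ∑ z ∈ T.erase x, z + x = ∑ z ∈ T, z := sum_erase_add _ _ hx
      have h3 := sub_mem h1 hTs
      rw [← h2] at h3
      have e : y + ∑ z ∈ T.erase x, z - (∑ z ∈ T.erase x, z + x) = y - x := by abel
      rwa [e] at h3
    have hTne : T.Nonempty := by rw [← card_pos]; omega
    have hCne : (Kf \ T).Nonempty := by
      rw [← card_pos, card_sdiff_of_subset hT]; omega
    obtain ⟨x₀, hx₀⟩ := hTne
    obtain ⟨y₀, hy₀⟩ := hCne
    apply hne
    apply le_antisymm (dbl_le K)
    have hall : ∀ z ∈ K, z - x₀ ∈ dbl K := by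
      intro z hz
      by_cases hzT : z ∈ T
      · have h1 := swap z hzT y₀ hy₀
        have h2 := swap x₀ hx₀ y₀ hy₀
        have h3 := sub_mem h2 h1
        have e : y₀ - x₀ - (y₀ - z) = z - x₀ := by abel
        rwa [e] at h3
      · exact swap x₀ hx₀ z (mem_sdiff.2 ⟨by simpa [hKf] using hz, hzT⟩)
    intro z hz
    have h1 := hall z hz
    have h2 := hall 0 (zero_mem _)
    have h3 := sub_mem h1 h2
    have e : z - x₀ - (0 - x₀) = z := by abel
    rwa [e] at h3
  obtain ⟨T, hT, hTc, hTs⟩ := hex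
  rw [← hTc]
  apply le_eta
  · intro t ht
    exact (mem_filter.1 (hT ht)).2
  · intro B hB hBc
    have : B = T := eq_of_subset_of_card_le hB (by omega)
    rw [this]
    exact hTs

/-- lower bound for `eta` when `|K| = κ ≡ 2 mod 4` -/
lemma eta_ge_two_mod_four {K : AddSubgroup G} {κ : ℕ} (h : Nat.card K = κ) (hκ4 : κ % 4 = 2)
    (h2 : #(univ.filter (fun x : G => x + x = 0)) ≤ 2) : κ ≤ eta K κ := by
  set Kf := univ.filter (fun x => x ∈ K) with hKf
  set Df := univ.filter (fun x => x ∈ dbl K) with hDf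
  have h0 : #Kf = κ := by rw [← h]; exact card_filter_sub K
  have hD0 : #Df = Nat.card (dbl K) := card_filter_sub _
  have hsub : Df ⊆ Kf := by
    intro x hx
    rw [mem_filter] at hx ⊢
    exact ⟨hx.1, dbl_le K hx.2⟩
  have hle : Nat.card K ≤ 2 * Nat.card (dbl K) :=
    (card_le_dbl' K).trans (Nat.mul_le_mul_right _ h2)
  -- dbl K ≠ K
  have hne : dbl K ≠ K := by
    intro heq
    have hdvd : 2 ∣ Nat.card K := by rw [h]; omega
    have : Fact (Nat.Prime 2) := ⟨Nat.prime_two⟩
    obtain ⟨t, ht⟩ := exists_prime_addOrderOf_dvd_card' (G := K) 2 hdvd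
    have ht2 : (t : G) + t = 0 := by
      have h1 : (2 : ℕ) • t = 0 := by rw [← ht]; exact addOrderOf_nsmul_eq_zero t
      have h3 := congrArg (fun x : K => (x : G)) h1
      simpa [two_nsmul] using h3
    have ht0 : (t : G) ≠ 0 := by
      intro h1
      have h3 : t = 0 := Subtype.ext h1
      rw [h3, addOrderOf_zero] at ht
      omega
    -- doubling map Kf -> Kf is surjective hence injective
    have hsurj : Set.SurjOn (fun x : G => x + x) (Kf : Set G) (Kf : Set G) := by
      intro y hy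
      have hy' : y ∈ dbl K := by rw [heq]; simpa [hKf] using hy
      obtain ⟨k, hk, rfl⟩ := mem_dbl.1 hy'
      exact ⟨k, by simpa [hKf] using hk, rfl⟩
    have hinj : Set.InjOn (fun x : G => x + x) (Kf : Set G) :=
      Finset.injOn_of_surjOn_of_card_le _
        (fun x hx => by
          simp only [coe_filter, mem_univ, true_and, Set.mem_ofPred_eq, hKf] at hx ⊢
          exact add_mem hx hx) hsurj le_rfl
    apply ht0
    apply hinj (by simp [hKf]) (by simp [hKf, zero_mem])
    simp [ht2]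
  obtain ⟨c, hcK, hcD⟩ : ∃ c ∈ K, c ∉ dbl K := by
    by_contra hcon
    push Not at hcon
    exact hne (le_antisymm (dbl_le K) hcon)
  have hcos : Df.image (fun x => x + c) ⊆ Kf := by
    intro x hx
    obtain ⟨y, hy, rfl⟩ := mem_image.1 hx
    rw [mem_filter] at hy ⊢
    exact ⟨mem_univ _, add_mem (dbl_le K hy.2) hcK⟩
  have hdisj : Disjoint Df (Df.image (fun x => x + c)) := by
    rw [disjoint_left]
    intro x hx hx'
    obtain ⟨y, hy, rfl⟩ := mem_image.1 hx'
    rw [mem_filter] at hx hy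
    apply hcD
    have := sub_mem hx.2 hy.2
    rwa [add_sub_cancel_left] at this
  have hcc : #(Df.image (fun x => x + c)) = #Df := card_image_of_injective _ (add_left_injective c)
  have hun : Df ∪ Df.image (fun x => x + c) = Kf := by
    apply eq_of_subset_of_card_le (union_subset hsub hcos)
    rw [card_union_of_disjoint hdisj, hcc]
    omega
  have hcardD : 2 * #Df = κ := by
    have := congrArg card hun
    rw [card_union_of_disjoint hdisj, hcc] at this
    omega
  rw [← h0]
  apply le_eta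
  · intro t ht
    exact (mem_filter.1 ht).2
  · intro B hB hBc
    have hBK : B = Kf := eq_of_subset_of_card_le hB (by omega)
    rw [hBK, ← hun, sum_union hdisj, sum_image (fun a _ b _ h => add_right_cancel h),
      sum_add_distrib, sum_const]
    intro hmem
    apply hcD
    have hDs : ∑ x ∈ Df, x ∈ K := sum_mem (fun x hx => dbl_le K (mem_filter.1 hx).2)
    have h3 := sub_mem hmem (add_self_mem_dbl hDs)
    have h4 : (#Df - 1) • c ∈ dbl K := nsmul_even_mem (add_self_mem_dbl hcK) (by omega)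
    have h5 := sub_mem h3 h4
    have h6 : #Df • c = (#Df - 1) • c + c := by
      conv_lhs => rw [show #Df = (#Df - 1) + 1 by omega]
      rw [succ_nsmul]
    rw [h6] at h5
    have e : ∑ x ∈ Df, x + (∑ x ∈ Df, x + ((#Df - 1) • c + c)) - (∑ x ∈ Df, x + ∑ x ∈ Df, x) -
      (#Df - 1) • c = c := by abel
    rwa [e] at h5

end Pool.Agent.Lib.MP_8ac08c_co
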