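import Mathlib
import Pool.Agent.Lib.MP_8ac08c_co.Explicit

set_option linter.unusedSectionVars false
set_option linter.unusedVariables false

open Finset Classical

namespace Pool.Agent.Lib.MP_8ac08c_co

variable {H : Type*} [AddCommGroup H] [Fintype H]

lemma exp_prod {n : ℕ} [NeZero n] (hdvd : Nat.card H ∣ n) :
    AddMonoid.exponent (H × ZMod n) = n := by
  apply Nat.dvd_antisymm
  · apply AddMonoid.exponent_dvd_of_forall_nsmul_eq_zero
    rintro ⟨x, y⟩
    ext
    · obtain ⟨c, hc⟩ := hdvd
      have h1 : Nat.card H • x = 0 := card_nsmul_eq_zero'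
      show n • x = 0
      rw [hc, mul_comm, mul_smul, h1, smul_zero]
    · show n • y = 0
      simp
  · have h1 : AddMonoid.exponent (H × ZMod n) • ((0 : H), (1 : ZMod n)) = 0 :=
      AddMonoid.exponent_nsmul_eq_zero _
    have h2 := congrArg Prod.snd h1
    simp only [Prod.smul_snd, nsmul_eq_mul, mul_one, Prod.snd_zero] at h2
    exact (ZMod.natCast_eq_zero_iff _ _).1 h2

/-- the homomorphism to `ZMod d` -/
def phi (H : Type*) [AddCommGroup H] {n d : ℕ} (hd : d ∣ n) : H × ZMod n →+ ZMod d :=
  (ZMod.castHom hd (ZMod d)).toAddMonoidHom.comp (AddMonoidHom.snd H (ZMod n))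

lemma phi_surj {n d : ℕ} (hd : d ∣ n) : Function.Surjective (phi H hd) := by
  intro z
  obtain ⟨y, hy⟩ := ZMod.castHom_surjective hd z
  exact ⟨(0, y), hy⟩

lemma index_phi {n d : ℕ} [NeZero d] (hd : d ∣ n) : (phi H hd).ker.index = d := by
  rw [AddSubgroup.index_ker]
  have : (phi H hd).range = ⊤ := AddMonoidHom.range_eq_top.2 (phi_surj hd)
  rw [this]
  rw [Nat.card_congr AddSubgroup.topEquiv.toEquiv, Nat.card_eq_fintype_card, ZMod.card]

lemma zsmul_mem_phi {n d : ℕ} (hd : d ∣ n) (k : ℤ) :
    k • ((0 : H), (1 : ZMod n)) ∈ (phi H hd).ker → (d : ℤ) ∣ k := by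
  intro h
  rw [AddMonoidHom.mem_ker, map_zsmul] at h
  have h1 : phi H hd (0, 1) = 1 := by
    show ZMod.castHom hd (ZMod d) 1 = 1
    rw [map_one]
  rw [h1, zsmul_eq_mul, mul_one] at h
  exact (ZMod.intCast_zmod_eq_zero_iff_dvd k d).1 h

lemma two_torsion_prod {n : ℕ} [NeZero n] (hodd : Odd (Nat.card H)) :
    #(univ.filter (fun x : H × ZMod n => x + x = 0)) ≤ 2 := by
  have hsub : univ.filter (fun x : H × ZMod n => x + x = 0) ⊆
      {((0 : H), (0 : ZMod n)), ((0 : H), ((n / 2 : ℕ) : ZMod n))} := by
    rintro ⟨x, y⟩ hxy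
    rw [mem_filter] at hxy
    have hx : x + x = 0 := congrArg Prod.fst hxy.2
    have hy : y + y = 0 := congrArg Prod.snd hxy.2
    have hx0 : x = 0 := by
      obtain ⟨k, hk⟩ := hodd
      have h1 : Nat.card H • x = 0 := card_nsmul_eq_zero'
      rw [hk, add_smul, one_smul, mul_comm, mul_smul, two_nsmul, hx, smul_zero, zero_add] at h1
      exact h1
    have hyv : y = ((y.val : ℕ) : ZMod n) := (ZMod.natCast_zmod_val y).symm
    have hylt := ZMod.val_lt y
    have h2 : n ∣ y.val + y.val := by
      rw [← ZMod.natCast_eq_zero_iff, Nat.cast_add, ← hyv]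
      exact hy
    obtain ⟨c, hc⟩ := h2
    have hc2 : c < 2 := by
      by_contra hcon
      push Not at hcon
      have : n * 2 ≤ n * c := Nat.mul_le_mul_left _ hcon
      omega
    rw [mem_insert, mem_singleton, hx0]
    interval_cases c
    · left
      have : y.val = 0 := by omega
      rw [hyv, this, Nat.cast_zero]
    · right
      have : y.val = n / 2 := by omega
      rw [← this, ← hyv]
  exact (card_le_card hsub).trans card_le_two

theorem explicit {n : ℕ} (hodd : Odd (Nat.card H)) (hdvd : Nat.card H ∣ n)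
    (hlarge : 10 ^ 6 * Nat.card H ^ 4 ≤ n)
    (hcase : ¬ 4 ∣ n ∨ (1 < Nat.card H ∧ 2 ^ (Nat.log 2 (Nat.card H) + 1) ∣ n)) :
    tau (H × ZMod n) n + n % 2 = n + Nat.log 2 (Nat.card H) := by
  set h := Nat.card H with hh
  have hh0 : 0 < h := Nat.card_pos
  have n2 := num2 hh0 hlarge
  have hn0 : 0 < n := by omega
  have : NeZero n := ⟨by omega⟩
  have : NeZero h := ⟨by omega⟩
  have hκ : AddMonoid.exponent (H × ZMod n) = n := exp_prod hdvd
  have hG : Nat.card (H × ZMod n) = h * n := by
    rw [Nat.card_prod, Nat.card_zmod]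
  have htors := two_torsion_prod (H := H) (n := n) hodd
  obtain ⟨⟨K, hK, hKeq⟩, hub⟩ := main_thm hκ hlarge hG
  -- upper bound for each K
  have hidx : K.index ≤ h := by
    have h3 := K.index_mul_card
    have h4 : K.index * n ≤ h * n := by
      rw [← hG, ← h3]
      exact Nat.mul_le_mul_left _ hK
    exact Nat.le_of_mul_le_mul_right h4 hn0
  have hdis : dis ((H × ZMod n) ⧸ K) ≤ Nat.log 2 h :=
    (dis_le_log K).trans (Nat.log_mono_right hidx)
  -- the subgroup of index h
  set K₁ := (phi H hdvd).ker with hK₁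
  have hK₁i : K₁.index = h := index_phi hdvd
  have hK₁c : Nat.card K₁ = n := by
    have h3 := K₁.index_mul_card
    rw [hK₁i, hG] at h3
    exact Nat.eq_of_mul_eq_mul_left hh0 h3
  have hK₁d : Nat.log 2 h ≤ dis ((H × ZMod n) ⧸ K₁) := log_le_dis hh0 (0, 1)
    (fun k hk => zsmul_mem_phi hdvd k hk)
  rcases Nat.mod_two_eq_zero_or_one n with hpar | hpar
  · -- n even
    have hup : eta K n ≤ n := eta_le_even hpar hn0 (by convert htors) K
    have hlow : n + Nat.log 2 h ≤ tau (H × ZMod n) n := by
      rcases hcase with h4 | ⟨h1, h2a⟩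
      · have h5 := eta_ge_two_mod_four (K := K₁) hK₁c (by omega) (by convert htors)
        have h6 := lower K₁ hn0
        omega
      · set a := Nat.log 2 h with ha
        have h2d : 2 ^ a ∣ n := (pow_dvd_pow 2 (Nat.le_succ a)).trans h2a
        have : NeZero (2 ^ a) := ⟨by positivity⟩
        set K₂ := (phi H h2d).ker with hK₂
        have hK₂i : K₂.index = 2 ^ a := index_phi h2d
        have hlt : 2 ^ a < h := by
          have h3 : 2 ^ a ≤ h := Nat.pow_log_le_self 2 (by omega)
          rcases Nat.lt_or_eq_of_le h3 with h4 | h4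
          · exact h4
          · exfalso
            have ha0 : a ≠ 0 := by
              intro h5
              rw [h5] at h4
              omega
            rw [← h4, Nat.odd_pow_iff ha0] at hodd
            exact absurd hodd (by decide)
        have hK₂c : n < Nat.card K₂ := by
          have h3 := K₂.index_mul_card
          rw [hK₂i, hG] at h3
          by_contra hcon
          push Not at hcon
          have h4 : 2 ^ a * Nat.card K₂ ≤ 2 ^ a * n := Nat.mul_le_mul_left _ hcon
          have h5 : 2 ^ a * n < h * n := Nat.mul_lt_mul_of_pos_right hlt hn0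
          omega
        have hK₂d : Nat.log 2 (2 ^ a) ≤ dis ((H × ZMod n) ⧸ K₂) :=
          log_le_dis (by positivity) (0, 1) (fun k hk => zsmul_mem_phi h2d k hk)
        rw [Nat.log_pow (by norm_num)] at hK₂d
        have hne : dbl K₂ ≠ K₂ := by
          intro heq
          have hmem : ((0 : H), ((2 ^ a : ℕ) : ZMod n)) ∈ K₂ := by
            rw [hK₂, AddMonoidHom.mem_ker]
            show ZMod.castHom h2d (ZMod (2 ^ a)) ((2 ^ a : ℕ) : ZMod n) = 0
            rw [map_natCast]
            exact (ZMod.natCast_eq_zero_iff _ _).2 dvd_rfl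
          rw [← heq] at hmem
          obtain ⟨⟨x, y⟩, hxy, hk⟩ := mem_dbl.1 hmem
          have hy : ((2 ^ a : ℕ) : ZMod n) = y + y := congrArg Prod.snd hk
          have hyK : ZMod.castHom h2d (ZMod (2 ^ a)) y = 0 := by
            rw [hK₂, AddMonoidHom.mem_ker] at hxy
            exact hxy
          have hyv : y = ((y.val : ℕ) : ZMod n) := (ZMod.natCast_zmod_val y).symm
          rw [hyv, map_natCast, ZMod.natCast_eq_zero_iff] at hyK
          obtain ⟨w, hw⟩ := hyK
          have h7 : ((2 ^ a : ℕ) : ZMod (2 ^ (a + 1))) = ((y.val + y.val : ℕ) : ZMod (2 ^ (a + 1))) := by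
            have h8 := congrArg (ZMod.castHom h2a (ZMod (2 ^ (a + 1)))) hy
            rw [map_natCast, hyv, ← Nat.cast_add, map_natCast] at h8
            rw [h8]
          have h9 : ((y.val + y.val : ℕ) : ZMod (2 ^ (a + 1))) = 0 := by
            rw [ZMod.natCast_eq_zero_iff]
            exact ⟨w, by rw [hw]; ring⟩
          rw [h9, ZMod.natCast_eq_zero_iff] at h7
          have h10 := Nat.le_of_dvd (by positivity) h7
          have h11 : 2 ^ a < 2 ^ (a + 1) := Nat.pow_lt_pow_right (by norm_num) (Nat.lt_succ_self a)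
          omega
        have h5 := eta_ge_room hn0 hK₂c hne
        have h6 := lower K₂ hn0
        omega
    omega
  · -- n odd
    have hup := eta_le_odd hκ hpar K
    have h5 := eta_ge (K := K₁) hn0 (by omega)
    have h6 := lower K₁ hn0
    omega

end Pool.Agent.Lib.MP_8ac08c_co
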