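import Mathlib
import Pool.Agent.Lib.MP_8ac08c_co.Prod

set_option linter.unusedSectionVars false
set_option linter.unusedVariables false

open Finset Classical

namespace Pool.Agent.Lib.MP_8ac08c_co

section gen
variable {G : Type*} [AddCommGroup G] [Fintype G]

lemma image_mul_le (K : AddSubgroup G) (S : Finset G) (hS : ∀ s ∈ S, s ∈ K) :
    #(S.image (QuotientAddGroup.mk' (dbl K))) * Nat.card (dbl K) ≤ Nat.card K := by
  rw [← card_filter_sub K]
  set Kf := univ.filter (fun x : G => x ∈ K) with hKf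
  have h2 : #(Kf.filter (fun x => QuotientAddGroup.mk' (dbl K) x ∈
      S.image (QuotientAddGroup.mk' (dbl K)))) =
      ∑ b ∈ S.image (QuotientAddGroup.mk' (dbl K)),
        #((Kf.filter (fun x => QuotientAddGroup.mk' (dbl K) x ∈
      S.image (QuotientAddGroup.mk' (dbl K)))).filter
        (fun x => QuotientAddGroup.mk' (dbl K) x = b)) := by
    apply card_eq_sum_card_fiberwise
    intro x hx
    exact (mem_filter.1 hx).2
  have h3 : ∀ b ∈ S.image (QuotientAddGroup.mk' (dbl K)),
      #((Kf.filter (fun x => QuotientAddGroup.mk' (dbl K) x ∈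
      S.image (QuotientAddGroup.mk' (dbl K)))).filter
        (fun x => QuotientAddGroup.mk' (dbl K) x = b)) = Nat.card (dbl K) := by
    intro b hb
    obtain ⟨s, hs, rfl⟩ := mem_image.1 hb
    rw [← coset_card (dbl K) s]
    congr 1
    ext x
    simp only [mem_filter, mem_univ, true_and, hKf]
    constructor
    · rintro ⟨_, h⟩
      exact mk_eq_iff.1 h
    · intro h
      refine ⟨⟨?_, ?_⟩, mk_eq_iff.2 h⟩
      · have := add_mem (dbl_le K h) (hS s hs)
        rwa [sub_add_cancel] at this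
      · rw [mk_eq_iff.2 h]
        exact hb
  rw [sum_congr rfl h3, sum_const, smul_eq_mul] at h2
  rw [← h2]
  exact card_filter_le _ _

/-- if `|K| ≤ 4 |2K|`, then every 2-subset-free situation is impossible -/
lemma eta_le_four {κ : ℕ} (hκ : κ % 2 = 0) (hκ4 : 4 < κ) {K : AddSubgroup G}
    (h4 : Nat.card K ≤ 4 * Nat.card (dbl K)) : eta K κ ≤ κ + 1 := by
  have hD0 : 0 < Nat.card (dbl K) := Nat.card_pos
  have hcls : ∀ S : Finset G, (∀ s ∈ S, s ∈ K) →
      #(S.image (QuotientAddGroup.mk' (dbl K))) ≤ 4 := by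
    intro S hS
    have h1 := (image_mul_le K S hS).trans h4
    exact Nat.le_of_mul_le_mul_right h1 hD0
  obtain ⟨T₀, hT₀K, hT₀B, hT₀c⟩ := exists_eta K (h := κ) (by omega)
  by_contra hcon
  obtain ⟨T, hT, hTc⟩ := exists_subset_card_eq (s := T₀) (n := κ + 2) (by omega)
  have hTK : ∀ t ∈ T, t ∈ K := fun t ht => hT₀K t (hT ht)
  set v := ∑ x ∈ T, x with hv
  have hvK : v ∈ K := sum_mem hTK
  -- no two distinct elements of T add up to v
  have hno : ∀ x ∈ T, ∀ y ∈ T, x ≠ y → x + y - v ∉ dbl K := by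
    intro x hx y hy hxy hmem
    have hyx : y ∈ T.erase x := mem_erase.2 ⟨hxy.symm, hy⟩
    apply hT₀B ((T.erase x).erase y) ((erase_subset _ _).trans ((erase_subset _ _).trans hT))
    · rw [card_erase_of_mem hyx, card_erase_of_mem hx]; omega
    · have h1 : ∑ z ∈ (T.erase x).erase y, z + y = ∑ z ∈ T.erase x, z := sum_erase_add _ _ hyx
      have h2 : ∑ z ∈ T.erase x, z + x = v := sum_erase_add _ _ hx
      have h3 := neg_mem hmem
      rw [← h2, ← h1] at h3
      have e : -(x + y - (∑ z ∈ (T.erase x).erase y, z + y + x)) =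
        ∑ z ∈ (T.erase x).erase y, z := by abel
      rwa [e] at h3
  by_cases hvD : v ∈ dbl K
  · -- classes of T are distinct
    have hinj : Set.InjOn (QuotientAddGroup.mk' (dbl K)) (T : Set G) := by
      intro x hx y hy hxy
      by_contra hne
      apply hno x hx y hy hne
      have h1 := add_mem (mk_eq_iff.1 hxy) (sub_mem (add_self_mem_dbl (hTK y hy)) hvD)
      have e : x - y + (y + y - v) = x + y - v := by abel
      rwa [e] at h1
    have h1 := hcls T hTK
    rw [card_image_of_injOn hinj] at h1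
    omega
  · have hTne : T.Nonempty := by rw [← card_pos]; omega
    obtain ⟨x₀, hx₀⟩ := hTne
    have hx₀K := hTK x₀ hx₀
    -- y ∈ T is never congruent to x + v
    have hno' : ∀ x ∈ T, ∀ y ∈ T, y - (x + v) ∉ dbl K := by
      intro x hx y hy hmem
      by_cases hxy : x = y
      · subst hxy
        apply hvD
        have := neg_mem hmem
        have e : -(x - (x + v)) = v := by abel
        rwa [e] at this
      · apply hno x hx y hy hxy
        have h1 := add_mem hmem (add_self_mem_dbl (hTK x hx))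
        have e : y - (x + v) + (x + x) = x + y - v := by abel
        rwa [e] at h1
    have hex : ∃ y₀ ∈ T, y₀ - x₀ ∉ dbl K := by
      by_contra hall
      push Not at hall
      apply hvD
      have h1 := sum_sub_card_smul hall
      have h2 : #T • x₀ ∈ dbl K := nsmul_even_mem (add_self_mem_dbl hx₀K) (by omega)
      have := add_mem h1 h2
      rwa [sub_add_cancel] at this
    obtain ⟨y₀, hy₀, hxy₀⟩ := hex
    have hy₀K := hTK y₀ hy₀
    have hcover : ∀ t ∈ T, t - x₀ ∈ dbl K ∨ t - y₀ ∈ dbl K := by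
      intro t ht
      by_contra hcon2
      push Not at hcon2
      obtain ⟨ht1, ht2⟩ := hcon2
      have htK := hTK t ht
      have h1 := hcls {x₀, x₀ + v, y₀, y₀ + v, t} (by
        intro s hs
        simp only [mem_insert, mem_singleton] at hs
        rcases hs with rfl | rfl | rfl | rfl | rfl
        · exact hx₀K
        · exact add_mem hx₀K hvK
        · exact hy₀K
        · exact add_mem hy₀K hvK
        · exact htK)
      have a1 : QuotientAddGroup.mk' (dbl K) x₀ ≠ QuotientAddGroup.mk' (dbl K) (x₀ + v) := by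
        intro h; exact hno' x₀ hx₀ x₀ hx₀ (mk_eq_iff.1 h)
      have a2 : QuotientAddGroup.mk' (dbl K) x₀ ≠ QuotientAddGroup.mk' (dbl K) y₀ := by
        intro h
        have := neg_mem (mk_eq_iff.1 h)
        rw [neg_sub] at this
        exact hxy₀ this
      have a3 : QuotientAddGroup.mk' (dbl K) x₀ ≠ QuotientAddGroup.mk' (dbl K) (y₀ + v) := by
        intro h; exact hno' y₀ hy₀ x₀ hx₀ (mk_eq_iff.1 h)
      have a4 : QuotientAddGroup.mk' (dbl K) x₀ ≠ QuotientAddGroup.mk' (dbl K) t := by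
        intro h
        have := neg_mem (mk_eq_iff.1 h)
        rw [neg_sub] at this
        exact ht1 this
      have a5 : QuotientAddGroup.mk' (dbl K) (x₀ + v) ≠ QuotientAddGroup.mk' (dbl K) y₀ := by
        intro h
        have := neg_mem (mk_eq_iff.1 h)
        rw [neg_sub] at this
        exact hno' x₀ hx₀ y₀ hy₀ this
      have a6 : QuotientAddGroup.mk' (dbl K) (x₀ + v) ≠ QuotientAddGroup.mk' (dbl K) (y₀ + v) := by
        intro h
        have := neg_mem (mk_eq_iff.1 h)
        have e : -(x₀ + v - (y₀ + v)) = y₀ - x₀ := by abel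
        rw [e] at this
        exact hxy₀ this
      have a7 : QuotientAddGroup.mk' (dbl K) (x₀ + v) ≠ QuotientAddGroup.mk' (dbl K) t := by
        intro h
        have := neg_mem (mk_eq_iff.1 h)
        rw [neg_sub] at this
        exact hno' x₀ hx₀ t ht this
      have a8 : QuotientAddGroup.mk' (dbl K) y₀ ≠ QuotientAddGroup.mk' (dbl K) (y₀ + v) := by
        intro h; exact hno' y₀ hy₀ y₀ hy₀ (mk_eq_iff.1 h)
      have a9 : QuotientAddGroup.mk' (dbl K) y₀ ≠ QuotientAddGroup.mk' (dbl K) t := by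
        intro h
        have := neg_mem (mk_eq_iff.1 h)
        rw [neg_sub] at this
        exact ht2 this
      have a10 : QuotientAddGroup.mk' (dbl K) (y₀ + v) ≠ QuotientAddGroup.mk' (dbl K) t := by
        intro h
        have := neg_mem (mk_eq_iff.1 h)
        rw [neg_sub] at this
        exact hno' y₀ hy₀ t ht this
      rw [image_insert, image_insert, image_insert, image_insert, image_singleton,
        card_insert_of_notMem, card_insert_of_notMem, card_insert_of_notMem,
        card_insert_of_notMem, card_singleton] at h1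
      · omega
      · simpa using a10
      · simp only [mem_insert, mem_singleton, not_or]; exact ⟨a8, a9⟩
      · simp only [mem_insert, mem_singleton, not_or]; exact ⟨a5, a6, a7⟩
      · simp only [mem_insert, mem_singleton, not_or]; exact ⟨a1, a2, a3, a4⟩
    -- split T
    set T₁ := T.filter (fun t => t - x₀ ∈ dbl K) with hT₁
    set T₂ := T.filter (fun t => ¬ t - x₀ ∈ dbl K) with hT₂
    have hs : ∑ x ∈ T₁, x + ∑ x ∈ T₂, x = v := sum_filter_add_sum_filter_not T _ _
    have hc : #T₁ + #T₂ = κ + 2 := by rw [← hTc]; exact card_filter_add_card_filter_not _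
    have h1 : ∑ x ∈ T₁, x - #T₁ • x₀ ∈ dbl K :=
      sum_sub_card_smul (fun y hy => (mem_filter.1 hy).2)
    have h2 : ∑ x ∈ T₂, x - #T₂ • y₀ ∈ dbl K := by
      apply sum_sub_card_smul
      intro y hy
      rcases hcover y (mem_filter.1 hy).1 with h | h
      · exact absurd h (mem_filter.1 hy).2
      · exact h
    rcases Nat.mod_two_eq_zero_or_one #T₁ with hp | hp
    · apply hvD
      have h3 : #T₁ • x₀ ∈ dbl K := nsmul_even_mem (add_self_mem_dbl hx₀K) hp
      have h5 : #T₂ • y₀ ∈ dbl K := nsmul_even_mem (add_self_mem_dbl hy₀K) (by omega)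
      have h6 := add_mem (add_mem h1 h3) (add_mem h2 h5)
      have e : ∑ x ∈ T₁, x - #T₁ • x₀ + #T₁ • x₀ + (∑ x ∈ T₂, x - #T₂ • y₀ + #T₂ • y₀) = v := by
        rw [← hs]; abel
      rwa [e] at h6
    · apply hno' x₀ hx₀ y₀ hy₀
      have h3 : (#T₁ + 1) • x₀ ∈ dbl K := nsmul_even_mem (add_self_mem_dbl hx₀K) (by omega)
      have h5 : (#T₂ + 1) • y₀ ∈ dbl K := nsmul_even_mem (add_self_mem_dbl hy₀K) (by omega)
      rw [succ_nsmul] at h3 h5
      have h6 := sub_mem (add_mem (sub_mem (neg_mem (add_mem h1 h2)) h3) h5)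
        (add_self_mem_dbl (AddSubgroup.nsmul_mem K hy₀K #T₂))
      have e : -(∑ x ∈ T₁, x - #T₁ • x₀ + (∑ x ∈ T₂, x - #T₂ • y₀)) - (#T₁ • x₀ + x₀) +
        (#T₂ • y₀ + y₀) - (#T₂ • y₀ + #T₂ • y₀) = y₀ - (x₀ + v) := by
        rw [← hs]; abel
      rwa [e] at h6

lemma eta_le_three {κ : ℕ} (hκ0 : 0 < κ) {K : AddSubgroup G}
    (h4 : Nat.card K ≤ 4 * Nat.card (dbl K)) (h3 : 3 * Nat.card K ≤ 4 * κ) : eta K κ ≤ κ := by
  obtain ⟨T₀, hT₀K, hT₀B, hT₀c⟩ := exists_eta K (h := κ) hκ0
  by_contra hcon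
  obtain ⟨T, hT, hTc⟩ := exists_subset_card_eq (s := T₀) (n := κ + 1) (by omega)
  have hTK : ∀ t ∈ T, t ∈ K := fun t ht => hT₀K t (hT ht)
  set v := ∑ x ∈ T, x with hv
  have hvK : v ∈ K := sum_mem hTK
  have hne : ∀ t ∈ T, t - v ∉ dbl K := by
    intro t ht hmem
    apply hT₀B (T.erase t) ((erase_subset _ _).trans hT)
    · rw [card_erase_of_mem ht]; omega
    · have h1 : ∑ x ∈ T.erase t, x + t = v := sum_erase_add _ _ ht
      have h3 := neg_mem hmem
      rw [← h1] at h3
      have e : -(t - (∑ x ∈ T.erase t, x + t)) = ∑ x ∈ T.erase t, x := by abel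
      rwa [e] at h3
  have hsub : T ∪ univ.filter (fun y => y - v ∈ dbl K) ⊆ univ.filter (fun x => x ∈ K) := by
    intro x hx
    rw [mem_union, mem_filter] at hx
    rw [mem_filter]
    refine ⟨mem_univ _, ?_⟩
    rcases hx with hx | ⟨_, hx⟩
    · exact hTK x hx
    · have := add_mem (dbl_le K hx) hvK
      rwa [sub_add_cancel] at this
  have hdisj : Disjoint T (univ.filter (fun y => y - v ∈ dbl K)) := by
    rw [disjoint_left]
    intro x hx hx'
    exact hne x hx (mem_filter.1 hx').2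
  have hc := card_le_card hsub
  rw [card_union_of_disjoint hdisj, coset_card, card_filter_sub] at hc
  omega

end gen

section rank2

variable {m n : ℕ} [NeZero m] [NeZero n]

lemma two_torsion_le_four :
    #(univ.filter (fun x : ZMod m × ZMod n => x + x = 0)) ≤ 4 := by
  have key : ∀ (k : ℕ) [NeZero k] (y : ZMod k), y + y = 0 → y = 0 ∨ y = ((k / 2 : ℕ) : ZMod k) := by
    intro k _ y hy
    have hyv : y = ((y.val : ℕ) : ZMod k) := (ZMod.natCast_zmod_val y).symm
    have hylt := ZMod.val_lt y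
    have h2 : k ∣ y.val + y.val := by
      rw [← ZMod.natCast_eq_zero_iff, Nat.cast_add, ← hyv]
      exact hy
    obtain ⟨c, hc⟩ := h2
    have hc2 : c < 2 := by
      by_contra hcon
      push Not at hcon
      have : k * 2 ≤ k * c := Nat.mul_le_mul_left _ hcon
      omega
    interval_cases c
    · left
      have : y.val = 0 := by omega
      rw [hyv, this, Nat.cast_zero]
    · right
      have : y.val = k / 2 := by omega
      rw [← this, ← hyv]
  have hsub : univ.filter (fun x : ZMod m × ZMod n => x + x = 0) ⊆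
      ({0, ((m / 2 : ℕ) : ZMod m)} : Finset (ZMod m)) ×ˢ
        ({0, ((n / 2 : ℕ) : ZMod n)} : Finset (ZMod n)) := by
    rintro ⟨x, y⟩ hxy
    rw [mem_filter] at hxy
    have hx : x + x = 0 := congrArg Prod.fst hxy.2
    have hy : y + y = 0 := congrArg Prod.snd hxy.2
    rw [mem_product, mem_insert, mem_singleton, mem_insert, mem_singleton]
    exact ⟨key m x hx, key n y hy⟩
  refine (card_le_card hsub).trans ?_
  rw [card_product]
  calc _ ≤ 2 * 2 := Nat.mul_le_mul card_le_two card_le_two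
    _ = 4 := by norm_num

/-- first coordinate to `ZMod d` -/
def phi1 (n : ℕ) {m d : ℕ} (hd : d ∣ m) : ZMod m × ZMod n →+ ZMod d :=
  (ZMod.castHom hd (ZMod d)).toAddMonoidHom.comp (AddMonoidHom.fst (ZMod m) (ZMod n))

lemma phi1_surj {d : ℕ} (hd : d ∣ m) : Function.Surjective (phi1 n hd) := by
  intro z
  obtain ⟨y, hy⟩ := ZMod.castHom_surjective hd z
  exact ⟨(y, 0), hy⟩

lemma index_phi1 {d : ℕ} [NeZero d] (hd : d ∣ m) : (phi1 n hd).ker.index = d := by
  rw [AddSubgroup.index_ker]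
  have : (phi1 n hd).range = ⊤ := AddMonoidHom.range_eq_top.2 (phi1_surj hd)
  rw [this]
  rw [Nat.card_congr AddSubgroup.topEquiv.toEquiv, Nat.card_eq_fintype_card, ZMod.card]

lemma zsmul_mem_phi1 {d : ℕ} (hd : d ∣ m) (k : ℤ) :
    k • ((1 : ZMod m), (0 : ZMod n)) ∈ (phi1 n hd).ker → (d : ℤ) ∣ k := by
  intro h
  rw [AddMonoidHom.mem_ker, map_zsmul] at h
  have h1 : phi1 n hd (1, 0) = 1 := by
    show ZMod.castHom hd (ZMod d) 1 = 1
    rw [map_one]
  rw [h1, zsmul_eq_mul, mul_one] at h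
  exact (ZMod.intCast_zmod_eq_zero_iff_dvd k d).1 h

/-- first coordinate and parity of the second -/
def psi (m : ℕ) {n : ℕ} (h2 : 2 ∣ n) : ZMod m × ZMod n →+ ZMod m × ZMod 2 :=
  (AddMonoidHom.id (ZMod m)).prodMap (ZMod.castHom h2 (ZMod 2)).toAddMonoidHom

lemma psi_apply (h2 : 2 ∣ n) (x : ZMod m) (y : ZMod n) :
    psi m h2 (x, y) = (x, ZMod.castHom h2 (ZMod 2) y) := rfl

lemma psi_surj (h2 : 2 ∣ n) : Function.Surjective (psi m h2) := by
  rintro ⟨x, z⟩
  obtain ⟨y, hy⟩ := ZMod.castHom_surjective h2 z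
  exact ⟨(x, y), by rw [psi_apply, hy]⟩

lemma card_ker_psi (h2 : 2 ∣ n) : 2 * Nat.card (psi m h2).ker = n := by
  have h1 := (psi m h2).ker.index_mul_card
  rw [AddSubgroup.index_ker, AddMonoidHom.range_eq_top.2 (psi_surj h2),
    Nat.card_congr AddSubgroup.topEquiv.toEquiv, Nat.card_prod, Nat.card_prod, Nat.card_zmod,
    Nat.card_zmod, Nat.card_zmod] at h1
  have hm : 0 < m := Nat.pos_of_ne_zero (NeZero.ne m)
  apply Nat.eq_of_mul_eq_mul_left hm
  rw [← h1]; ring

lemma eta_ge_rank2 (hm2 : 2 ∣ m) (h2 : 2 ∣ n) (hn : 6 ≤ n) (hd : m / 2 ∣ m) :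
    n + 1 ≤ eta (phi1 n hd).ker n := by
  set K := (phi1 n hd).ker with hK
  set L := (psi m h2).ker with hL
  have hLc : 2 * Nat.card L = n := card_ker_psi h2
  have hm0 : 0 < m := Nat.pos_of_ne_zero (NeZero.ne m)
  obtain ⟨p, hp1, hp2, hp3⟩ : ∃ p, p % 2 = 1 ∧ p ≤ n / 2 ∧ n ≤ 2 * p + 2 := by
    rcases Nat.mod_two_eq_zero_or_one (n / 2) with h | h
    · exact ⟨n / 2 - 1, by omega, by omega, by omega⟩
    · exact ⟨n / 2, by omega, by omega, by omega⟩
  set g₂ : ZMod m × ZMod n := (0, 1) with hg₂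
  set g₃ : ZMod m × ZMod n := (((m / 2 : ℕ) : ZMod m), 0) with hg₃
  have hcos : ∀ g : ZMod m × ZMod n, #(univ.filter (fun y => y - g ∈ L)) = Nat.card L := by
    intro g
    convert coset_card L g
  obtain ⟨T₁, hT₁, hT₁c⟩ := exists_subset_card_eq
    (s := univ.filter (fun y : ZMod m × ZMod n => y - 0 ∈ L)) (n := p) (by
      rw [hcos]; omega)
  obtain ⟨T₂, hT₂, hT₂c⟩ := exists_subset_card_eq
    (s := univ.filter (fun y : ZMod m × ZMod n => y - g₂ ∈ L)) (n := p) (by
      rw [hcos]; omega)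
  obtain ⟨T₃, hT₃, hT₃c⟩ := exists_subset_card_eq
    (s := univ.filter (fun y : ZMod m × ZMod n => y - g₃ ∈ L)) (n := n + 1 - 2 * p) (by
      rw [hcos]; omega)
  have val : ∀ (g y : ZMod m × ZMod n), y - g ∈ L → psi m h2 y = psi m h2 g := by
    intro g y hy
    rw [hL, AddMonoidHom.mem_ker, map_sub, sub_eq_zero] at hy
    exact hy
  have v₁ : ∀ y ∈ T₁, psi m h2 y = (0, 0) := by
    intro y hy
    rw [val 0 y (mem_filter.1 (hT₁ hy)).2, map_zero]; rfl
  have v₂ : ∀ y ∈ T₂, psi m h2 y = (0, 1) := by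
    intro y hy
    rw [val g₂ y (mem_filter.1 (hT₂ hy)).2, hg₂, psi_apply, map_one]
  have v₃ : ∀ y ∈ T₃, psi m h2 y = (((m / 2 : ℕ) : ZMod m), 0) := by
    intro y hy
    rw [val g₃ y (mem_filter.1 (hT₃ hy)).2, hg₃, psi_apply, map_zero]
  have hhalf : ((m / 2 : ℕ) : ZMod m) ≠ 0 := by
    intro h
    rw [ZMod.natCast_eq_zero_iff] at h
    have := Nat.le_of_dvd (by omega) h
    omega
  have hhalf2 : ((m / 2 : ℕ) : ZMod m) + ((m / 2 : ℕ) : ZMod m) = 0 := by
    rw [← Nat.cast_add, ZMod.natCast_eq_zero_iff]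
    exact ⟨1, by omega⟩
  have h01 : (1 : ZMod 2) ≠ 0 := by decide
  have d12 : Disjoint T₁ T₂ := by
    rw [disjoint_left]
    intro y h1 h2'
    have := (v₁ y h1).symm.trans (v₂ y h2')
    exact h01 (congrArg Prod.snd this).symm
  have d13 : Disjoint T₁ T₃ := by
    rw [disjoint_left]
    intro y h1 h2'
    have := (v₁ y h1).symm.trans (v₃ y h2')
    exact hhalf (congrArg Prod.fst this).symm
  have d23 : Disjoint T₂ T₃ := by
    rw [disjoint_left]
    intro y h1 h2'
    have := (v₂ y h1).symm.trans (v₃ y h2')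
    exact hhalf (congrArg Prod.fst this).symm
  have d123 : Disjoint (T₁ ∪ T₂) T₃ := by
    rw [disjoint_union_left]; exact ⟨d13, d23⟩
  have hTc : #(T₁ ∪ T₂ ∪ T₃) = n + 1 := by
    rw [card_union_of_disjoint d123, card_union_of_disjoint d12]; omega
  have smul_odd : ∀ (M : Type) [AddCommGroup M] (k : ℕ) (z : M), z + z = 0 → k % 2 = 1 →
      k • z = z := by
    intro M _ k z hz hk
    obtain ⟨l, rfl⟩ : ∃ l, k = 2 * l + 1 := ⟨k / 2, by omega⟩
    rw [add_smul, one_smul, mul_comm, mul_smul, two_nsmul, hz, smul_zero, zero_add]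
  have hsum : psi m h2 (∑ x ∈ T₁ ∪ T₂ ∪ T₃, x) = (((m / 2 : ℕ) : ZMod m), 1) := by
    rw [map_sum, sum_union d123, sum_union d12, sum_congr rfl v₁, sum_congr rfl v₂,
      sum_congr rfl v₃, sum_const, sum_const, sum_const, hT₁c, hT₂c, hT₃c]
    rw [smul_odd _ p (0, 1) (by ext <;> simp; decide) hp1,
      smul_odd _ (n + 1 - 2 * p) (((m / 2 : ℕ) : ZMod m), (0 : ZMod 2))
        (by ext <;> simp [hhalf2]) (by omega)]
    ext <;> simp
  have hdblK : ∀ z ∈ dbl K, psi m h2 z = (0, 0) := by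
    intro z hz
    obtain ⟨⟨x, y⟩, hk, rfl⟩ := mem_dbl.1 hz
    have hx : ZMod.castHom hd (ZMod (m / 2)) x = 0 := by
      rw [hK, AddMonoidHom.mem_ker] at hk
      exact hk
    rw [map_add, psi_apply]
    have hx2 : x + x = 0 := by
      have hxv : x = ((x.val : ℕ) : ZMod m) := (ZMod.natCast_zmod_val x).symm
      rw [hxv, map_natCast, ZMod.natCast_eq_zero_iff] at hx
      obtain ⟨w, hw⟩ := hx
      rw [hxv, ← Nat.cast_add, ZMod.natCast_eq_zero_iff]
      refine ⟨w, ?_⟩
      rw [hw]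
      have : m = 2 * (m / 2) := by omega
      conv_rhs => rw [this]
      ring
    ext
    · exact hx2
    · show ZMod.castHom h2 (ZMod 2) y + ZMod.castHom h2 (ZMod 2) y = 0
      generalize ZMod.castHom h2 (ZMod 2) y = z
      revert z
      decide
  rw [← hTc]
  apply le_eta
  · intro t ht
    rw [hK, AddMonoidHom.mem_ker]
    have hfst : ∀ c : ZMod m × ZMod 2, psi m h2 t = c → t.1 = c.1 := by
      intro c hc
      have := congrArg Prod.fst hc
      exact this
    rw [mem_union, mem_union] at ht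
    have hcase : t.1 = 0 ∨ t.1 = ((m / 2 : ℕ) : ZMod m) := by
      rcases ht with (h | h) | h
      · left; exact hfst _ (v₁ t h)
      · left; exact hfst _ (v₂ t h)
      · right; exact hfst _ (v₃ t h)
    show ZMod.castHom hd (ZMod (m / 2)) t.1 = 0
    rcases hcase with h | h
    · rw [h, map_zero]
    · rw [h, map_natCast, ZMod.natCast_self]
  · intro B hB hBc hBs
    have h1 : #((T₁ ∪ T₂ ∪ T₃) \ B) = 1 := by
      rw [card_sdiff_of_subset hB]; omega
    obtain ⟨t, ht⟩ := card_eq_one.1 h1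
    have h3 : ∑ x ∈ (T₁ ∪ T₂ ∪ T₃) \ B, x + ∑ x ∈ B, x = ∑ x ∈ T₁ ∪ T₂ ∪ T₃, x := sum_sdiff hB
    rw [ht, sum_singleton] at h3
    have h4 := congrArg (psi m h2) h3
    rw [map_add, hdblK _ hBs, hsum] at h4
    have htT : t ∈ T₁ ∪ T₂ ∪ T₃ := by
      have : t ∈ (T₁ ∪ T₂ ∪ T₃) \ B := by rw [ht]; exact mem_singleton_self t
      exact (mem_sdiff.1 this).1
    rw [mem_union, mem_union] at htT
    rcases htT with (h | h) | h
    · rw [v₁ t h] at h4
      have := congrArg Prod.fst h4
      simp only [Prod.fst_add, add_zero] at this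
      exact hhalf this.symm
    · rw [v₂ t h] at h4
      have := congrArg Prod.fst h4
      simp only [Prod.fst_add, add_zero] at this
      exact hhalf this.symm
    · rw [v₃ t h] at h4
      have := congrArg Prod.snd h4
      simp only [Prod.snd_add, add_zero] at this
      exact h01 this.symm

theorem rank2_even (hm2 : 2 ∣ m) (hmn : m ∣ n) (hlarge : 10 ^ 6 * m ^ 4 ≤ n) :
    n + Nat.log 2 m ≤ tau (ZMod m × ZMod n) n ∧
    tau (ZMod m × ZMod n) n ≤ n + Nat.log 2 m + 1 ∧
    (3 * m ≤ 2 ^ (Nat.log 2 m + 2) → tau (ZMod m × ZMod n) n = n + Nat.log 2 m) := by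
  have hm0 : 0 < m := Nat.pos_of_ne_zero (NeZero.ne m)
  have hm2' : 2 ≤ m := Nat.le_of_dvd hm0 hm2
  have n2 := num2 hm0 hlarge
  have hn0 : 0 < n := by omega
  have h2n : 2 ∣ n := hm2.trans hmn
  have hcm : Nat.card (ZMod m) = m := Nat.card_zmod m
  have hκ : AddMonoid.exponent (ZMod m × ZMod n) = n := exp_prod (by rw [hcm]; exact hmn)
  have hG : Nat.card (ZMod m × ZMod n) = m * n := by
    rw [Nat.card_prod, Nat.card_zmod, Nat.card_zmod]
  obtain ⟨⟨K, hK, hKeq⟩, hub⟩ := main_thm hκ hlarge hG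
  have hidx : K.index ≤ m := by
    have h3 := K.index_mul_card
    have h4 : K.index * n ≤ m * n := by
      rw [← hG, ← h3]
      exact Nat.mul_le_mul_left _ hK
    exact Nat.le_of_mul_le_mul_right h4 hn0
  have hdis : dis ((ZMod m × ZMod n) ⧸ K) ≤ Nat.log 2 K.index := dis_le_log K
  have h4K : Nat.card K ≤ 4 * Nat.card (dbl K) := by
    refine (card_le_dbl' K).trans (Nat.mul_le_mul_right _ ?_)
    convert two_torsion_le_four (m := m) (n := n)
  have hup : eta K n ≤ n + 1 := eta_le_four (by omega) (by omega) h4K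
  set a := Nat.log 2 m with ha
  have hloglea : Nat.log 2 K.index ≤ a := Nat.log_mono_right hidx
  -- lower bound
  have hd : m / 2 ∣ m := Nat.div_dvd_of_dvd hm2
  have : NeZero (m / 2) := ⟨by omega⟩
  have hlow : n + a ≤ tau (ZMod m × ZMod n) n := by
    have h1 := eta_ge_rank2 (m := m) (n := n) hm2 h2n (by omega) hd
    have h3 : Nat.log 2 (m / 2) ≤ dis ((ZMod m × ZMod n) ⧸ (phi1 n hd).ker) :=
      log_le_dis (by omega) (1, 0) (fun k hk => zsmul_mem_phi1 hd k hk)
    have h5 : Nat.log 2 (m / 2) = a - 1 := Nat.log_div_base 2 m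
    have h6 := lower (phi1 n hd).ker hn0
    have h7 : 1 ≤ a := Nat.log_pos (by norm_num) hm2'
    omega
  refine ⟨hlow, by omega, ?_⟩
  intro h3m
  apply le_antisymm _ hlow
  rw [hKeq]
  by_cases hsmall : K.index < 2 ^ a
  · have h8 : Nat.log 2 K.index < a := by
      apply Nat.log_lt_of_lt_pow _ hsmall
      exact AddSubgroup.index_ne_zero_of_finite
    omega
  · push Not at hsmall
    have h9 : 3 * Nat.card K ≤ 4 * n := by
      have h10 : 3 * m ≤ 4 * K.index := by
        have : 2 ^ (a + 2) = 4 * 2 ^ a := by ring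
        omega
      have h11 := K.index_mul_card
      rw [hG] at h11
      have h12 : K.index * (3 * Nat.card K) ≤ K.index * (4 * n) := by
        calc K.index * (3 * Nat.card K) = 3 * (K.index * Nat.card K) := by ring
          _ = (3 * m) * n := by rw [h11]; ring
          _ ≤ (4 * K.index) * n := Nat.mul_le_mul_right _ h10
          _ = K.index * (4 * n) := by ring
      exact Nat.le_of_mul_le_mul_left h12
        (Nat.pos_of_ne_zero AddSubgroup.index_ne_zero_of_finite)
    have := eta_le_three hn0 h4K h9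
    omega

end rank2

end Pool.Agent.Lib.MP_8ac08c_co
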